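import Mathlib

/-!
MP_688fd0_co, type C2, case B3 (far triple), THE BASE (helper76).

The plane `ℤ × ℤ` (steps `a = (1,0)`, `b = (0,1)`, `t = (0,0)` in the Haar form), column `i - j`, level `i + j`.
Walls `K : ℤ`: the wall `K` is at level `s` in column `C K s`, its letter from level `s` to `s + 1` is `W K s` (`true` = a).
The perfect matching `Mt` has the letter of the wall at the wall sites and `t` elsewhere; `F_0` = the two other letters.
The line `(K, s)` = the part of `F_0` at level `s` between the walls `K` and `K + 1`. It is joined to other lines only through the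
t-edges at the walls (`Jn`).
-/

set_option autoImplicit false

namespace Pool.Agent.Lib.MP_688fd0_co.SQ5.H76

/-- The three letters, `t` is the strip letter. -/
inductive L3
  | a
  | b
  | t
deriving DecidableEq

/-- Sites: `(true, i, j)` white (+), `(false, i, j)` black (-). -/
abbrev V : Type := Bool × ℤ × ℤ

/-- The neighbour along a letter. -/
def nb : V → L3 → V
  | (true, i, j), .a => (false, i + 1, j)
  | (true, i, j), .b => (false, i, j + 1)
  | (true, i, j), .t => (false, i, j)
  | (false, i, j), .a => (true, i - 1, j)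
  | (false, i, j), .b => (true, i, j - 1)
  | (false, i, j), .t => (true, i, j)

theorem nb_nb (v : V) (l : L3) : nb (nb v l) l = v := by
  obtain ⟨s, i, j⟩ := v
  cases s <;> cases l <;> simp [nb]

/-- A pattern of walls. -/
structure Pat where
  C : ℤ → ℤ → ℤ
  W : ℤ → ℤ → Bool
  hC : ∀ K s, C K (s + 1) = C K s + if W K s = true then 1 else -1
  par : ∀ K s, (C K s - s) % 2 = 0
  gap : ∀ K s, C K s + 2 ≤ C (K + 1) s

namespace Pat

variable (p : Pat)

theorem C_add (K s : ℤ) (n : ℕ) : p.C K s + 2 * n ≤ p.C (K + n) s := by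
  induction n with
  | zero => simp
  | succ n ih =>
    have h := p.gap (K + n) s
    have e : K + ((n + 1 : ℕ) : ℤ) = K + n + 1 := by push_cast; ring
    rw [e]
    push_cast
    linarith

theorem C_lt {K K' : ℤ} (h : K < K') (s : ℤ) : p.C K s + 2 ≤ p.C K' s := by
  obtain ⟨n, rfl⟩ : ∃ n : ℕ, K' = K + (n + 1 : ℕ) := ⟨(K' - K - 1).toNat, by omega⟩
  have := p.C_add K s (n + 1)
  push_cast at this ⊢
  have hn : (0 : ℤ) ≤ n := Int.natCast_nonneg n
  linarith

theorem C_inj {K K' s : ℤ} (h : p.C K s = p.C K' s) : K = K' := by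
  rcases lt_trichotomy K K' with h1 | h1 | h1
  · have := p.C_lt h1 s; omega
  · exact h1
  · have := p.C_lt h1 s; omega

open Classical in
/-- The matching. -/
noncomputable def Mt : V → L3
  | (true, i, j) => if h : ∃ K, p.C K (i + j) = i - j then (if p.W h.choose (i + j) = true then .a else .b) else .t
  | (false, i, j) =>
    if h : ∃ K, p.C K (i + j) = i - j then (if p.W h.choose (i + j - 1) = true then .a else .b) else .t

theorem Mt_wp {K i j : ℤ} (h : p.C K (i + j) = i - j) :
    p.Mt (true, i, j) = if p.W K (i + j) = true then .a else .b := by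
  have hex : ∃ K, p.C K (i + j) = i - j := ⟨K, h⟩
  have e : hex.choose = K := p.C_inj (hex.choose_spec.trans h.symm)
  simp only [Mt]
  rw [dif_pos hex, e]

theorem Mt_wm {K i j : ℤ} (h : p.C K (i + j) = i - j) :
    p.Mt (false, i, j) = if p.W K (i + j - 1) = true then .a else .b := by
  have hex : ∃ K, p.C K (i + j) = i - j := ⟨K, h⟩
  have e : hex.choose = K := p.C_inj (hex.choose_spec.trans h.symm)
  simp only [Mt]
  rw [dif_pos hex, e]

theorem Mt_off {i j : ℤ} (s : Bool) (h : ∀ K, p.C K (i + j) ≠ i - j) : p.Mt (s, i, j) = .t := by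
  have hn : ¬ ∃ K, p.C K (i + j) = i - j := fun ⟨K, hK⟩ => h K hK
  cases s <;> simp [Mt, hn]

theorem Mt_t_iff {i j : ℤ} (s : Bool) : p.Mt (s, i, j) = .t ↔ ∀ K, p.C K (i + j) ≠ i - j := by
  constructor
  · intro h K hK
    cases s
    · rw [p.Mt_wm hK] at h; split_ifs at h
    · rw [p.Mt_wp hK] at h; split_ifs at h
  · exact p.Mt_off s

theorem Mt_pa {i j : ℤ} : p.Mt (true, i, j) = .a ↔ ∃ K, p.C K (i + j) = i - j ∧ p.W K (i + j) = true := by
  constructor
  · intro h
    by_cases hex : ∃ K, p.C K (i + j) = i - j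
    · obtain ⟨K, hK⟩ := hex
      refine ⟨K, hK, ?_⟩
      rw [p.Mt_wp hK] at h
      by_contra hW
      rw [if_neg hW] at h
      cases h
    · rw [p.Mt_off true fun K hK => hex ⟨K, hK⟩] at h
      cases h
  · rintro ⟨K, hK, hW⟩
    rw [p.Mt_wp hK, if_pos hW]

theorem Mt_pb {i j : ℤ} : p.Mt (true, i, j) = .b ↔ ∃ K, p.C K (i + j) = i - j ∧ p.W K (i + j) = false := by
  constructor
  · intro h
    by_cases hex : ∃ K, p.C K (i + j) = i - j
    · obtain ⟨K, hK⟩ := hex
      refine ⟨K, hK, ?_⟩
      rw [p.Mt_wp hK] at h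
      by_contra hW
      rw [if_pos (by simpa using hW)] at h
      cases h
    · rw [p.Mt_off true fun K hK => hex ⟨K, hK⟩] at h
      cases h
  · rintro ⟨K, hK, hW⟩
    rw [p.Mt_wp hK, if_neg (by simp [hW])]

theorem Mt_ma {i j : ℤ} : p.Mt (false, i, j) = .a ↔ ∃ K, p.C K (i + j) = i - j ∧ p.W K (i + j - 1) = true := by
  constructor
  · intro h
    by_cases hex : ∃ K, p.C K (i + j) = i - j
    · obtain ⟨K, hK⟩ := hex
      refine ⟨K, hK, ?_⟩
      rw [p.Mt_wm hK] at h
      by_contra hW
      rw [if_neg hW] at h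
      cases h
    · rw [p.Mt_off false fun K hK => hex ⟨K, hK⟩] at h
      cases h
  · rintro ⟨K, hK, hW⟩
    rw [p.Mt_wm hK, if_pos hW]

theorem Mt_mb {i j : ℤ} : p.Mt (false, i, j) = .b ↔ ∃ K, p.C K (i + j) = i - j ∧ p.W K (i + j - 1) = false := by
  constructor
  · intro h
    by_cases hex : ∃ K, p.C K (i + j) = i - j
    · obtain ⟨K, hK⟩ := hex
      refine ⟨K, hK, ?_⟩
      rw [p.Mt_wm hK] at h
      by_contra hW
      rw [if_pos (by simpa using hW)] at h
      cases h
    · rw [p.Mt_off false fun K hK => hex ⟨K, hK⟩] at h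
      cases h
  · rintro ⟨K, hK, hW⟩
    rw [p.Mt_wm hK, if_neg (by simp [hW])]

/-- The matching is perfect. -/
theorem Mt_nb (v : V) (l : L3) : p.Mt (nb v l) = l ↔ p.Mt v = l := by
  have key : ∀ i j : ℤ, ∀ l : L3, p.Mt (nb (true, i, j) l) = l ↔ p.Mt (true, i, j) = l := by
    intro i j l
    cases l with
    | t =>
      show p.Mt (false, i, j) = _ ↔ _
      rw [p.Mt_t_iff, p.Mt_t_iff]
    | a =>
      show p.Mt (false, i + 1, j) = _ ↔ _
      rw [p.Mt_ma, p.Mt_pa]
      refine exists_congr fun K => ?_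
      have e1 : i + 1 + j = i + j + 1 := by ring
      have e2 : i + j + 1 - 1 = i + j := by ring
      rw [e1, e2, p.hC]
      constructor
      · rintro ⟨h1, h2⟩
        rw [if_pos h2] at h1
        exact ⟨by linarith, h2⟩
      · rintro ⟨h1, h2⟩
        rw [if_pos h2]
        exact ⟨by linarith, h2⟩
    | b =>
      show p.Mt (false, i, j + 1) = _ ↔ _
      rw [p.Mt_mb, p.Mt_pb]
      refine exists_congr fun K => ?_
      have e1 : i + (j + 1) = i + j + 1 := by ring
      have e2 : i + j + 1 - 1 = i + j := by ring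
      rw [e1, e2, p.hC]
      constructor
      · rintro ⟨h1, h2⟩
        rw [if_neg (by simp [h2])] at h1
        exact ⟨by linarith, h2⟩
      · rintro ⟨h1, h2⟩
        rw [if_neg (by simp [h2])]
        exact ⟨by linarith, h2⟩
  obtain ⟨s, i, j⟩ := v
  cases s
  · have h := nb_nb (false, i, j) l
    have h1 : ∃ i' j', nb (false, i, j) l = (true, i', j') := by cases l <;> exact ⟨_, _, rfl⟩
    obtain ⟨i', j', h1⟩ := h1
    rw [h1] at h ⊢
    rw [← h]
    exact (key i' j' l).symm
  · exact key i j l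

/-- `F_0`-edges. -/
def E (v w : V) : Prop := ∃ l, p.Mt v ≠ l ∧ w = nb v l

theorem E.symm {p : Pat} {v w : V} (h : p.E v w) : p.E w v := by
  obtain ⟨l, h1, rfl⟩ := h
  exact ⟨l, fun h2 => h1 ((p.Mt_nb v l).1 h2), (nb_nb v l).symm⟩

/-- Connected by `F_0` inside the set `S`. -/
def Cn (S : V → Prop) : V → V → Prop := Relation.ReflTransGen fun v w => p.E v w ∧ S v ∧ S w

theorem Cn.trans {p : Pat} {S : V → Prop} {u v w : V} (h : p.Cn S u v) (h' : p.Cn S v w) : p.Cn S u w :=
  Relation.ReflTransGen.trans h h'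

theorem Cn.symm {p : Pat} {S : V → Prop} {u v : V} (h : p.Cn S u v) : p.Cn S v u := by
  induction h with
  | refl => exact Relation.ReflTransGen.refl
  | tail _ hs ih => exact Relation.ReflTransGen.trans (Relation.ReflTransGen.single ⟨hs.1.symm, hs.2.2, hs.2.1⟩) ih

theorem Cn.mono {p : Pat} {S S' : V → Prop} (hS : ∀ v, S v → S' v) {u v : V} (h : p.Cn S u v) : p.Cn S' u v := by
  induction h with
  | refl => exact Relation.ReflTransGen.refl
  | tail _ hs ih => exact Relation.ReflTransGen.tail ih ⟨hs.1, hS _ hs.2.1, hS _ hs.2.2⟩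

/-! ### Lines -/

/-- The vertex of the line of level `s` in column `c`. -/
def lv (s c : ℤ) : V := if (c - s) % 2 = 0 then (true, (s + c) / 2, (s - c) / 2) else (false, (s + 1 + c) / 2, (s + 1 - c) / 2)

/-- The columns of the line `(K, s)` between the walls `K` and `K + 1`. -/
def cL (K s : ℤ) : ℤ := if p.W K s = true then p.C K s + 1 else p.C K s

def cR (K s : ℤ) : ℤ := if p.W (K + 1) s = true then p.C (K + 1) s else p.C (K + 1) s - 1

/-- The vertices of the line `(K, s)`. -/
def onL (x : ℤ × ℤ) (v : V) : Prop := ∃ c, p.cL x.1 x.2 ≤ c ∧ c ≤ p.cR x.1 x.2 ∧ v = lv x.2 c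

/-- Two lines are joined by the t-edge at the wall `K` and level `s`. -/
def Jn (x y : ℤ × ℤ) : Prop :=
  ∃ K s, x = (if p.W K (s - 1) = true then K else K - 1, s - 1) ∧ y = (if p.W K s = true then K - 1 else K, s)

/-- Connected lines inside a set of lines. -/
def LC (S : ℤ × ℤ → Prop) : ℤ × ℤ → ℤ × ℤ → Prop :=
  Relation.ReflTransGen fun x y => (p.Jn x y ∨ p.Jn y x) ∧ S x ∧ S y

end Pat

end Pool.Agent.Lib.MP_688fd0_co.SQ5.H76
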