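import Mathlib
import Pool.Agent.Lib.MP_688fd0_co.SQ5.H76.Defs

/-!
MP_688fd0_co, type C2, case B3, THE WALL WORD (helper76).

The word `aababbab` with events (`aab` inserted: phase 2 is followed by phase 0; `bba` inserted: phase 6 is followed by
phase 4), evenly spaced, of given length `l0` and displacement `c0`.
-/

set_option autoImplicit false

namespace Pool.Agent.Lib.MP_688fd0_co.SQ5.H76

/-- The letter of the phase: `aababbab`, `true` = a. -/
def bw (x : ℤ) : Bool := decide (x % 8 = 0 ∨ x % 8 = 1 ∨ x % 8 = 3 ∨ x % 8 = 6)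

/-- The column of the phase. -/
def col (x : ℤ) : ℤ :=
  if x % 8 = 0 then 0 else if x % 8 = 2 then 2 else if x % 8 = 4 then 2 else if x % 8 = 6 then 0 else 1

theorem col_succ (x : ℤ) : col (x + 1) = col x + if bw x = true then 1 else -1 := by
  have h : x % 8 = 0 ∨ x % 8 = 1 ∨ x % 8 = 2 ∨ x % 8 = 3 ∨ x % 8 = 4 ∨ x % 8 = 5 ∨ x % 8 = 6 ∨ x % 8 = 7 := by omega
  unfold col bw
  rcases h with h | h | h | h | h | h | h | h
  · have h' : (x + 1) % 8 = 1 := by omega
    simp [h, h']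
  · have h' : (x + 1) % 8 = 2 := by omega
    simp [h, h']
  · have h' : (x + 1) % 8 = 3 := by omega
    simp [h, h']
  · have h' : (x + 1) % 8 = 4 := by omega
    simp [h, h']
  · have h' : (x + 1) % 8 = 5 := by omega
    simp [h, h']
  · have h' : (x + 1) % 8 = 6 := by omega
    simp [h, h']
  · have h' : (x + 1) % 8 = 7 := by omega
    simp [h, h']
  · have h' : (x + 1) % 8 = 0 := by omega
    simp [h, h']

theorem col_par (x : ℤ) : (col x - x) % 2 = 0 := by
  unfold col
  split_ifs <;> omega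

theorem col_nonneg (x : ℤ) : 0 ≤ col x := by
  unfold col
  split_ifs <;> omega

theorem col_le (x : ℤ) : col x ≤ 2 := by
  unfold col
  split_ifs <;> omega

theorem bw_congr {x y : ℤ} (h : x % 8 = y % 8) : bw x = bw y := by
  unfold bw
  rw [h]

theorem col_congr {x y : ℤ} (h : x % 8 = y % 8) : col x = col y := by
  unfold col
  rw [h]

/-- Two phases for columns: after an event. -/
theorem col_ev_a {x : ℤ} (h : x % 8 = 2) : col (x + 1 - 3) + 1 = col x + if bw x = true then 1 else -1 := by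
  have h' : (x + 1 - 3) % 8 = 0 := by omega
  unfold col bw
  simp [h, h']

theorem col_ev_b {x : ℤ} (h : x % 8 = 6) : col (x + 1 - 3) - 1 = col x + if bw x = true then 1 else -1 := by
  have h' : (x + 1 - 3) % 8 = 4 := by omega
  unfold col bw
  simp [h, h']

/-- The wall word. -/
structure Word (l0 c0 G X : ℤ) where
  /-- number of events before the level `s` -/
  N : ℤ → ℤ
  /-- column -/
  C : ℤ → ℤ
  /-- position of the event number `n` (between the levels `e n` and `e n + 1`) -/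
  e : ℤ → ℤ
  Et : ℤ
  hN : ∀ s n, N s = n ↔ e (n - 1) < s ∧ s ≤ e n
  he : ∀ n, e n + G ≤ e (n + 1)
  ph : ∀ n, (e n - 3 * n) % 8 = 2 ∨ (e n - 3 * n) % 8 = 6
  hC : ∀ s, C (s + 1) = C s + if bw (s - 3 * N s) = true then 1 else -1
  par : ∀ s, (C s - s) % 2 = 0
  Et8 : 8 ≤ Et
  eEt : ∀ n, e (n + Et) = e n + l0
  l0Et : (l0 - 3 * Et) % 8 = 0
  CEt : ∀ s, C (s + l0) = C s + c0
  /-- the wall is close to a straight line -/
  bal : ∀ s, -(X * l0) ≤ l0 * C s - c0 * s ∧ l0 * C s - c0 * s ≤ X * l0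
  /-- the events are evenly spaced -/
  eb : ∀ n, n * l0 - X * Et ≤ Et * e n ∧ Et * e n ≤ n * l0 + X * Et

/-- The types of the events: `bt n` iff the event `n` is a `b`-event. `ty = false`: one stretch of `2 h + ρ` `b`-events in a
period, `ty = true`: two stretches of `h` and `h + ρ` `b`-events. -/
def bt (Et h ρ : ℤ) (ty : Bool) (n : ℤ) : Prop :=
  if ty then n % Et < h ∨ (2 * h ≤ n % Et ∧ n % Et < 3 * h + ρ) else n % Et < 2 * h + ρ

instance bt_dec (Et h ρ : ℤ) (ty : Bool) (n : ℤ) : Decidable (bt Et h ρ ty n) := by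
  unfold bt
  infer_instance

/-- The regular word: the types are given by `bt`; the runs inside a period between events of the same type have a length
divisible by `kq` periods (plus the three letters of the event). -/
structure Reg {l0 c0 G X : ℤ} (w : Word l0 c0 G X) (kq h ρ : ℤ) (ty : Bool) : Prop where
  hEt : w.Et = c0 + 4 * h + 2 * ρ
  ρ0 : 0 ≤ ρ
  ρ3 : ρ ≤ 3
  typ : ∀ n, (w.e n - 3 * n) % 8 = if bt w.Et h ρ ty n then 6 else 2
  run : ∀ n, n % w.Et + 1 < w.Et → (bt w.Et h ρ ty n ↔ bt w.Et h ρ ty (n + 1)) → (w.e (n + 1) - w.e n - 3) % (8 * kq) = 0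

namespace Word

variable {l0 c0 G X : ℤ} (w : Word l0 c0 G X)

/-- The phase (lifted). -/
def P (s : ℤ) : ℤ := s - 3 * w.N s

theorem N_le (s : ℤ) : s ≤ w.e (w.N s) := ((w.hN s _).1 rfl).2

theorem lt_N (s : ℤ) : w.e (w.N s - 1) < s := ((w.hN s _).1 rfl).1

theorem N_succ (hG : 1 ≤ G) (s : ℤ) :
    (w.N (s + 1) = w.N s ∧ s < w.e (w.N s)) ∨ (w.N (s + 1) = w.N s + 1 ∧ s = w.e (w.N s)) := by
  rcases lt_or_eq_of_le (w.N_le s) with h | h
  · left
    refine ⟨(w.hN _ _).2 ⟨?_, by omega⟩, h⟩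
    have := w.lt_N s
    omega
  · right
    refine ⟨(w.hN _ _).2 ⟨?_, ?_⟩, h⟩
    · rw [add_sub_cancel_right, ← h]; omega
    · have := w.he (w.N s)
      omega

theorem P_succ (hG : 1 ≤ G) (s : ℤ) :
    w.P (s + 1) = w.P s + 1 ∨ ((w.P s % 8 = 2 ∨ w.P s % 8 = 6) ∧ w.P (s + 1) = w.P s - 2) := by
  unfold P
  rcases w.N_succ hG s with ⟨h, _⟩ | ⟨h, h'⟩
  · left; rw [h]; ring
  · right
    refine ⟨?_, by rw [h]; ring⟩
    have := w.ph (w.N s)
    rwa [← h'] at this

theorem N_l0 (s : ℤ) : w.N (s + l0) = w.N s + w.Et := by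
  rw [w.hN]
  constructor
  · have h1 := w.eEt (w.N s - 1)
    have e1 : w.N s + w.Et - 1 = w.N s - 1 + w.Et := by ring
    rw [e1, h1]
    have := w.lt_N s
    omega
  · rw [w.eEt]
    have := w.N_le s
    omega

theorem P_l0 (s : ℤ) : (w.P (s + l0) - w.P s) % 8 = 0 := by
  unfold P
  rw [w.N_l0]
  have := w.l0Et
  omega

/-- An `a`-event: `aab` is inserted. -/
def aev (n : ℤ) : Prop := (w.e n - 3 * n) % 8 = 2

/-- A `b`-event: `bba` is inserted. -/
def bev (n : ℤ) : Prop := (w.e n - 3 * n) % 8 = 6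

/-- The events `u - 1` and `u` have different types. -/
def chg (u : ℤ) : Prop := ¬ (w.aev (u - 1) ↔ w.aev u)

theorem aev_or_bev (n : ℤ) : w.aev n ∨ w.bev n := w.ph n

theorem not_aev {n : ℤ} : ¬ w.aev n ↔ w.bev n := by
  have := w.ph n
  unfold aev bev
  omega

theorem not_bev {n : ℤ} : ¬ w.bev n ↔ w.aev n := by
  have := w.ph n
  unfold aev bev
  omega

theorem N_e (hG : 1 ≤ G) (n : ℤ) : w.N (w.e n) = n := by
  refine (w.hN _ _).2 ⟨?_, le_refl _⟩
  have := w.he (n - 1)
  rw [sub_add_cancel] at this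
  omega

theorem P_e (hG : 1 ≤ G) (n : ℤ) : w.P (w.e n) = w.e n - 3 * n := by
  unfold P
  rw [w.N_e hG]

end Word

namespace Reg

variable {l0 c0 G X : ℤ} {w : Word l0 c0 G X} {kq h ρ : ℤ} {ty : Bool} (r : Reg w kq h ρ ty)

include r in
theorem bev_iff (n : ℤ) : w.bev n ↔ bt w.Et h ρ ty n := by
  have := r.typ n
  unfold Word.bev
  split_ifs at this with h1
  · exact ⟨fun _ => h1, fun _ => this⟩
  · exact ⟨fun h2 => by omega, fun h2 => absurd h2 h1⟩

include r in
theorem aev_iff (n : ℤ) : w.aev n ↔ ¬ bt w.Et h ρ ty n := by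
  rw [← r.bev_iff, w.not_bev]

include r in
theorem Et_pos (hc : 0 ≤ c0) (hh : 1 ≤ h) : 0 < w.Et := by
  have := r.hEt
  have := r.ρ0
  omega

/-- The stretch of `a`-events: first event and number. -/
def a0 (h ρ : ℤ) (ty : Bool) : ℤ := if ty then h else 2 * h + ρ

include r in
/-- The events `q Et + a0 + i` with `0 ≤ i < h` are `a`-events. -/
theorem aev_stretch (hc : 0 ≤ c0) (hh : 1 ≤ h) {q i : ℤ} (h0 : 0 ≤ i) (hi : i < h) :
    w.aev (q * w.Et + a0 h ρ ty + i) := by
  have hE := r.Et_pos hc hh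
  have hEt := r.hEt
  have hρ := r.ρ0
  rw [r.aev_iff]
  have e : (q * w.Et + a0 h ρ ty + i) % w.Et = a0 h ρ ty + i := by
    have e : q * w.Et + a0 h ρ ty + i = (a0 h ρ ty + i) + w.Et * q := by ring
    rw [e, Int.add_mul_emod_self_left]
    unfold a0
    cases ty
    · exact Int.emod_eq_of_lt (by simp; omega) (by simp; omega)
    · exact Int.emod_eq_of_lt (by simp; omega) (by simp; omega)
  unfold bt
  rw [e]
  unfold a0
  cases ty
  · simp; omega
  · simp; omega

include r in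
/-- The runs of the stretch. -/
theorem run_stretch (hc : 0 ≤ c0) (hh : 1 ≤ h) {q i : ℤ} (h0 : 0 ≤ i) (hi : i + 1 < h) :
    (w.e (q * w.Et + a0 h ρ ty + i + 1) - w.e (q * w.Et + a0 h ρ ty + i) - 3) % (8 * kq) = 0 := by
  have hE := r.Et_pos hc hh
  have hEt := r.hEt
  have hρ := r.ρ0
  refine r.run _ ?_ ?_
  · have e : (q * w.Et + a0 h ρ ty + i) % w.Et = a0 h ρ ty + i := by
      have e : q * w.Et + a0 h ρ ty + i = (a0 h ρ ty + i) + w.Et * q := by ring
      rw [e, Int.add_mul_emod_self_left]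
      unfold a0
      cases ty
      · exact Int.emod_eq_of_lt (by simp; omega) (by simp; omega)
      · exact Int.emod_eq_of_lt (by simp; omega) (by simp; omega)
    rw [e]
    unfold a0
    cases ty
    · simp; omega
    · simp; omega
  · rw [← r.bev_iff, ← r.bev_iff, ← not_iff_not, w.not_bev, w.not_bev]
    have h1 := r.aev_stretch hc hh (q := q) h0 (by omega)
    have h2 := r.aev_stretch hc hh (q := q) (i := i + 1) (by omega) hi
    rw [← add_assoc] at h2
    exact iff_of_true h1 h2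

end Reg

/-! ### Existence -/

section ex

variable (Et h ρ nb kq : ℤ) (ty : Bool)

/-- The number of periods before the event `n`: `n nb / Et`, rounded to multiples of `kq` inside a period. -/
def ff (n : ℤ) : ℤ := n / Et * nb + kq * (n % Et * nb / Et / kq)

/-- Events. -/
def ee (n : ℤ) : ℤ := 8 * ff Et nb kq n + 3 * n + if bt Et h ρ ty n then -2 else 2

/-- Displacement inside a period. -/
def ar (r : ℤ) : ℤ :=
  if ty then (if r < h then -r else if r < 2 * h then r - 2 * h else if r < 3 * h + ρ then 2 * h - r else r - (4 * h + 2 * ρ))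
  else (if r < 2 * h + ρ then -r else r - (4 * h + 2 * ρ))

/-- Displacement. -/
def aa (n : ℤ) : ℤ := n / Et * (Et - (4 * h + 2 * ρ)) + ar h ρ ty (n % Et)

variable {Et h ρ nb kq : ℤ} {ty : Bool}

theorem bt_per (n : ℤ) : bt Et h ρ ty (n + Et) ↔ bt Et h ρ ty n := by
  unfold bt
  have h2 : (n + Et) % Et = n % Et := by simp
  rw [h2]

theorem ff_per (hE : 0 < Et) (n : ℤ) : ff Et nb kq (n + Et) = ff Et nb kq n + nb := by
  unfold ff
  have h1 : (n + Et) / Et = n / Et + 1 := by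
    rw [Int.add_ediv_of_dvd_right (dvd_refl Et), Int.ediv_self (ne_of_gt hE)]
  have h2 : (n + Et) % Et = n % Et := by simp
  rw [h1, h2]
  ring

theorem ff_bd (hE : 0 < Et) (hk : 0 < kq) (n : ℤ) :
    n * nb - kq * Et ≤ Et * ff Et nb kq n ∧ Et * ff Et nb kq n ≤ n * nb := by
  unfold ff
  have e1 := Int.emod_add_mul_ediv n Et
  set r := n % Et
  set q := n / Et
  have h2 : r * nb / Et * Et ≤ r * nb := Int.ediv_mul_le _ (ne_of_gt hE)
  have h3 : r * nb < (r * nb / Et + 1) * Et := Int.lt_ediv_add_one_mul_self _ hE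
  have h4 : r * nb / Et / kq * kq ≤ r * nb / Et := Int.ediv_mul_le _ (ne_of_gt hk)
  have h5 : r * nb / Et < (r * nb / Et / kq + 1) * kq := Int.lt_ediv_add_one_mul_self _ hk
  set b := r * nb / Et
  set d := b / kq
  have h6 : Et * (d * kq) ≤ Et * b := mul_le_mul_of_nonneg_left h4 hE.le
  have h7 : Et * (b + 1) ≤ Et * ((d + 1) * kq) := mul_le_mul_of_nonneg_left (by omega) hE.le
  have e2 : n * nb = r * nb + Et * (q * nb) := by rw [← e1]; ring
  constructor
  · rw [e2]; nlinarith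
  · rw [e2]; nlinarith

theorem ff_run (n : ℤ) (h : (n + 1) / Et = n / Et) : (ff Et nb kq (n + 1) - ff Et nb kq n) % kq = 0 := by
  unfold ff
  rw [h]
  have e : n / Et * nb + kq * ((n + 1) % Et * nb / Et / kq) - (n / Et * nb + kq * (n % Et * nb / Et / kq)) =
      kq * ((n + 1) % Et * nb / Et / kq - n % Et * nb / Et / kq) := by ring
  rw [e]
  exact Int.mul_emod_right _ _

theorem ee_per (hE : 0 < Et) (n : ℤ) : ee Et h ρ nb kq ty (n + Et) = ee Et h ρ nb kq ty n + (8 * nb + 3 * Et) := by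
  unfold ee
  rw [ff_per hE, if_congr (bt_per n) rfl rfl]
  ring

theorem aa_per (hE : 0 < Et) (n : ℤ) : aa Et h ρ ty (n + Et) = aa Et h ρ ty n + (Et - (4 * h + 2 * ρ)) := by
  unfold aa
  have h1 : (n + Et) / Et = n / Et + 1 := by
    rw [Int.add_ediv_of_dvd_right (dvd_refl Et), Int.ediv_self (ne_of_gt hE)]
  have h2 : (n + Et) % Et = n % Et := by simp
  rw [h1, h2]
  ring

theorem ee_gap (hE : 0 < Et) (hk : 0 < kq) {g : ℤ} (hnb : Et * (g + kq) ≤ nb) (n : ℤ) :
    ee Et h ρ nb kq ty n + (8 * g - 1) ≤ ee Et h ρ nb kq ty (n + 1) := by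
  unfold ee
  have h1 : ff Et nb kq n + g ≤ ff Et nb kq (n + 1) := by
    have h2 := (ff_bd (nb := nb) hE hk n).2
    have h3 := (ff_bd (nb := nb) hE hk (n + 1)).1
    have h4 : Et * (ff Et nb kq n + g) ≤ Et * ff Et nb kq (n + 1) := by nlinarith
    exact le_of_mul_le_mul_left h4 hE
  split_ifs <;> linarith

theorem ee_bd (hE : 0 < Et) (hk : 0 < kq) (n : ℤ) :
    n * (8 * nb + 3 * Et) - (8 * kq + 2) * Et ≤ Et * ee Et h ρ nb kq ty n ∧
      Et * ee Et h ρ nb kq ty n ≤ n * (8 * nb + 3 * Et) + 2 * Et := by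
  unfold ee
  have h := ff_bd (nb := nb) hE hk n
  constructor
  · split_ifs <;> nlinarith [h.1]
  · split_ifs <;> nlinarith [h.2]

theorem aa_succ (hh : 1 ≤ h) (hρ : 0 ≤ ρ) (hE : 4 * h + 2 * ρ ≤ Et) (n : ℤ) :
    aa Et h ρ ty (n + 1) = aa Et h ρ ty n + if bt Et h ρ ty n then -1 else 1 := by
  have hE0 : 0 < Et := by omega
  unfold aa
  have h0 := Int.emod_nonneg n (ne_of_gt hE0)
  have h1 := Int.emod_lt_of_pos n hE0
  rcases lt_or_eq_of_le (show n % Et + 1 ≤ Et by omega) with hlt | hlt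
  · have h2 : (n + 1) % Et = n % Et + 1 := by
      rw [Int.add_emod, Int.emod_eq_of_lt (a := 1) (by norm_num) (by omega)]
      exact Int.emod_eq_of_lt (by omega) hlt
    have h3 : (n + 1) / Et = n / Et := by
      have e1 := Int.emod_add_mul_ediv n Et
      have e2 := Int.emod_add_mul_ediv (n + 1) Et
      rw [h2] at e2
      have : Et * ((n + 1) / Et) = Et * (n / Et) := by linarith
      exact mul_left_cancel₀ (ne_of_gt hE0) this
    rw [h2, h3, add_assoc]
    congr 1
    unfold ar bt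
    cases ty
    · simp only [Bool.false_eq_true, if_false]
      split_ifs <;> omega
    · simp only [if_true]
      split_ifs <;> omega
  · have h2 : (n + 1) % Et = 0 := by
      have e1 := Int.emod_add_mul_ediv n Et
      have : n + 1 = Et * (n / Et + 1) := by linarith
      rw [this]
      exact Int.mul_emod_right _ _
    have h3 : (n + 1) / Et = n / Et + 1 := by
      have e1 := Int.emod_add_mul_ediv n Et
      have : n + 1 = Et * (n / Et + 1) := by linarith
      rw [this]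
      exact Int.mul_ediv_cancel_left _ (ne_of_gt hE0)
    rw [h2, h3, add_mul, one_mul, add_assoc, add_assoc]
    congr 1
    unfold ar bt
    cases ty
    · simp only [Bool.false_eq_true, if_false]
      split_ifs <;> omega
    · simp only [if_true]
      split_ifs <;> omega

theorem ar_bd (hh : 1 ≤ h) (hρ : 0 ≤ ρ) (hE : 4 * h + 2 * ρ ≤ Et) {r : ℤ} (h0 : 0 ≤ r) (h1 : r < Et) :
    (Et - (4 * h + 2 * ρ)) * r - (4 * h + 2 * ρ) * Et ≤ Et * ar h ρ ty r ∧
      Et * ar h ρ ty r ≤ (Et - (4 * h + 2 * ρ)) * r := by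
  have k1 : 0 ≤ Et * r := mul_nonneg (by omega) h0
  have k2 : 0 ≤ (4 * h + 2 * ρ) * r := mul_nonneg (by omega) h0
  have k3 : (4 * h + 2 * ρ) * r ≤ (4 * h + 2 * ρ) * Et := mul_le_mul_of_nonneg_left h1.le (by omega)
  have k8 : 0 ≤ (Et - (4 * h + 2 * ρ)) * r := mul_nonneg (by omega) h0
  unfold ar
  cases ty
  · simp only [Bool.false_eq_true, if_false]
    split_ifs with h2
    · have k4 : Et * r ≤ Et * (2 * h + ρ) := mul_le_mul_of_nonneg_left h2.le (by omega)
      constructor <;> linarith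
    · constructor <;> linarith
  · simp only [if_true]
    split_ifs with h2 h3 h4
    · have k4 : Et * r ≤ Et * h := mul_le_mul_of_nonneg_left h2.le (by omega)
      have k5 : 0 ≤ Et * h := mul_nonneg (by omega) (by omega)
      have k6 : 0 ≤ Et * ρ := mul_nonneg (by omega) (by omega)
      constructor <;> linarith
    · have k4 : Et * r ≤ Et * (2 * h) := mul_le_mul_of_nonneg_left h3.le (by omega)
      have k6 : 0 ≤ Et * ρ := mul_nonneg (by omega) (by omega)
      have k7 : (4 * h + 2 * ρ) * r ≤ Et * r := mul_le_mul_of_nonneg_right hE h0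
      constructor <;> linarith
    · have k4 : Et * (2 * h) ≤ Et * r := mul_le_mul_of_nonneg_left (by omega) (by omega)
      have k5 : Et * r ≤ Et * (3 * h + ρ) := mul_le_mul_of_nonneg_left h4.le (by omega)
      have k6 : 0 ≤ Et * ρ := mul_nonneg (by omega) (by omega)
      constructor <;> linarith
    · constructor <;> linarith

theorem aa_bd (hh : 1 ≤ h) (hρ : 0 ≤ ρ) (hE : 4 * h + 2 * ρ ≤ Et) (n : ℤ) :
    (Et - (4 * h + 2 * ρ)) * n - (4 * h + 2 * ρ) * Et ≤ Et * aa Et h ρ ty n ∧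
      Et * aa Et h ρ ty n ≤ (Et - (4 * h + 2 * ρ)) * n := by
  have hE0 : 0 < Et := by omega
  unfold aa
  have h0 := Int.emod_nonneg n (ne_of_gt hE0)
  have h1 := Int.emod_lt_of_pos n hE0
  have e1 := Int.emod_add_mul_ediv n Et
  obtain ⟨k1, k2⟩ := ar_bd (ty := ty) hh hρ hE h0 h1
  set r := n % Et
  set q := n / Et
  have e2 : (Et - (4 * h + 2 * ρ)) * n = (Et - (4 * h + 2 * ρ)) * r + Et * (q * (Et - (4 * h + 2 * ρ))) := by
    rw [← e1]; ring
  rw [e2, mul_add]
  constructor <;> linarith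

theorem ar_par (r : ℤ) : (ar h ρ ty r - r) % 2 = 0 := by
  unfold ar
  cases ty
  · simp only [Bool.false_eq_true, if_false]
    split_ifs <;> omega
  · simp only [if_true]
    split_ifs <;> omega

theorem aa_par (n : ℤ) : (aa Et h ρ ty n - n) % 2 = 0 := by
  unfold aa
  have e1 := Int.emod_add_mul_ediv n Et
  have e2 := ar_par (h := h) (ρ := ρ) (ty := ty) (n % Et)
  set r := n % Et
  set q := n / Et
  have e3 : q * (Et - (4 * h + 2 * ρ)) = Et * q - 2 * (q * (2 * h + ρ)) := by ring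
  rw [e3]
  omega

/-- The number of `b`-events. -/
theorem exists_rho {l0 c0 : ℤ} (hp : (l0 - c0) % 2 = 0) (h : ℤ) :
    ∃ ρ : ℤ, 0 ≤ ρ ∧ ρ ≤ 3 ∧ (l0 - 3 * (c0 + 4 * h + 2 * ρ)) % 8 = 0 := by
  have h : (l0 - 3 * c0 - 12 * h) % 8 = 0 ∨ (l0 - 3 * c0 - 12 * h) % 8 = 2 ∨ (l0 - 3 * c0 - 12 * h) % 8 = 4 ∨
    (l0 - 3 * c0 - 12 * h) % 8 = 6 := by omega
  rcases h with h | h | h | h
  · exact ⟨0, by omega, by omega, by omega⟩
  · exact ⟨3, by omega, by omega, by omega⟩
  · exact ⟨2, by omega, by omega, by omega⟩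
  · exact ⟨1, by omega, by omega, by omega⟩

/-- THE WORD exists, for both types. -/
theorem exists_word {l0 c0 G kq h : ℤ} (hc : 0 ≤ c0) (hp : (l0 - c0) % 2 = 0) (hG : 1 ≤ G) (hk : 1 ≤ kq) (hh : 2 ≤ h)
    (hl0' : (c0 + 4 * h + 6) * (G + 8 * kq + 40) ≤ l0) :
    ∃ ρ : ℤ, 0 ≤ ρ ∧ ρ ≤ 3 ∧ ∀ ty : Bool, ∃ w : Word l0 c0 G (4 * h + 8 * kq + 20), Reg w kq h ρ ty := by
  obtain ⟨ρ, hb1, hb2, hb3⟩ := exists_rho hp h
  refine ⟨ρ, hb1, hb2, fun ty => ?_⟩
  obtain ⟨nb, hnb⟩ : ∃ nb, l0 - 3 * (c0 + 4 * h + 2 * ρ) = 8 * nb := Int.dvd_of_emod_eq_zero hb3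
  set Et := c0 + 4 * h + 2 * ρ with hEt
  have hE : 0 < Et := by omega
  have hk0 : 0 < kq := by omega
  have hEle : Et ≤ c0 + 4 * h + 6 := by omega
  have hl0 : l0 = 8 * nb + 3 * Et := by linarith
  have hprod : Et * (G + 8 * kq + 40) ≤ l0 := (mul_le_mul_of_nonneg_right hEle (by linarith)).trans hl0'
  have hEEt : Et * 1 ≤ Et * G := mul_le_mul_of_nonneg_left hG hE.le
  have hEk : 0 ≤ Et * kq := mul_nonneg hE.le hk0.le
  obtain ⟨g, hg1, hg2⟩ : ∃ g : ℤ, G + 1 ≤ 8 * g ∧ 8 * g ≤ G + 8 := ⟨(G + 8) / 8, by omega, by omega⟩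
  have hEg : Et * (8 * g) ≤ Et * (G + 8) := mul_le_mul_of_nonneg_left hg2 hE.le
  have hnbg : Et * (g + kq) ≤ nb := by nlinarith
  obtain ⟨ev, hev⟩ : ∃ ev, ev = ee Et h ρ nb kq ty := ⟨_, rfl⟩
  have hgap : ∀ n, ev n + G ≤ ev (n + 1) := fun n => by
    have := ee_gap hE hk0 (h := h) (ρ := ρ) (ty := ty) hnbg n
    rw [hev]
    linarith
  have hmono : StrictMono ev := strictMono_int_of_lt_succ fun n => by
    have := hgap n
    linarith
  have hper : ∀ n, ev (n + Et) = ev n + l0 := fun n => by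
    rw [hev, ee_per hE, ← hl0]
  have hcnt : ∀ s, ∃ n, ev (n - 1) < s ∧ s ≤ ev n := by
    intro s
    have hup : ∀ k : ℕ, ev 0 + k ≤ ev k := by
      intro k
      induction k with
      | zero => simp
      | succ k ih => have := hgap k; push_cast; linarith
    have hdn : ∀ k : ℕ, ev (-k) ≤ ev 0 - k := by
      intro k
      induction k with
      | zero => simp
      | succ k ih =>
        have := hgap (-(k : ℤ) - 1)
        rw [sub_add_cancel] at this
        have e : -((k + 1 : ℕ) : ℤ) = -(k : ℤ) - 1 := by push_cast; ring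
        rw [e]
        push_cast
        linarith
    obtain ⟨n, hn, hn'⟩ := Int.exists_least_of_bdd (P := fun n => s ≤ ev n)
      ⟨-((ev 0 - s + 1).toNat : ℤ), fun z hz => by
        by_contra hcon
        push Not at hcon
        have h1 := hmono hcon
        have h2 := hdn (ev 0 - s + 1).toNat
        have h3 : ev 0 - s + 1 ≤ ((ev 0 - s + 1).toNat : ℤ) := Int.self_le_toNat _
        linarith⟩
      ⟨((s - ev 0).toNat : ℤ), by
        have h2 := hup (s - ev 0).toNat
        have h3 : s - ev 0 ≤ ((s - ev 0).toNat : ℤ) := Int.self_le_toNat _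
        show s ≤ _
        linarith⟩
    refine ⟨n, ?_, hn⟩
    by_contra hcon
    push Not at hcon
    have := hn' (n - 1) hcon
    linarith
  choose N hN1 hN2 using hcnt
  have hNiff : ∀ s n, N s = n ↔ ev (n - 1) < s ∧ s ≤ ev n := by
    intro s n
    constructor
    · rintro rfl
      exact ⟨hN1 s, hN2 s⟩
    · rintro ⟨h1, h2⟩
      have a1 : ev (N s - 1) < ev n := lt_of_lt_of_le (hN1 s) h2
      have a2 : ev (n - 1) < ev (N s) := lt_of_lt_of_le h1 (hN2 s)
      have b1 := hmono.lt_iff_lt.1 a1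
      have b2 := hmono.lt_iff_lt.1 a2
      omega
  have hNb : ∀ s, Et * s - 2 * Et ≤ N s * l0 ∧ N s * l0 ≤ Et * s + l0 + (8 * kq + 1) * Et := by
    intro s
    have h1 := (ee_bd hE hk0 (h := h) (ρ := ρ) (ty := ty) (nb := nb) (N s)).2
    have h2 := (ee_bd hE hk0 (h := h) (ρ := ρ) (ty := ty) (nb := nb) (N s - 1)).1
    rw [← hl0, ← hev] at h1 h2
    have h3 := mul_le_mul_of_nonneg_left (hN2 s) hE.le
    have h4 : Et * (ev (N s - 1) + 1) ≤ Et * s := mul_le_mul_of_nonneg_left (hN1 s) hE.le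
    constructor
    · linarith
    · nlinarith
  have hNs : ∀ s, (N (s + 1) = N s ∧ s < ev (N s)) ∨ (N (s + 1) = N s + 1 ∧ s = ev (N s)) := by
    intro s
    rcases lt_or_eq_of_le (hN2 s) with h1 | h1
    · left
      refine ⟨(hNiff _ _).2 ⟨?_, by omega⟩, h1⟩
      have := hN1 s
      omega
    · right
      refine ⟨(hNiff _ _).2 ⟨?_, ?_⟩, h1⟩
      · rw [add_sub_cancel_right, ← h1]; omega
      · have := hgap (N s)
        omega
  have hph : ∀ n, (bt Et h ρ ty n ∧ (ev n - 3 * n) % 8 = 6) ∨ (¬ bt Et h ρ ty n ∧ (ev n - 3 * n) % 8 = 2) := by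
    intro n
    rw [hev]
    unfold ee
    by_cases h1 : bt Et h ρ ty n
    · left
      refine ⟨h1, ?_⟩
      rw [if_pos h1]
      omega
    · right
      refine ⟨h1, ?_⟩
      rw [if_neg h1]
      omega
  have hc2 : Et - (4 * h + 2 * ρ) = c0 := by omega
  have hEh : 4 * h + 2 * ρ ≤ Et := by omega
  have hl : 0 < l0 := by nlinarith
  refine ⟨⟨N, fun s => col (s - 3 * N s) + aa Et h ρ ty (N s), ev, Et, hNiff, hgap, ?_, ?_, ?_, by omega, hper, ?_, ?_, ?_,
    ?_⟩, rfl, hb1, hb2, ?_, ?_⟩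
  · intro n
    rcases hph n with h1 | h1
    · exact Or.inr h1.2
    · exact Or.inl h1.2
  · intro s
    show col (s + 1 - 3 * N (s + 1)) + aa Et h ρ ty (N (s + 1)) = col (s - 3 * N s) + aa Et h ρ ty (N s) + _
    rcases hNs s with ⟨h1, _⟩ | ⟨h1, h2⟩
    · rw [h1]
      have := col_succ (s - 3 * N s)
      have e : s + 1 - 3 * N s = s - 3 * N s + 1 := by ring
      rw [e, this]
      ring
    · rw [h1, aa_succ (by omega) hb1 hEh]
      have e : s + 1 - 3 * (N s + 1) = s - 3 * N s + 1 - 3 := by ring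
      rw [e]
      rcases hph (N s) with h3 | h3
      · have h4 : (s - 3 * N s) % 8 = 6 := by rw [← h2] at h3; exact h3.2
        have := col_ev_b h4
        rw [if_pos h3.1]
        linarith
      · have h4 : (s - 3 * N s) % 8 = 2 := by rw [← h2] at h3; exact h3.2
        have := col_ev_a h4
        rw [if_neg h3.1]
        linarith
  · intro s
    have h1 := col_par (s - 3 * N s)
    have h2 := aa_par (Et := Et) (h := h) (ρ := ρ) (ty := ty) (N s)
    show (col (s - 3 * N s) + aa Et h ρ ty (N s) - s) % 2 = 0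
    omega
  · omega
  · intro s
    show col (s + l0 - 3 * N (s + l0)) + aa Et h ρ ty (N (s + l0)) = col (s - 3 * N s) + aa Et h ρ ty (N s) + c0
    have h1 : N (s + l0) = N s + Et := by
      rw [hNiff]
      constructor
      · have h1 := hper (N s - 1)
        have e1 : N s + Et - 1 = N s - 1 + Et := by ring
        rw [e1, h1]
        have := hN1 s
        omega
      · rw [hper]
        have := hN2 s
        omega
    rw [h1, aa_per hE, hc2]
    have e : col (s + l0 - 3 * (N s + Et)) = col (s - 3 * N s) := col_congr (by omega)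
    rw [e]
    ring
  · intro s
    show -((4 * h + 8 * kq + 20) * l0) ≤ l0 * (col (s - 3 * N s) + aa Et h ρ ty (N s)) - c0 * s ∧
      l0 * (col (s - 3 * N s) + aa Et h ρ ty (N s)) - c0 * s ≤ (4 * h + 8 * kq + 20) * l0
    have h1 := col_nonneg (s - 3 * N s)
    have h2 := col_le (s - 3 * N s)
    obtain ⟨h3, h4⟩ := aa_bd (ty := ty) (by omega : 1 ≤ h) hb1 hEh (N s)
    rw [hc2] at h3 h4
    obtain ⟨h5, h6⟩ := hNb s
    have hc0E : c0 ≤ Et := by omega
    -- multiply by Et
    have k1 : l0 * (c0 * N s - (4 * h + 2 * ρ) * Et) ≤ l0 * (Et * aa Et h ρ ty (N s)) :=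
      mul_le_mul_of_nonneg_left h3 hl.le
    have k2 : l0 * (Et * aa Et h ρ ty (N s)) ≤ l0 * (c0 * N s) := mul_le_mul_of_nonneg_left h4 hl.le
    have k3 : c0 * (Et * s - 2 * Et) ≤ c0 * (N s * l0) := mul_le_mul_of_nonneg_left h5 hc
    have k4 : c0 * (N s * l0) ≤ c0 * (Et * s + l0 + (8 * kq + 1) * Et) := mul_le_mul_of_nonneg_left h6 hc
    have k6 : c0 * l0 ≤ Et * l0 := mul_le_mul_of_nonneg_right hc0E hl.le
    have k7 : c0 * (8 * kq + 2) ≤ l0 := by
      have : c0 * (8 * kq + 2) ≤ Et * (8 * kq + 2) := mul_le_mul_of_nonneg_right hc0E (by linarith)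
      nlinarith
    have k8 : Et * (c0 * (8 * kq + 2)) ≤ Et * l0 := mul_le_mul_of_nonneg_left k7 hE.le
    have k9 : l0 * (col (s - 3 * N s)) ≤ l0 * 2 := mul_le_mul_of_nonneg_left h2 hl.le
    have k10 : 0 ≤ l0 * (col (s - 3 * N s)) := mul_nonneg hl.le h1
    have k11 : 0 ≤ kq * l0 := mul_nonneg hk0.le hl.le
    have k12 : 0 ≤ h * l0 := mul_nonneg (by omega) hl.le
    have k13 : ρ * l0 ≤ 3 * l0 := mul_le_mul_of_nonneg_right hb2 hl.le
    have k14 : 0 ≤ Et * (c0 * (8 * kq)) := mul_nonneg hE.le (mul_nonneg hc (by linarith))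
    constructor
    · have : Et * (-((4 * h + 2 * ρ + 1) * l0)) ≤ Et * (l0 * aa Et h ρ ty (N s) - c0 * s) := by
        have e1 : Et * (-((4 * h + 2 * ρ + 1) * l0)) = l0 * (-((4 * h + 2 * ρ) * Et)) - Et * l0 := by ring
        have e2 : Et * (l0 * aa Et h ρ ty (N s) - c0 * s) = l0 * (Et * aa Et h ρ ty (N s)) - c0 * (Et * s) := by ring
        have e3 : Et * (c0 * (8 * kq + 2)) = Et * (c0 * (8 * kq)) + c0 * (2 * Et) := by ring
        rw [e1, e2]
        rw [e3] at k8
        linarith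
      have := le_of_mul_le_mul_left this hE
      linarith
    · have : Et * (l0 * aa Et h ρ ty (N s) - c0 * s) ≤ Et * (2 * l0) := by
        have e2 : Et * (l0 * aa Et h ρ ty (N s) - c0 * s) = l0 * (Et * aa Et h ρ ty (N s)) - c0 * (Et * s) := by ring
        have e3 : Et * (c0 * (8 * kq + 2)) = c0 * ((8 * kq + 1) * Et) + Et * c0 := by ring
        have e4 : 0 ≤ Et * c0 := mul_nonneg hE.le hc
        rw [e2]
        rw [e3] at k8
        linarith
      have := le_of_mul_le_mul_left this hE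
      linarith
  · intro n
    obtain ⟨b1, b2⟩ := ee_bd (h := h) (ρ := ρ) (ty := ty) (nb := nb) hE hk0 n
    show n * l0 - (4 * h + 8 * kq + 20) * Et ≤ Et * ev n ∧ Et * ev n ≤ n * l0 + (4 * h + 8 * kq + 20) * Et
    rw [← hl0, ← hev] at b1 b2
    have k1 : 0 ≤ h * Et := mul_nonneg (by omega) hE.le
    have k2 : 0 ≤ kq * Et := mul_nonneg hk0.le hE.le
    constructor <;> nlinarith
  · intro n
    show (ev n - 3 * n) % 8 = if bt Et h ρ ty n then 6 else 2
    rcases hph n with h1 | h1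
    · rw [if_pos h1.1]; exact h1.2
    · rw [if_neg h1.1]; exact h1.2
  · intro n hn hiff
    show (ev (n + 1) - ev n - 3) % (8 * kq) = 0
    have hn' : n % Et + 1 < Et := hn
    have hiff' : bt Et h ρ ty n ↔ bt Et h ρ ty (n + 1) := hiff
    have h3 : (n + 1) / Et = n / Et := by
      have e1 := Int.emod_add_mul_ediv n Et
      have h0 := Int.emod_nonneg n (ne_of_gt hE)
      have : n + 1 = (n % Et + 1) + Et * (n / Et) := by linarith
      rw [this, Int.add_mul_ediv_left _ _ (ne_of_gt hE), Int.ediv_eq_zero_of_lt (by omega) hn', zero_add]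
    have h4 := ff_run (nb := nb) (kq := kq) n h3
    obtain ⟨d, hd⟩ := Int.dvd_of_emod_eq_zero h4
    rw [hev]
    unfold ee
    have e : (8 * ff Et nb kq (n + 1) + 3 * (n + 1) + if bt Et h ρ ty (n + 1) then -2 else 2) -
        (8 * ff Et nb kq n + 3 * n + if bt Et h ρ ty n then -2 else 2) - 3 = 8 * kq * d := by
      rw [if_congr hiff'.symm rfl rfl]
      linear_combination 8 * hd
    rw [e]
    exact Int.mul_emod_right _ _

end ex

end Pool.Agent.Lib.MP_688fd0_co.SQ5.H76
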