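import Pool.Agent.Lib.MP_688fd0_co.SQ5.H76.Geo
import Pool.Agent.Lib.MP_688fd0_co.SQ5.H95.OfHF

/-!
MP_688fd0_co, type C2, case B3 (helper76): the matching of the plane pulled back to the group.

`Cov B l L`: a site `st x` of the plane for every element `x` of the group, modulo the lattice `L`. `c.Over x v`: `x` lies over the
site `v`. `g.mt`: the matching letter of a group element; `g.F`: the 2-factor. Paths of the plane lift.
-/

set_option autoImplicit false

namespace Pool.Agent.Lib.MP_688fd0_co.SQ5.H76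

open Pool.Agent.Lib.MP_688fd0_co.OSF Pool.Agent.Lib.MP_688fd0_co.SQ5.H95

universe u v

/-- Equality of sites modulo the lattice. -/
def EqL (L : AddSubgroup (ℤ × ℤ)) (v w : V) : Prop := v.1 = w.1 ∧ v.2 - w.2 ∈ L

theorem EqL.refl (L : AddSubgroup (ℤ × ℤ)) (v : V) : EqL L v v := ⟨rfl, by rw [sub_self]; exact L.zero_mem⟩

theorem EqL.symm {L : AddSubgroup (ℤ × ℤ)} {v w : V} (h : EqL L v w) : EqL L w v :=
  ⟨h.1.symm, by rw [← neg_sub]; exact L.neg_mem h.2⟩

theorem EqL.trans {L : AddSubgroup (ℤ × ℤ)} {u v w : V} (h : EqL L u v) (h' : EqL L v w) : EqL L u w :=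
  ⟨h.1.trans h'.1, by
    have := L.add_mem h.2 h'.2
    rwa [sub_add_sub_cancel] at this⟩

theorem EqL.nb {L : AddSubgroup (ℤ × ℤ)} {v w : V} (h : EqL L v w) (i : L3) : EqL L (nb v i) (nb w i) := by
  obtain ⟨b, i1, j1⟩ := v
  obtain ⟨b', i2, j2⟩ := w
  obtain ⟨h1, h2⟩ := h
  simp only at h1
  subst h1
  have e : ((b, i1, j1) : V).2 - ((b, i2, j2) : V).2 = (i1 - i2, j1 - j2) := rfl
  rw [e] at h2
  cases b <;> cases i <;> refine ⟨rfl, ?_⟩
  · show ((i1 - 1) - (i2 - 1), j1 - j2) ∈ L
    have : (i1 - 1) - (i2 - 1) = i1 - i2 := by ring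
    rw [this]; exact h2
  · show (i1 - i2, (j1 - 1) - (j2 - 1)) ∈ L
    have : (j1 - 1) - (j2 - 1) = j1 - j2 := by ring
    rw [this]; exact h2
  · exact h2
  · show ((i1 + 1) - (i2 + 1), j1 - j2) ∈ L
    have : (i1 + 1) - (i2 + 1) = i1 - i2 := by ring
    rw [this]; exact h2
  · show (i1 - i2, (j1 + 1) - (j2 + 1)) ∈ L
    have : (j1 + 1) - (j2 + 1) = j1 - j2 := by ring
    rw [this]; exact h2
  · exact h2

variable {Q : Type u} [Group Q] {B : Lb.{u, v} Q}

/-- A covering of the quotient of the plane. -/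
structure Cov (B : Lb.{u, v} Q) (l : L3 → B.L) (L : AddSubgroup (ℤ × ℤ)) where
  st : Q → V
  hst : ∀ x i, EqL L (st (x * B.q (l i))) (nb (st x) i)

/-- The element `x` lies over the site `v`. -/
def Cov.Over {l : L3 → B.L} {L : AddSubgroup (ℤ × ℤ)} (c : Cov B l L) (x : Q) (v : V) : Prop := EqL L (c.st x) v

namespace Cov

variable {l : L3 → B.L} {L : AddSubgroup (ℤ × ℤ)} (c : Cov B l L)

theorem over_st (x : Q) : c.Over x (c.st x) := EqL.refl _ _

variable {c}

theorem Over.step {x : Q} {v : V} (h : c.Over x v) (i : L3) : c.Over (x * B.q (l i)) (nb v i) :=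
  (c.hst x i).trans (h.nb i)

theorem Over.eqL {x : Q} {v w : V} (h : c.Over x v) (h' : c.Over x w) : EqL L v w := h.symm.trans h'

theorem Over.of_eqL {x : Q} {v w : V} (h : c.Over x v) (h' : EqL L v w) : c.Over x w := EqL.trans h h'

end Cov

/-! ### Coverings from a sign and an abelian quotient -/

section ofHom

variable {T : Type*} [AddCommGroup T] (B) (l : L3 → B.L) (al be : T)

/-- The lattice of the relations. -/
def Ltc : AddSubgroup (ℤ × ℤ) where
  carrier := {x | x.1 • al + x.2 • be = 0}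
  zero_mem' := by simp
  add_mem' := by
    intro x y hx hy
    simp only [Set.mem_ofPred_eq] at hx hy ⊢
    have : (x + y).1 • al + (x + y).2 • be = (x.1 • al + x.2 • be) + (y.1 • al + y.2 • be) := by
      simp only [Prod.fst_add, Prod.snd_add]; module
    rw [this, hx, hy, add_zero]
  neg_mem' := by
    intro x hx
    simp only [Set.mem_ofPred_eq] at hx ⊢
    have : (-x).1 • al + (-x).2 • be = -(x.1 • al + x.2 • be) := by
      simp only [Prod.fst_neg, Prod.snd_neg]; module
    rw [this, hx, neg_zero]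

theorem mem_Ltc {al be : T} {i j : ℤ} : (i, j) ∈ Ltc al be ↔ i • al + j • be = 0 := Iff.rfl

/-- Sign and coordinate. -/
structure Co where
  s : Q → Bool
  k : Q → T
  hs : ∀ x i, s (x * B.q (l i)) = !s x
  ht : ∀ x, k (x * B.q (l .t)) = k x
  ha : ∀ x, k (x * B.q (l .a)) = if s x = true then k x + al else k x - al
  hb : ∀ x, k (x * B.q (l .b)) = if s x = true then k x + be else k x - be
  gen : ∀ x, ∃ i j : ℤ, k x = i • al + j • be

variable {B} {l} {al be}

theorem Co.step_eq (c : Co B l al be) {x : Q} {i : L3} {a1 b1 a2 b2 : ℤ} (hx : c.k x = a1 • al + b1 • be)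
    (hy : c.k (x * B.q (l i)) = a2 • al + b2 • be) :
    EqL (Ltc al be) (c.s (x * B.q (l i)), a2, b2) (nb (c.s x, a1, b1) i) := by
  rcases hs : c.s x with _ | _
  · cases i
    · refine ⟨by show c.s _ = _; rw [c.hs, hs]; rfl, ?_⟩
      show (a2 - (a1 - 1), b2 - b1) ∈ _
      rw [mem_Ltc]
      rw [c.ha, hs, if_neg (by simp), hx] at hy
      have : (a2 - (a1 - 1)) • al + (b2 - b1) • be = (a2 • al + b2 • be) - (a1 • al + b1 • be - al) := by module
      rw [this, ← hy, sub_self]
    · refine ⟨by show c.s _ = _; rw [c.hs, hs]; rfl, ?_⟩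
      show (a2 - a1, b2 - (b1 - 1)) ∈ _
      rw [mem_Ltc]
      rw [c.hb, hs, if_neg (by simp), hx] at hy
      have : (a2 - a1) • al + (b2 - (b1 - 1)) • be = (a2 • al + b2 • be) - (a1 • al + b1 • be - be) := by module
      rw [this, ← hy, sub_self]
    · refine ⟨by show c.s _ = _; rw [c.hs, hs]; rfl, ?_⟩
      show (a2 - a1, b2 - b1) ∈ _
      rw [mem_Ltc]
      rw [c.ht, hx] at hy
      have : (a2 - a1) • al + (b2 - b1) • be = (a2 • al + b2 • be) - (a1 • al + b1 • be) := by module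
      rw [this, ← hy, sub_self]
  · cases i
    · refine ⟨by show c.s _ = _; rw [c.hs, hs]; rfl, ?_⟩
      show (a2 - (a1 + 1), b2 - b1) ∈ _
      rw [mem_Ltc]
      rw [c.ha, hs, if_pos rfl, hx] at hy
      have : (a2 - (a1 + 1)) • al + (b2 - b1) • be = (a2 • al + b2 • be) - (a1 • al + b1 • be + al) := by module
      rw [this, ← hy, sub_self]
    · refine ⟨by show c.s _ = _; rw [c.hs, hs]; rfl, ?_⟩
      show (a2 - a1, b2 - (b1 + 1)) ∈ _
      rw [mem_Ltc]
      rw [c.hb, hs, if_pos rfl, hx] at hy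
      have : (a2 - a1) • al + (b2 - (b1 + 1)) • be = (a2 • al + b2 • be) - (a1 • al + b1 • be + be) := by module
      rw [this, ← hy, sub_self]
    · refine ⟨by show c.s _ = _; rw [c.hs, hs]; rfl, ?_⟩
      show (a2 - a1, b2 - b1) ∈ _
      rw [mem_Ltc]
      rw [c.ht, hx] at hy
      have : (a2 - a1) • al + (b2 - b1) • be = (a2 • al + b2 • be) - (a1 • al + b1 • be) := by module
      rw [this, ← hy, sub_self]

/-- The covering. -/
noncomputable def Co.cov (c : Co B l al be) : Cov B l (Ltc al be) where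
  st x := (c.s x, (c.gen x).choose, (c.gen x).choose_spec.choose)
  hst x i := c.step_eq (c.gen x).choose_spec.choose_spec (c.gen (x * B.q (l i))).choose_spec.choose_spec

theorem Co.over_iff (c : Co B l al be) (x : Q) (v : V) :
    c.cov.Over x v ↔ c.s x = v.1 ∧ c.k x = v.2.1 • al + v.2.2 • be := by
  have hx := (c.gen x).choose_spec.choose_spec
  constructor
  · rintro ⟨h1, h2⟩
    refine ⟨h1, ?_⟩
    have h3 : ((c.gen x).choose - v.2.1) • al + ((c.gen x).choose_spec.choose - v.2.2) • be = 0 := h2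
    rw [hx, ← sub_eq_zero, ← h3]
    module
  · rintro ⟨h1, h2⟩
    refine ⟨h1, ?_⟩
    show ((c.gen x).choose - v.2.1) • al + ((c.gen x).choose_spec.choose - v.2.2) • be = 0
    rw [hx, ← sub_eq_zero] at h2
    rw [← h2]
    module

end ofHom

/-! ### Invariance of the matching -/

namespace Pat

/-- A translation of the pattern. -/
structure Inv (p : Pat) (di dj dK : ℤ) : Prop where
  C : ∀ K s, p.C (K + dK) (s + (di + dj)) = p.C K s + (di - dj)
  W : ∀ K s, p.W (K + dK) (s + (di + dj)) = p.W K s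

theorem Inv.Mt {p : Pat} {di dj dK : ℤ} (h : p.Inv di dj dK) (b : Bool) (i j : ℤ) :
    p.Mt (b, i + di, j + dj) = p.Mt (b, i, j) := by
  have e1 : i + di + (j + dj) = i + j + (di + dj) := by ring
  have e2 : i + di - (j + dj) = i - j + (di - dj) := by ring
  have e3 : i + j + (di + dj) - 1 = i + j - 1 + (di + dj) := by ring
  by_cases hex : ∃ K, p.C K (i + j) = i - j
  · obtain ⟨K, hK⟩ := hex
    have hK' : p.C (K + dK) (i + di + (j + dj)) = i + di - (j + dj) := by rw [e1, e2, h.C, hK]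
    cases b
    · rw [p.Mt_wm hK, p.Mt_wm hK', e1, e3, h.W]
    · rw [p.Mt_wp hK, p.Mt_wp hK', e1, h.W]
  · rw [p.Mt_off b fun K hK => hex ⟨K, hK⟩, p.Mt_off b]
    intro K hK
    apply hex
    refine ⟨K - dK, ?_⟩
    have := h.C (K - dK) (i + j)
    rw [sub_add_cancel] at this
    rw [e1, e2, this] at hK
    linarith

theorem Inv.zero (p : Pat) : p.Inv 0 0 0 := ⟨fun K s => by simp, fun K s => by simp⟩

theorem Inv.add {p : Pat} {di dj dK di' dj' dK' : ℤ} (h : p.Inv di dj dK) (h' : p.Inv di' dj' dK') :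
    p.Inv (di + di') (dj + dj') (dK + dK') := by
  constructor
  · intro K s
    have h1 := h.C K s
    have h2 := h'.C (K + dK) (s + (di + dj))
    have e1 : K + (dK + dK') = K + dK + dK' := by ring
    have e2 : s + (di + di' + (dj + dj')) = s + (di + dj) + (di' + dj') := by ring
    rw [e1, e2, h2, h1]
    ring
  · intro K s
    have h1 := h.W K s
    have h2 := h'.W (K + dK) (s + (di + dj))
    have e1 : K + (dK + dK') = K + dK + dK' := by ring
    have e2 : s + (di + di' + (dj + dj')) = s + (di + dj) + (di' + dj') := by ring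
    rw [e1, e2, h2, h1]

theorem Inv.neg {p : Pat} {di dj dK : ℤ} (h : p.Inv di dj dK) : p.Inv (-di) (-dj) (-dK) := by
  constructor
  · intro K s
    have h1 := h.C (K + -dK) (s + (-di + -dj))
    have e1 : K + -dK + dK = K := by ring
    have e2 : s + (-di + -dj) + (di + dj) = s := by ring
    rw [e1, e2] at h1
    linarith
  · intro K s
    have h1 := h.W (K + -dK) (s + (-di + -dj))
    have e1 : K + -dK + dK = K := by ring
    have e2 : s + (-di + -dj) + (di + dj) = s := by ring
    rw [e1, e2] at h1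
    exact h1.symm

theorem Inv.natMul {p : Pat} {di dj dK : ℤ} (h : p.Inv di dj dK) (n : ℕ) : p.Inv (n * di) (n * dj) (n * dK) := by
  induction n with
  | zero => simpa using Inv.zero p
  | succ n ih =>
    have := ih.add h
    have e1 : (n : ℤ) * di + di = ((n + 1 : ℕ) : ℤ) * di := by push_cast; ring
    have e2 : (n : ℤ) * dj + dj = ((n + 1 : ℕ) : ℤ) * dj := by push_cast; ring
    have e3 : (n : ℤ) * dK + dK = ((n + 1 : ℕ) : ℤ) * dK := by push_cast; ring
    rw [e1, e2, e3] at this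
    exact this

theorem Inv.mul {p : Pat} {di dj dK : ℤ} (h : p.Inv di dj dK) (n : ℤ) : p.Inv (n * di) (n * dj) (n * dK) := by
  obtain ⟨m, rfl | rfl⟩ := n.eq_nat_or_neg
  · exact h.natMul m
  · have := (h.natMul m).neg
    simpa using this

end Pat

namespace Geo

variable {L : AddSubgroup (ℤ × ℤ)} {M R : ℕ} {dc : ℕ → ℤ} {spc : ℕ → Prop} {G : ℤ} (g : Geo L M R dc spc G)

theorem inv0 : g.pat.toPat.Inv g.i0 g.j0 0 := by
  constructor
  · intro K s
    rw [add_zero]
    exact g.C_w0 K s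
  · intro K s
    rw [add_zero]
    exact bw_congr (by have := g.P_w0 K s; omega)

theorem inv1 : g.pat.toPat.Inv g.i1 g.j1 R := by
  constructor
  · intro K s
    exact g.C_w1 K s
  · intro K s
    show bw (g.P (K + R) (s + (g.i1 + g.j1))) = bw (g.P K s)
    rw [g.P_w1]

/-- Two sites with the same coordinate have the same matching letter. -/
theorem Mt_eq {v w : V} (h : EqL L v w) : g.pat.toPat.Mt v = g.pat.toPat.Mt w := by
  obtain ⟨b, i, j⟩ := v
  obtain ⟨b', i', j'⟩ := w
  obtain ⟨h1, h2⟩ := h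
  simp only at h1
  subst h1
  obtain ⟨x, y, hx, hy⟩ := g.ker (i - i') (j - j') h2
  have h1 := ((g.inv0.mul x).add (g.inv1.mul y)).Mt b i' j'
  have e1 : i' + (x * g.i0 + y * g.i1) = i := by linarith
  have e2 : j' + (x * g.j0 + y * g.j1) = j := by linarith
  rw [e1, e2] at h1
  exact h1

section pull

variable {l : L3 → B.L} (c : Cov B l L)

/-- The matching letter of the element `x`. -/
noncomputable def mt (x : Q) : L3 := g.pat.toPat.Mt (c.st x)

theorem mt_over {x : Q} {v : V} (h : c.Over x v) : g.mt c x = g.pat.toPat.Mt v := g.Mt_eq h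

theorem mt_step (x : Q) : g.mt c (x * B.q (l (g.mt c x))) = g.mt c x := by
  have h := c.over_st x
  rw [g.mt_over c (h.step _)]
  exact (g.pat.toPat.Mt_nb _ _).2 rfl

/-- THE 2-FACTOR of the base. -/
noncomputable def F (hl : Function.Injective l) (hi : ∀ i, B.inv (l i) = l i) (hii : ∀ x, B.inv (B.inv x) = x) : HF B :=
  HF.ofM l hl hi hii L3.a L3.b L3.t (by decide) (by decide) (by decide) (fun i => by cases i <;> simp) (g.mt c)
    (g.mt_step c)

variable (hl : Function.Injective l) (hi : ∀ i, B.inv (l i) = l i) (hii : ∀ x, B.inv (B.inv x) = x)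

theorem mem_F {x : Q} {v : V} (h : c.Over x v) (i : L3) : l i ∈ (g.F c hl hi hii).H x ↔ g.pat.toPat.Mt v ≠ i := by
  show (∃ i', i' ≠ g.mt c x ∧ l i = l i') ↔ _
  rw [g.mt_over c h]
  constructor
  · rintro ⟨i', h1, h2⟩
    rw [hl h2]
    exact h1.symm
  · intro h1
    exact ⟨i, h1.symm, rfl⟩

/-- Edges of the plane lift. -/
theorem E_lift {v w : V} (h : g.pat.toPat.E v w) {x : Q} (hx : c.Over x v) :
    ∃ y, c.Over y w ∧ (g.F c hl hi hii).Ed x y := by
  obtain ⟨i, h1, rfl⟩ := h
  exact ⟨x * B.q (l i), hx.step i, l i, (g.mem_F c hl hi hii hx i).2 h1, rfl⟩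

/-- Paths of the plane lift to the group. -/
theorem Cn_lift {S : V → Prop} {v w : V} (h : g.pat.toPat.Cn S v w) {x : Q} (hx : c.Over x v) (Rg : Set Q)
    (hS : ∀ y v, c.Over y v → S v → y ∈ Rg) :
    ∃ y, c.Over y w ∧ H22.Cn (g.F c hl hi hii).Ed Rg x y := by
  induction h with
  | refl => exact ⟨x, hx, Relation.ReflTransGen.refl⟩
  | tail _ hs ih =>
    obtain ⟨y, hy, hc⟩ := ih
    obtain ⟨he, h2, h3⟩ := hs
    obtain ⟨z, hz, hyz⟩ := g.E_lift c hl hi hii he hy
    exact ⟨z, hz, hc.tail ⟨hyz, hS _ _ hy h2, hS _ _ hz h3⟩⟩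

end pull

end Geo

end Pool.Agent.Lib.MP_688fd0_co.SQ5.H76
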