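import Mathlib
import Pool.Agent.Lib.MP_688fd0_co.SQ5.H76.Defs

/-!
MP_688fd0_co, type C2, case FAR-3 (helper76): the sites of the lines of an aligned strip.

`p.si K s r`: the site number `r` of the line `(K, s)` (level `s`, between the walls `K` and `K + 1`), counted from the white
wall site. `ll b r`: the letter between the sites `r` and `r + 1` (`b` = the letter of the walls). `p.Al2 K s h`: the walls `K`
and `K + 1` have the same letter at level `s` and distance `2 h`.
-/

set_option autoImplicit false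

namespace Pool.Agent.Lib.MP_688fd0_co.SQ5.H76

/-- the wall letter -/
def wl (b : Bool) : L3 := if b = true then .a else .b

/-- the other letter -/
def ow (b : Bool) : L3 := if b = true then .b else .a

/-- the letter between the sites `r` and `r + 1` of a line -/
def ll (b : Bool) (r : ℕ) : L3 := if r % 2 = 0 then ow b else wl b

theorem wl_ne_ow (b : Bool) : wl b ≠ ow b := by cases b <;> decide

theorem wl_ne_t (b : Bool) : wl b ≠ .t := by cases b <;> decide

theorem ow_ne_t (b : Bool) : ow b ≠ .t := by cases b <;> decide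

theorem ll_ne_t (b : Bool) (r : ℕ) : ll b r ≠ .t := by
  unfold ll
  split_ifs
  · exact ow_ne_t b
  · exact wl_ne_t b

namespace Pat

/-! ### Columns and levels -/

theorem lv_even {s c : ℤ} (h : (c - s) % 2 = 0) : lv s c = (true, (s + c) / 2, (s - c) / 2) := by
  unfold lv; rw [if_pos h]

theorem lv_odd {s c : ℤ} (h : (c - s) % 2 = 1) : lv s c = (false, (s + 1 + c) / 2, (s + 1 - c) / 2) := by
  unfold lv; rw [if_neg (by omega)]

theorem nb_lv_a {s c : ℤ} (h : (c - s) % 2 = 0) : nb (lv s c) .a = lv s (c + 1) := by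
  rw [lv_even h, lv_odd (by omega)]
  show (false, (s + c) / 2 + 1, (s - c) / 2) = _
  refine Prod.ext rfl (Prod.ext ?_ ?_) <;> simp only <;> omega

theorem nb_lv_b {s c : ℤ} (h : (c - s) % 2 = 0) : nb (lv s c) .b = lv s (c - 1) := by
  rw [lv_even h, lv_odd (by omega)]
  show (false, (s + c) / 2, (s - c) / 2 + 1) = _
  refine Prod.ext rfl (Prod.ext ?_ ?_) <;> simp only <;> omega

theorem nb_lv_a' {s c : ℤ} (h : (c - s) % 2 = 1) : nb (lv s c) .a = lv s (c - 1) := by
  rw [lv_odd h, lv_even (by omega)]
  show (true, (s + 1 + c) / 2 - 1, (s + 1 - c) / 2) = _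
  refine Prod.ext rfl (Prod.ext ?_ ?_) <;> simp only <;> omega

theorem nb_lv_b' {s c : ℤ} (h : (c - s) % 2 = 1) : nb (lv s c) .b = lv s (c + 1) := by
  rw [lv_odd h, lv_even (by omega)]
  show (true, (s + 1 + c) / 2, (s + 1 - c) / 2 - 1) = _
  refine Prod.ext rfl (Prod.ext ?_ ?_) <;> simp only <;> omega

theorem nb_lv_t' {s c : ℤ} (h : (c - s) % 2 = 1) : nb (lv s c) .t = lv (s + 1) c := by
  rw [lv_odd h, lv_even (by omega)]
  show (true, (s + 1 + c) / 2, (s + 1 - c) / 2) = _
  rfl

/-- A site determines its column; the level of the line is determined up to the type of the site. -/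
theorem lv_inj {s c s' c' : ℤ} (h : lv s c = lv s' c') : s = s' ∧ c = c' := by
  rcases Int.emod_two_eq_zero_or_one (c - s) with h1 | h1 <;> rcases Int.emod_two_eq_zero_or_one (c' - s') with h2 | h2
  · rw [lv_even h1, lv_even h2] at h
    have e1 := congrArg (fun v : V => v.2.1) h
    have e2 := congrArg (fun v : V => v.2.2) h
    simp only at e1 e2
    omega
  · rw [lv_even h1, lv_odd h2] at h
    exact absurd (congrArg Prod.fst h) (by simp)
  · rw [lv_odd h1, lv_even h2] at h
    exact absurd (congrArg Prod.fst h) (by simp)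
  · rw [lv_odd h1, lv_odd h2] at h
    have e1 := congrArg (fun v : V => v.2.1) h
    have e2 := congrArg (fun v : V => v.2.2) h
    simp only at e1 e2
    omega

/-- Every site is on the level of a line. -/
theorem exists_lv (v : V) : ∃ s c : ℤ, v = lv s c := by
  obtain ⟨b, i, j⟩ := v
  cases b
  · refine ⟨i + j - 1, i - j, ?_⟩
    rw [lv_odd (by omega)]
    refine Prod.ext rfl (Prod.ext ?_ ?_) <;> simp only <;> omega
  · refine ⟨i + j, i - j, ?_⟩
    rw [lv_even (by omega)]
    refine Prod.ext rfl (Prod.ext ?_ ?_) <;> simp only <;> omega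

variable (p : Pat)

/-- the column of the site `r` of the line `(K, s)` -/
def sc (K s : ℤ) (r : ℕ) : ℤ := if p.W K s = true then p.C (K + 1) s - r else p.C K s + r

/-- The site number `r` of the line `(K, s)`. -/
def si (K s : ℤ) (r : ℕ) : V := lv s (p.sc K s r)

theorem sc_par (K s : ℤ) (r : ℕ) : (p.sc K s r - s) % 2 = (r : ℤ) % 2 := by
  unfold sc
  have h1 := p.par K s
  have h2 := p.par (K + 1) s
  split_ifs <;> omega

/-- The walls `K` and `K + 1` have the same letter at level `s` and distance `2 h`. -/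
structure Al2 (K s : ℤ) (h : ℕ) : Prop where
  W : p.W (K + 1) s = p.W K s
  C : p.C (K + 1) s = p.C K s + 2 * h

variable {p}

theorem Al2.pos {K s : ℤ} {h : ℕ} (H : p.Al2 K s h) : 1 ≤ h := by
  have h1 := p.gap K s
  rw [H.C] at h1
  omega

/-- One level higher the distance is the same. -/
theorem Al2.C_succ {K s : ℤ} {h : ℕ} (H : p.Al2 K s h) : p.C (K + 1) (s + 1) = p.C K (s + 1) + 2 * h := by
  rw [p.hC, p.hC, H.W, H.C]
  ring

theorem Al2.succ {K s : ℤ} {h : ℕ} (H : p.Al2 K s h) (hW : p.W (K + 1) (s + 1) = p.W K (s + 1)) :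
    p.Al2 K (s + 1) h := ⟨hW, H.C_succ⟩

/-- Along the line. -/
theorem nb_si (p : Pat) (K s : ℤ) (r : ℕ) : nb (p.si K s r) (ll (p.W K s) r) = p.si K s (r + 1) := by
  have hp := p.sc_par K s r
  unfold si ll
  rcases Nat.mod_two_eq_zero_or_one r with h | h
  · have hp' : (p.sc K s r - s) % 2 = 0 := by omega
    rw [if_pos h]
    unfold ow
    split_ifs with hW
    · rw [nb_lv_b hp']
      congr 1
      unfold sc
      rw [if_pos hW, if_pos hW]
      push_cast
      ring
    · rw [nb_lv_a hp']
      congr 1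
      unfold sc
      rw [if_neg hW, if_neg hW]
      push_cast
      ring
  · have hp' : (p.sc K s r - s) % 2 = 1 := by omega
    rw [if_neg (by omega)]
    unfold wl
    split_ifs with hW
    · rw [nb_lv_a' hp']
      congr 1
      unfold sc
      rw [if_pos hW, if_pos hW]
      push_cast
      ring
    · rw [nb_lv_b' hp']
      congr 1
      unfold sc
      rw [if_neg hW, if_neg hW]
      push_cast
      ring

/-- The strip above the upper end of the line. -/
def nx (K : ℤ) (b b' : Bool) : ℤ := if b = true then (if b' = true then K - 1 else K) else (if b' = true then K else K + 1)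

/-- The t-edge at the upper end of the line. -/
theorem Al2.nb_end {K s : ℤ} {h : ℕ} (H : p.Al2 K s h) :
    nb (p.si K s (2 * h - 1)) .t = p.si (nx K (p.W K s) (p.W (if p.W K s = true then K else K + 1) (s + 1))) (s + 1) 0 ∨
      p.W (nx K (p.W K s) (p.W (if p.W K s = true then K else K + 1) (s + 1))) (s + 1) ≠
        p.W (if p.W K s = true then K else K + 1) (s + 1) := by
  have hp := p.sc_par K s (2 * h - 1)
  have hpos := H.pos
  have hp' : (p.sc K s (2 * h - 1) - s) % 2 = 1 := by omega
  have hC := H.C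
  have hC1 := p.hC K s
  have hC2 := p.hC (K + 1) s
  rw [H.W] at hC2
  by_cases hne : p.W (nx K (p.W K s) (p.W (if p.W K s = true then K else K + 1) (s + 1))) (s + 1) =
        p.W (if p.W K s = true then K else K + 1) (s + 1)
  · left
    unfold si
    rw [nb_lv_t' hp']
    congr 1
    unfold sc
    rw [hne]
    unfold nx
    have e1 : ((2 * h - 1 : ℕ) : ℤ) = 2 * h - 1 := by omega
    by_cases hW : p.W K s = true
    · rw [if_pos hW] at hC1 hC2
      simp only [if_pos hW, e1]
      split_ifs with hW'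
      · rw [sub_add_cancel, hC1]
        push_cast
        omega
      · rw [hC1]
        push_cast
        omega
    · rw [if_neg hW] at hC1 hC2
      simp only [if_neg hW, e1]
      split_ifs with hW'
      · rw [hC2]
        push_cast
        omega
      · rw [hC2]
        push_cast
        omega
  · right
    exact hne

/-- The t-edge at the upper end of the line, given letters. -/
theorem Al2.nb_up {K s K' : ℤ} {h : ℕ} {b b' : Bool} (H : p.Al2 K s h) (hb : p.W K s = b) (hK : K' = nx K b b')
    (hb' : p.W K' (s + 1) = b') : nb (p.si K s (2 * h - 1)) .t = p.si K' (s + 1) 0 := by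
  have hp := p.sc_par K s (2 * h - 1)
  have hpos := H.pos
  have hp' : (p.sc K s (2 * h - 1) - s) % 2 = 1 := by omega
  have hC := H.C
  have hC1 := p.hC K s
  have hC2 := p.hC (K + 1) s
  rw [H.W] at hC2
  unfold si
  rw [nb_lv_t' hp']
  congr 1
  unfold sc
  rw [hb'] at *
  rw [hb] at *
  have e1 : ((2 * h - 1 : ℕ) : ℤ) = 2 * h - 1 := by omega
  cases b <;> cases b'
  · have hK' : K' = K + 1 := hK
    rw [hK']
    simp only [Bool.false_eq_true, if_false, e1] at hC1 hC2 ⊢
    push_cast
    omega
  · have hK' : K' = K := hK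
    rw [hK']
    simp only [Bool.false_eq_true, if_false, if_true, e1] at hC1 hC2 ⊢
    push_cast
    omega
  · have hK' : K' = K := hK
    rw [hK']
    simp only [Bool.false_eq_true, if_false, if_true, e1] at hC1 hC2 ⊢
    push_cast
    omega
  · have hK' : K' = K - 1 := hK
    rw [hK']
    simp only [if_true, e1] at hC1 hC2 ⊢
    rw [sub_add_cancel]
    push_cast
    omega

/-! ### The matching on a line -/

/-- The white wall site. -/
theorem Al2.Mt_zero {K s : ℤ} {h : ℕ} (H : p.Al2 K s h) : p.Mt (p.si K s 0) = wl (p.W K s) := by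
  have hp := p.sc_par K s 0
  unfold si
  rw [lv_even (by omega)]
  set K' := if p.W K s = true then K + 1 else K with hK'
  have hc : p.sc K s 0 = p.C K' s := by
    unfold sc
    rw [hK']
    split_ifs <;> push_cast <;> ring
  have hW : p.W K' s = p.W K s := by
    rw [hK']
    split_ifs
    · exact H.W
    · rfl
  have e1 : (s + p.sc K s 0) / 2 + (s - p.sc K s 0) / 2 = s := by omega
  have e2 : (s + p.sc K s 0) / 2 - (s - p.sc K s 0) / 2 = p.sc K s 0 := by omega
  rw [p.Mt_wp (K := K') (by rw [e1, e2, hc]), e1, hW]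
  rfl

/-- The black wall site. -/
theorem Al2.Mt_end {K s : ℤ} {h : ℕ} (H : p.Al2 K s h) : p.Mt (p.si K s (2 * h - 1)) = wl (p.W K s) := by
  have hpos := H.pos
  have hp := p.sc_par K s (2 * h - 1)
  unfold si
  rw [lv_odd (by omega)]
  set K' := if p.W K s = true then K else K + 1 with hK'
  have hC := H.C
  have hW : p.W K' s = p.W K s := by
    rw [hK']
    split_ifs
    · rfl
    · exact H.W
  have hc : p.sc K s (2 * h - 1) = p.C K' (s + 1) := by
    rw [p.hC, hW]
    unfold sc
    rw [hK']
    split_ifs <;> omega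
  set c := p.sc K s (2 * h - 1)
  have e1 : (s + 1 + c) / 2 + (s + 1 - c) / 2 = s + 1 := by omega
  have e2 : (s + 1 + c) / 2 - (s + 1 - c) / 2 = c := by omega
  rw [p.Mt_wm (K := K') (by rw [e1, e2, hc]), e1, add_sub_cancel_right, hW]
  rfl

theorem C_between {K s c : ℤ} (h1 : p.C K s < c) (h2 : c < p.C (K + 1) s) (K' : ℤ) : p.C K' s ≠ c := by
  intro h
  rcases lt_trichotomy K K' with h3 | h3 | h3
  · rcases lt_or_eq_of_le (show K + 1 ≤ K' by omega) with h4 | h4
    · have := p.C_lt h4 s
      omega
    · rw [h4] at h2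
      omega
  · rw [h3] at h1
    omega
  · have := p.C_lt h3 s
    omega

/-- The inner sites. -/
theorem Al2.Mt_mid {K s : ℤ} {h r : ℕ} (H : p.Al2 K s h) (h0 : 0 < r) (h1 : r < 2 * h - 1) :
    p.Mt (p.si K s r) = .t := by
  have hp := p.sc_par K s r
  have hC := H.C
  unfold si
  rcases Nat.mod_two_eq_zero_or_one r with hr | hr
  · rw [lv_even (by omega)]
    apply p.Mt_off
    set c := p.sc K s r with hc
    have e1 : (s + c) / 2 + (s - c) / 2 = s := by omega
    have e2 : (s + c) / 2 - (s - c) / 2 = c := by omega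
    rw [e1, e2]
    refine C_between (K := K) ?_ ?_
    · rw [hc]; unfold sc; split_ifs <;> omega
    · rw [hc]; unfold sc; split_ifs <;> omega
  · rw [lv_odd (by omega)]
    apply p.Mt_off
    set c := p.sc K s r with hc
    have e1 : (s + 1 + c) / 2 + (s + 1 - c) / 2 = s + 1 := by omega
    have e2 : (s + 1 + c) / 2 - (s + 1 - c) / 2 = c := by omega
    rw [e1, e2]
    have hC1 := p.hC K s
    have hC2 := H.C_succ
    refine C_between (K := K) ?_ ?_
    · rw [hc, hC1]; unfold sc; split_ifs <;> omega
    · rw [hC2, hC1, hc]; unfold sc; split_ifs <;> omega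

/-- The letters of the line are not matched. -/
theorem Al2.Mt_ne {K s : ℤ} {h r : ℕ} (H : p.Al2 K s h) (h1 : r < 2 * h - 1) : p.Mt (p.si K s r) ≠ ll (p.W K s) r := by
  rcases Nat.eq_zero_or_pos r with h0 | h0
  · subst h0
    rw [H.Mt_zero]
    exact wl_ne_ow _
  · rw [H.Mt_mid h0 h1]
    exact (ll_ne_t _ _).symm

/-! ### The partners -/

/-- The wall partner. -/
theorem Al2.nb_wall {K s : ℤ} {h h' : ℕ} (H : p.Al2 K s h) (H' : p.Al2 (if p.W K s = true then K + 1 else K - 1) s h')
    (hW : p.W (if p.W K s = true then K + 1 else K - 1) s = p.W K s) :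
    nb (p.si K s 0) (wl (p.W K s)) = p.si (if p.W K s = true then K + 1 else K - 1) s (2 * h' - 1) := by
  have hp := p.sc_par K s 0
  have hpos := H'.pos
  have hC := H.C
  have hC' := H'.C
  unfold si wl
  split_ifs with hb
  · rw [if_pos hb] at H' hW hC'
    rw [nb_lv_a (by omega)]
    congr 1
    unfold sc
    rw [if_pos hb, hW, if_pos hb, hC']
    omega
  · rw [if_neg hb] at H' hW hC'
    rw [nb_lv_b (by omega)]
    congr 1
    rw [sub_add_cancel] at hC'
    unfold sc
    rw [if_neg hb, hW, if_neg hb, hC']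
    omega

/-- The sea partner. -/
theorem Al2.nb_sea {K s : ℤ} {h r : ℕ} (H : p.Al2 K s h) (hr : r % 2 = 1) (h1 : r < 2 * h - 1) :
    nb (p.si K s r) .t = p.si K (s + 1) (if p.W K s = p.W K (s + 1) then r + 1 else 2 * h - 1 - r) := by
  have hp := p.sc_par K s r
  have hC1 := p.hC K s
  have hC2 := H.C_succ
  have hC := H.C
  unfold si
  rw [nb_lv_t' (by omega)]
  congr 1
  unfold sc
  by_cases hW : p.W K s = true <;> by_cases hW' : p.W K (s + 1) = true
  · rw [if_pos hW, if_pos hW', if_pos (hW.trans hW'.symm), hC2, hC1, if_pos hW, hC]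
    push_cast
    ring
  · rw [if_pos hW, if_neg hW', if_neg (fun e : p.W K s = p.W K (s + 1) => hW' (e.symm.trans hW)), hC1, if_pos hW, hC]
    omega
  · rw [if_neg hW, if_pos hW', if_neg (fun e : p.W K s = p.W K (s + 1) => hW (e.trans hW')), hC2, hC1, if_neg hW]
    omega
  · have e : p.W K s = p.W K (s + 1) := by
      rw [Bool.not_eq_true] at hW hW'
      rw [hW, hW']
    rw [if_neg hW, if_neg hW', if_pos e, hC1, if_neg hW]
    push_cast
    ring

/-! ### Uniqueness -/

theorem Al2.sc_lo {K s : ℤ} {h r : ℕ} (H : p.Al2 K s h) (hr : r ≤ 2 * h - 1) :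
    p.C K s ≤ p.sc K s r ∧ p.sc K s r ≤ p.C (K + 1) s ∧ (p.W K s = true → p.C K s < p.sc K s r) ∧
      (p.W K s = false → p.sc K s r < p.C (K + 1) s) := by
  have hC := H.C
  have hpos := H.pos
  unfold sc
  by_cases hW : p.W K s = true
  · rw [if_pos hW]
    refine ⟨by omega, by omega, fun _ => by omega, fun h => ?_⟩
    rw [hW] at h
    cases h
  · rw [if_neg hW]
    exact ⟨by omega, by omega, fun h => absurd h hW, fun _ => by omega⟩

/-- A site lies on only one line. -/
theorem si_inj {K s K' s' : ℤ} {h h' r r' : ℕ} (H : p.Al2 K s h) (H' : p.Al2 K' s' h') (hr : r ≤ 2 * h - 1)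
    (hr' : r' ≤ 2 * h' - 1) (he : p.si K s r = p.si K' s' r') : K = K' ∧ s = s' ∧ r = r' := by
  obtain ⟨rfl, hc⟩ := lv_inj he
  have key : ∀ {K K' : ℤ} {h h' r r' : ℕ}, p.Al2 K s h → p.Al2 K' s h' → r ≤ 2 * h - 1 → r' ≤ 2 * h' - 1 →
      p.sc K s r = p.sc K' s r' → ¬ K < K' := by
    intro K K' h h' r r' H H' hr hr' hc hK
    obtain ⟨a1, a2, a3, a4⟩ := H.sc_lo hr
    obtain ⟨b1, b2, b3, b4⟩ := H'.sc_lo hr'
    rcases lt_or_eq_of_le (show K + 1 ≤ K' by omega) with h4 | h4
    · have := p.C_lt h4 s
      omega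
    · subst h4
      cases hW : p.W K s
      · have := a4 hW
        omega
      · have := b3 (H.W.trans hW)
        omega
  have hK : K = K' := by
    rcases lt_trichotomy K K' with h1 | h1 | h1
    · exact absurd h1 (key H H' hr hr' hc)
    · exact h1
    · exact absurd h1 (key H' H hr' hr hc.symm)
  subst hK
  refine ⟨rfl, rfl, ?_⟩
  unfold sc at hc
  split_ifs at hc <;> omega

end Pat

end Pool.Agent.Lib.MP_688fd0_co.SQ5.H76
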