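import Mathlib
import Pool.Agent.Lib.MP_688fd0_co.SQ5.H76.Line
import Pool.Agent.Lib.MP_688fd0_co.SQ5.H76.Word
import Pool.Agent.Lib.MP_688fd0_co.SQ5.H20.Close

/-!
MP_688fd0_co, type C2, case FAR-3 (helper76): a bundle of parallel walls (all walls have the same letters), its strands and
their words.

`D.I`: the pattern (all levels `s : ℤ`), `D.b s` the letter of the walls at level `s` (`true` = a), `D.hw K` half of the width of
the strip `K`. The strand `κ` has at level `s` its white wall site at the wall `κ - cs s`; it runs in the strip `D.sp κ s`.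
`D.stp q κ s`: the word of the strand at level `s`; `gz f m n` = product of `f m, .., f (m + n - 1)`, `n : ℤ`.
-/

set_option autoImplicit false

namespace Pool.Agent.Lib.MP_688fd0_co.SQ5.H76

open Pool.Agent.Lib.MP_688fd0_co.SQ5.H20 (pr pr_add)

/-! ### Products over intervals of integers -/

section gz

variable {Q : Type*} [Group Q]

/-- product of `f m, .., f (m + n - 1)`, `n : ℤ` -/
def gz (f : ℤ → Q) (m n : ℤ) : Q := if 0 ≤ n then pr f m n.toNat else (pr f (m + n) (-n).toNat)⁻¹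

theorem gz_nat (f : ℤ → Q) (m : ℤ) (n : ℕ) : gz f m n = pr f m n := by
  unfold gz
  rw [if_pos (Int.natCast_nonneg n), Int.toNat_natCast]

@[simp] theorem gz_zero (f : ℤ → Q) (m : ℤ) : gz f m 0 = 1 := by
  have := gz_nat f m 0
  rw [Nat.cast_zero] at this
  exact this

theorem gz_succ (f : ℤ → Q) (m n : ℤ) : gz f m (n + 1) = gz f m n * f (m + n) := by
  rcases lt_trichotomy (n + 1) 0 with h | h | h
  · unfold gz
    rw [if_neg (by omega), if_neg (by omega)]
    obtain ⟨k, hk⟩ : ∃ k : ℕ, (-(n + 1)).toNat = k := ⟨_, rfl⟩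
    have e1 : (-n).toNat = 1 + k := by omega
    rw [hk, e1, pr_add]
    have e2 : pr f (m + n) 1 = f (m + n) := by
      change 1 * f (m + n + ((0 : ℕ) : ℤ)) = _
      simp
    have e3 : m + n + ((1 : ℕ) : ℤ) = m + (n + 1) := by push_cast; ring
    rw [e2, e3, mul_inv_rev, inv_mul_cancel_right]
  · have hn : n = -1 := by omega
    subst hn
    rw [neg_add_cancel, gz_zero]
    unfold gz
    rw [if_neg (by omega)]
    have e1 : (-(-1 : ℤ)).toNat = 1 := rfl
    rw [e1]
    change 1 = (1 * f (m + -1 + ((0 : ℕ) : ℤ)))⁻¹ * f (m + -1)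
    simp
  · obtain ⟨k, rfl⟩ : ∃ k : ℕ, n = k := ⟨n.toNat, by omega⟩
    have e1 : ((k : ℤ) + 1) = ((k + 1 : ℕ) : ℤ) := by push_cast; ring
    rw [e1, gz_nat, gz_nat]
    rfl

theorem gz_add (f : ℤ → Q) (m n k : ℤ) : gz f m (n + k) = gz f m n * gz f (m + n) k := by
  induction k using Int.induction_on with
  | zero => simp
  | succ k ih =>
    have e : n + ((k : ℤ) + 1) = n + k + 1 := by ring
    rw [e, gz_succ, gz_succ, ih, mul_assoc]
    congr 3
    ring
  | pred k ih =>
    generalize hx : -(k : ℤ) - 1 = x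
    have e2 : -(k : ℤ) = x + 1 := by omega
    rw [e2, ← add_assoc n x 1, gz_succ, gz_succ, ← mul_assoc, ← add_assoc m n x] at ih
    exact mul_right_cancel ih

end gz

/-! ### Bundles -/

/-- Parallel walls. -/
structure Bd where
  I : Pat
  b : ℤ → Bool
  hb : ∀ K s, I.W K s = b s
  hw : ℤ → ℕ
  hC : ∀ K s, I.C (K + 1) s = I.C K s + 2 * hw K
  cs : ℤ → ℤ
  hcs : ∀ s, cs (s + 1) = cs s + if b s = true then 1 else -1

namespace Bd

variable (D : Bd)

theorem al (K s : ℤ) : D.I.Al2 K s (D.hw K) := ⟨by rw [D.hb, D.hb], D.hC K s⟩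

theorem hpos (K : ℤ) : 1 ≤ D.hw K := (D.al K 0).pos

/-- the strip of the strand `κ` at level `s` -/
def sp (κ s : ℤ) : ℤ := κ - D.cs s - if D.b s = true then 1 else 0

theorem sp_inj {κ κ' s : ℤ} (h : D.sp κ s = D.sp κ' s) : κ = κ' := by
  unfold sp at h
  omega

theorem sp_add (κ s i : ℤ) : D.sp (κ + i) s = D.sp κ s + i := by
  unfold sp
  ring

theorem sp_succ (κ s : ℤ) : D.sp κ (s + 1) = Pat.nx (D.sp κ s) (D.b s) (D.b (s + 1)) := by
  unfold sp Pat.nx
  rw [D.hcs]
  cases D.b s <;> cases D.b (s + 1) <;> simp <;> ring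

/-- site `r` of the strand `κ` at level `s` -/
def st (κ s : ℤ) (r : ℕ) : V := D.I.si (D.sp κ s) s r

theorem nb_st (κ s : ℤ) (r : ℕ) : nb (D.st κ s r) (ll (D.b s) r) = D.st κ s (r + 1) := by
  have := D.I.nb_si (D.sp κ s) s r
  rwa [D.hb] at this

/-- length of the line -/
def ln (κ s : ℤ) : ℕ := 2 * D.hw (D.sp κ s) - 1

theorem ln_pos (κ s : ℤ) : 1 ≤ D.ln κ s := by
  have := D.hpos (D.sp κ s)
  unfold ln
  omega

theorem nb_up (κ s : ℤ) : nb (D.st κ s (D.ln κ s)) .t = D.st κ (s + 1) 0 :=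
  (D.al (D.sp κ s) s).nb_up (D.hb _ _) (D.sp_succ κ s) (D.hb _ _)

/-- The wall partner: the strand `κ + 1` resp. `κ - 1`. -/
theorem nb_wall (κ s : ℤ) : nb (D.st κ s 0) (wl (D.b s)) =
    D.st (if D.b s = true then κ + 1 else κ - 1) s (D.ln (if D.b s = true then κ + 1 else κ - 1) s) := by
  have e : D.sp (if D.b s = true then κ + 1 else κ - 1) s = if D.b s = true then D.sp κ s + 1 else D.sp κ s - 1 := by
    split_ifs
    · exact D.sp_add κ s 1
    · exact D.sp_add κ s (-1)
  have h := (D.al (D.sp κ s) s).nb_wall (h' := D.hw (if D.I.W (D.sp κ s) s = true then D.sp κ s + 1 else D.sp κ s - 1))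
    (D.al _ s) (by rw [D.hb, D.hb])
  rw [D.hb] at h
  unfold st ln
  rw [e]
  exact h

/-- The strand reached by a sea edge from the strand `κ` at level `s`. -/
def sk (κ s : ℤ) : ℤ := κ + (if D.b (s + 1) = true then 1 else 0) - if D.b s = true then 0 else 1

theorem sp_sk (κ s : ℤ) : D.sp (D.sk κ s) (s + 1) = D.sp κ s := by
  unfold sk sp
  rw [D.hcs]
  split_ifs <;> ring

/-- The position reached by a sea edge. -/
def sj (κ s : ℤ) (r : ℕ) : ℕ := if D.b s = D.b (s + 1) then r + 1 else D.ln κ s - r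

theorem nb_sea (κ s : ℤ) {r : ℕ} (hr : r % 2 = 1) (h1 : r < D.ln κ s) :
    nb (D.st κ s r) .t = D.st (D.sk κ s) (s + 1) (D.sj κ s r) := by
  have h := (D.al (D.sp κ s) s).nb_sea hr h1
  rw [D.hb, D.hb] at h
  unfold st sj ln
  rw [D.sp_sk]
  exact h

/-! ### Words -/

variable {Q : Type*} [Group Q] (q : L3 → Q)

/-- word of the first `r` letters of a line -/
def lw (b : Bool) : ℕ → Q
  | 0 => 1
  | r + 1 => lw b r * q (ll b r)

@[simp] theorem lw_zero (b : Bool) : lw q b 0 = 1 := rfl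

theorem lw_succ (b : Bool) (r : ℕ) : lw q b (r + 1) = lw q b r * q (ll b r) := rfl

/-- the word of the strand `κ` at level `s` -/
def stp (κ s : ℤ) : Q := lw q (D.b s) (D.ln κ s) * q .t

/-- wall step -/
def LL (b : Bool) : Q := q (wl b) * q .t

/-- the other step -/
def KK (b : Bool) : Q := q (ow b) * q .t

variable {q}

theorem lw_odd (hq : ∀ i, q i * q i = 1) (b : Bool) (h : ℕ) :
    lw q b (2 * h + 1) * q .t = KK q b * ((LL q b)⁻¹ * KK q b) ^ h := by
  induction h with
  | zero =>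
    simp [lw, ll, KK]
  | succ h ih =>
    have e : 2 * (h + 1) + 1 = 2 * h + 1 + 1 + 1 := by ring
    have hi : ∀ i, (q i)⁻¹ = q i := fun i => inv_eq_of_mul_eq_one_left (hq i)
    have h1 : (2 * h + 1) % 2 = 1 := by omega
    have h2 : (2 * h + 1 + 1) % 2 = 0 := by omega
    rw [e, lw_succ, lw_succ, pow_succ, ← mul_assoc, ← ih]
    unfold ll LL KK
    rw [if_neg (by omega), if_pos h2, mul_inv_rev, hi, hi]
    have h3 : ∀ x y z : Q, x * q .t * (q .t * y * (z * q .t)) = x * y * z * q .t := by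
      intro x y z
      have : x * q .t * (q .t * y * (z * q .t)) = x * (q .t * q .t) * y * z * q .t := by group
      rw [this, hq, mul_one]
    rw [h3]

theorem stp_eq (hq : ∀ i, q i * q i = 1) (κ s : ℤ) :
    D.stp q κ s = KK q (D.b s) * ((LL q (D.b s))⁻¹ * KK q (D.b s)) ^ (D.hw (D.sp κ s) - 1) := by
  have h := D.hpos (D.sp κ s)
  unfold stp ln
  have e : 2 * D.hw (D.sp κ s) - 1 = 2 * (D.hw (D.sp κ s) - 1) + 1 := by omega
  rw [e, lw_odd hq]

/-- the word of the strand `κ` from level `s0`, block 0, to the site `r` at level `s0 + m` -/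
def pos (q : L3 → Q) (s0 κ m : ℤ) (r : ℕ) : Q := gz (D.stp q κ) s0 m * lw q (D.b (s0 + m)) r

theorem pos_zero (s0 κ : ℤ) : D.pos q s0 κ 0 0 = 1 := by
  unfold pos
  simp

theorem pos_succ (s0 κ m : ℤ) (r : ℕ) : D.pos q s0 κ m (r + 1) = D.pos q s0 κ m r * q (ll (D.b (s0 + m)) r) := by
  unfold pos
  rw [lw_succ, mul_assoc]

theorem pos_up (s0 κ m : ℤ) : D.pos q s0 κ (m + 1) 0 = D.pos q s0 κ m (D.ln κ (s0 + m)) * q .t := by
  unfold pos
  rw [gz_succ, lw_zero, mul_one, mul_assoc]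
  rfl

end Bd

/-! ### Existence -/

/-- sum of `f m, .., f (n - 1)` (minus the sum of `f n, .., f (m - 1)`) -/
noncomputable def isum (f : ℤ → ℕ) (m n : ℤ) : ℤ := ∑ i ∈ Finset.Ico m n, (f i : ℤ) - ∑ i ∈ Finset.Ico n m, (f i : ℤ)

theorem isum_self (f : ℤ → ℕ) (m : ℤ) : isum f m m = 0 := by unfold isum; simp

theorem isum_succ (f : ℤ → ℕ) (m n : ℤ) : isum f m (n + 1) = isum f m n + f n := by
  unfold isum
  rcases lt_or_ge n m with h | h
  · have e1 : Finset.Ico m (n + 1) = ∅ := Finset.Ico_eq_empty (by omega)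
    have e2 : Finset.Ico m n = ∅ := Finset.Ico_eq_empty (by omega)
    have e3 : Finset.Ico n m = insert n (Finset.Ico (n + 1) m) := by
      ext x
      simp only [Finset.mem_Ico, Finset.mem_insert]
      omega
    have e4 : n ∉ Finset.Ico (n + 1) m := by simp
    rw [e1, e2, e3, Finset.sum_insert e4]
    simp
  · have e1 : Finset.Ico n m = ∅ := Finset.Ico_eq_empty (by omega)
    have e2 : Finset.Ico (n + 1) m = ∅ := Finset.Ico_eq_empty (by omega)
    have e3 : Finset.Ico m (n + 1) = insert n (Finset.Ico m n) := by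
      ext x
      simp only [Finset.mem_Ico, Finset.mem_insert]
      omega
    have e4 : n ∉ Finset.Ico m n := by simp
    rw [e1, e2, e3, Finset.sum_insert e4]
    simp
    ring

/-- The bundle with letters `b`, column function `cs`, half widths `hw`, whose wall `K0` has the columns `c0 + cs s`. -/
noncomputable def Bd.of (b : ℤ → Bool) (cs : ℤ → ℤ) (hcs : ∀ s, cs (s + 1) = cs s + if b s = true then 1 else -1) (hw : ℤ → ℕ)
    (hpos : ∀ K, 1 ≤ hw K) (K0 c0 : ℤ) (par : ∀ s, (c0 + cs s - s) % 2 = 0) : Bd where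
  I := {
    C := fun K s => c0 + cs s + 2 * isum hw K0 K
    W := fun _ s => b s
    hC := fun K s => by rw [hcs]; ring
    par := fun K s => by have := par s; omega
    gap := fun K s => by
      rw [isum_succ]
      have := hpos K
      omega }
  b := b
  hb _ _ := rfl
  hw := hw
  hC K s := by
    show c0 + cs s + 2 * isum hw K0 (K + 1) = c0 + cs s + 2 * isum hw K0 K + 2 * hw K
    rw [isum_succ]
    ring
  cs := cs
  hcs := hcs

/-- The bundle of one run: phase `ph` at level `s0`, the wall `K0` is in column `c` at level `s0`. -/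
noncomputable def Bd.run (s0 ph K0 c : ℤ) (hc : (c - s0) % 2 = 0) (hw : ℤ → ℕ) (hpos : ∀ K, 1 ≤ hw K) : Bd :=
  Bd.of (fun s => bw (ph + (s - s0))) (fun s => col (ph + (s - s0)))
    (fun s => by
      have e : ph + (s + 1 - s0) = ph + (s - s0) + 1 := by ring
      rw [e, col_succ]) hw hpos K0 (c - col ph)
    (fun s => by
      have h1 := col_par ph
      have h2 := col_par (ph + (s - s0))
      omega)

/-- The bundle parallel to the wall `K0` of a pattern. -/
noncomputable def Bd.par (p : Pat) (K0 : ℤ) (hw : ℤ → ℕ) (hpos : ∀ K, 1 ≤ hw K) : Bd :=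
  Bd.of (p.W K0) (p.C K0) (p.hC K0) hw hpos K0 0 (fun s => by have := p.par K0 s; omega)

/-! ### A bundle in a pattern -/

/-- The walls `K0 .. K1` of the pattern `p` are the walls of `D` at the levels `s0 .. s0 + E`. -/
structure Fit (p : Pat) (D : Bd) (s0 : ℤ) (E : ℕ) (K0 K1 : ℤ) : Prop where
  W : ∀ K (m : ℕ), K0 ≤ K → K ≤ K1 → m ≤ E → p.W K (s0 + m) = D.b (s0 + m)
  C : ∀ K, K0 ≤ K → K ≤ K1 → p.C K s0 = D.I.C K s0

namespace Fit

variable {p : Pat} {D : Bd} {s0 : ℤ} {E : ℕ} {K0 K1 : ℤ} (F : Fit p D s0 E K0 K1)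
include F

theorem C' (K : ℤ) (m : ℕ) (h0 : K0 ≤ K) (h1 : K ≤ K1) (hm : m ≤ E + 1) : p.C K (s0 + m) = D.I.C K (s0 + m) := by
  induction m with
  | zero => simpa using F.C K h0 h1
  | succ m ih =>
    have e : s0 + ((m + 1 : ℕ) : ℤ) = s0 + m + 1 := by push_cast; ring
    rw [e, p.hC, D.I.hC, ih (by omega), F.W K m h0 h1 (by omega), D.hb]

theorem al2 {K : ℤ} {m : ℕ} (h0 : K0 ≤ K) (h1 : K < K1) (hm : m ≤ E) : p.Al2 K (s0 + m) (D.hw K) where
  W := by rw [F.W K m h0 (by omega) hm, F.W (K + 1) m (by omega) (by omega) hm]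
  C := by rw [F.C' K m h0 (by omega) (by omega), F.C' (K + 1) m (by omega) (by omega) (by omega), D.hC]

theorem si {K : ℤ} {m : ℕ} (h0 : K0 ≤ K) (h1 : K < K1) (hm : m ≤ E) (r : ℕ) :
    p.si K (s0 + m) r = D.I.si K (s0 + m) r := by
  unfold Pat.si Pat.sc
  rw [F.W K m h0 (by omega) hm, D.hb, F.C' K m h0 (by omega) (by omega),
    F.C' (K + 1) m (by omega) (by omega) (by omega)]

end Fit

end Pool.Agent.Lib.MP_688fd0_co.SQ5.H76
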