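import Mathlib
import Pool.Agent.Lib.MP_688fd0_co.SQ5.H76.Bundle
import Pool.Agent.Lib.MP_688fd0_co.SQ5.H76.Pull
import Pool.Agent.Lib.MP_688fd0_co.SQ5.H22.GadP

/-!
MP_688fd0_co, type C2, case FAR-3 (helper76), ROW CHART: the strands of a bundle in the group.

`Sd c D s0 κ0 κ1`: the strands `(κ, x)`, `κ0 ≤ κ ≤ κ1`, `x` over the start site of the strand `κ` at level `s0`.
`D.chart`: block `m` = the lines of level `s0 + m`. `Rg`: the walls `K0 .. K1` of the layout `g` are the walls of `D` at the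
levels `s0 .. s0 + E`, and the strands stay between them. RESULTS: `Rg.rn` (the chart is a chart of strands in the sense of
helper22's `Rn`, for the matching `x ↦ x q(mt x)`), `Rg.Z_eq` (two charts), `Rg.wall`, `Rg.sea` (partners), `thr`, `thr_Z`
(every element over a site of a strand is a chart vertex).
-/

set_option autoImplicit false

namespace Pool.Agent.Lib.MP_688fd0_co.SQ5.H76

open Pool.Agent.Lib.MP_688fd0_co.OSF Pool.Agent.Lib.MP_688fd0_co.SQ5.H95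

universe u v

variable {Q : Type u} [Group Q] {B : Lb.{u, v} Q} {l : L3 → B.L} {L : AddSubgroup (ℤ × ℤ)}

theorem q_sq (hi : ∀ i, B.inv (l i) = l i) (i : L3) : B.q (l i) * B.q (l i) = 1 := by
  have h : B.q (l i) = (B.q (l i))⁻¹ := by rw [← B.q_inv, hi]
  nth_rw 2 [h]
  exact mul_inv_cancel _

/-- the elements of the letters -/
def qq (B : Lb.{u, v} Q) (l : L3 → B.L) (i : L3) : Q := B.q (l i)

theorem Cov.over_step_iff (c : Cov B l L) (hi : ∀ i, B.inv (l i) = l i) {x : Q} {v : V} {i : L3} :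
    c.Over (x * B.q (l i)) (nb v i) ↔ c.Over x v := by
  constructor
  · intro h
    have h1 := h.step i
    rwa [nb_nb, mul_assoc, q_sq hi, mul_one] at h1
  · intro h
    exact h.step i

/-- The elements over the sites of a strand. -/
theorem Cov.over_pos (c : Cov B l L) (hi : ∀ i, B.inv (l i) = l i) (D : Bd) (s0 κ : ℤ) {x : Q} (m : ℤ) (r : ℕ) :
    c.Over (x * D.pos (qq B l) s0 κ m r) (D.st κ (s0 + m) r) ↔ c.Over x (D.st κ s0 0) := by
  have hr : ∀ (m : ℤ) (r : ℕ), c.Over (x * D.pos (qq B l) s0 κ m r) (D.st κ (s0 + m) r) ↔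
      c.Over (x * D.pos (qq B l) s0 κ m 0) (D.st κ (s0 + m) 0) := by
    intro m r
    induction r with
    | zero => rfl
    | succ r ih =>
      rw [← ih, D.pos_succ, ← D.nb_st, ← mul_assoc]
      exact c.over_step_iff hi
  have hm : ∀ m : ℤ, c.Over (x * D.pos (qq B l) s0 κ (m + 1) 0) (D.st κ (s0 + (m + 1)) 0) ↔
      c.Over (x * D.pos (qq B l) s0 κ m 0) (D.st κ (s0 + m) 0) := by
    intro m
    have e : s0 + (m + 1) = s0 + m + 1 := by ring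
    rw [← hr m (D.ln κ (s0 + m)), D.pos_up, e, ← D.nb_up, ← mul_assoc]
    exact c.over_step_iff hi
  rw [hr]
  induction m using Int.induction_on with
  | zero => rw [D.pos_zero, mul_one, add_zero]
  | succ m ih => exact (hm m).trans ih
  | pred m ih =>
    rw [← hm, sub_add_cancel]
    exact ih

/-! ### The strands -/

/-- The strands. -/
def Sd (c : Cov B l L) (D : Bd) (s0 κ0 κ1 : ℤ) : Type u :=
  {s : ℤ × Q // κ0 ≤ s.1 ∧ s.1 ≤ κ1 ∧ c.Over s.2 (D.st s.1 s0 0)}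

instance (c : Cov B l L) (D : Bd) (s0 κ0 κ1 : ℤ) [Finite Q] : Finite (Sd c D s0 κ0 κ1) := by
  let f : Sd c D s0 κ0 κ1 → Finset.Icc κ0 κ1 × Q := fun s => (⟨s.1.1, Finset.mem_Icc.2 ⟨s.2.1, s.2.2.1⟩⟩, s.1.2)
  refine Finite.of_injective f ?_
  intro s s' h
  have h1 := congrArg (fun z => ((z.1 : ℤ), z.2)) h
  exact Subtype.ext h1

/-- The chart. -/
def Bd.chart (D : Bd) (c : Cov B l L) (s0 κ0 κ1 : ℤ) : H22.Chart Q (Sd c D s0 κ0 κ1) where
  Z m s r := s.1.2 * D.pos (qq B l) s0 s.1.1 m r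
  h m s := D.ln s.1.1 (s0 + m)

section thr

variable (D : Bd) (c : Cov B l L) (hi : ∀ i, B.inv (l i) = l i) {s0 κ0 κ1 : ℤ}

include hi in
theorem Z_over (m : ℕ) (s : Sd c D s0 κ0 κ1) (r : ℕ) :
    c.Over ((D.chart c s0 κ0 κ1).Z m s r) (D.st s.1.1 (s0 + m) r) :=
  (c.over_pos hi D s0 s.1.1 m r).2 s.2.2.2

/-- The strand through the element `y` over the site `r` of the strand `κ` in block `m`. -/
def thr (κ m : ℤ) (r : ℕ) (y : Q) (h0 : κ0 ≤ κ) (h1 : κ ≤ κ1) (hy : c.Over y (D.st κ (s0 + m) r)) : Sd c D s0 κ0 κ1 :=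
  ⟨(κ, y * (D.pos (qq B l) s0 κ m r)⁻¹), h0, h1, by
    have h := c.over_pos hi D s0 κ (x := y * (D.pos (qq B l) s0 κ m r)⁻¹) m r
    rw [inv_mul_cancel_right] at h
    exact h.1 hy⟩

theorem thr_mul {κ m : ℤ} {r : ℕ} {y : Q} (h0 : κ0 ≤ κ) (h1 : κ ≤ κ1) (hy : c.Over y (D.st κ (s0 + m) r)) :
    (thr D c hi κ m r y h0 h1 hy).1.2 * D.pos (qq B l) s0 κ m r = y := inv_mul_cancel_right _ _

theorem thr_Z {κ : ℤ} {m r : ℕ} {y : Q} (h0 : κ0 ≤ κ) (h1 : κ ≤ κ1) (hy : c.Over y (D.st κ (s0 + m) r)) :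
    (D.chart c s0 κ0 κ1).Z m (thr D c hi κ m r y h0 h1 hy) r = y := inv_mul_cancel_right _ _

end thr

/-! ### Translations of the pattern -/

namespace Pat

theorem lv_tr (s c di dj : ℤ) :
    lv (s + (di + dj)) (c + (di - dj)) = ((lv s c).1, (lv s c).2.1 + di, (lv s c).2.2 + dj) := by
  rcases Int.emod_two_eq_zero_or_one (c - s) with h | h
  · rw [lv_even h, lv_even (by omega)]
    refine Prod.ext rfl (Prod.ext ?_ ?_) <;> simp only <;> omega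
  · rw [lv_odd h, lv_odd (by omega)]
    refine Prod.ext rfl (Prod.ext ?_ ?_) <;> simp only <;> omega

theorem Inv.si {p : Pat} {di dj dK : ℤ} (h : p.Inv di dj dK) (K s : ℤ) (r : ℕ) :
    p.si (K + dK) (s + (di + dj)) r = ((p.si K s r).1, (p.si K s r).2.1 + di, (p.si K s r).2.2 + dj) := by
  unfold Pat.si
  rw [← lv_tr]
  congr 1
  unfold sc
  have e : K + dK + 1 = K + 1 + dK := by ring
  rw [h.W, e, h.C, h.C]
  split_ifs <;> ring

theorem Inv.al2 {p : Pat} {di dj dK : ℤ} (h : p.Inv di dj dK) {K s : ℤ} {k : ℕ} (H : p.Al2 K s k) :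
    p.Al2 (K + dK) (s + (di + dj)) k where
  W := by
    have e : K + dK + 1 = K + 1 + dK := by ring
    rw [e, h.W, h.W, H.W]
  C := by
    have e : K + dK + 1 = K + 1 + dK := by ring
    rw [e, h.C, h.C, H.C]
    ring

end Pat

namespace Geo

variable {M R : ℕ} {dc : ℕ → ℤ} {spc : ℕ → Prop} {G : ℤ} (g : Geo L M R dc spc G)

/-- UNIQUENESS modulo the lattice. -/
theorem si_eqL {K s K' s' : ℤ} {h h' r r' : ℕ} (H : g.pat.toPat.Al2 K s h) (H' : g.pat.toPat.Al2 K' s' h')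
    (hr : r ≤ 2 * h - 1) (hr' : r' ≤ 2 * h' - 1) (he : EqL L (g.pat.toPat.si K s r) (g.pat.toPat.si K' s' r')) :
    ∃ x y : ℤ, K = K' + y * R ∧ s = s' + (x * (g.i0 + g.j0) + y * (g.i1 + g.j1)) ∧ r = r' := by
  obtain ⟨h1, h2⟩ := he
  obtain ⟨x, y, hx, hy⟩ := g.ker _ _ h2
  have hI := (g.inv0.mul x).add (g.inv1.mul y)
  have h3 := hI.si K' s' r'
  have h4 : g.pat.toPat.si K s r = g.pat.toPat.si (K' + (x * 0 + y * R))
      (s' + (x * g.i0 + y * g.i1 + (x * g.j0 + y * g.j1))) r' := by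
    rw [h3]
    refine Prod.ext h1 (Prod.ext ?_ ?_)
    · show _ = _
      linarith [hx]
    · show _ = _
      linarith [hy]
  obtain ⟨e1, e2, e3⟩ := Pat.si_inj H (hI.al2 H') hr hr' h4
  exact ⟨x, y, by rw [e1]; ring, by rw [e2]; ring, e3⟩

end Geo

/-! ### The three letters -/

/-- The three letters in the form of helper22. -/
def tri (l : L3 → B.L) (hi : ∀ i, B.inv (l i) = l i) (hq : Function.Injective (qq B l)) : H22.Tri B where
  l := fun i : Fin 3 => l (![L3.a, L3.b, L3.t] i)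
  inv i := hi _
  inj i j h := by
    have h1 := hq h
    have key : ∀ i j : Fin 3, (![L3.a, L3.b, L3.t] i) = ![L3.a, L3.b, L3.t] j → i = j := by decide
    exact key i j h1

theorem tri_adj {hi : ∀ i, B.inv (l i) = l i} {hq : Function.Injective (qq B l)} {x y : Q} :
    (tri l hi hq).Adj x y ↔ ∃ i : L3, y = x * B.q (l i) := by
  constructor
  · rintro ⟨i, rfl⟩
    exact ⟨_, rfl⟩
  · rintro ⟨i, rfl⟩
    cases i
    · exact ⟨0, rfl⟩
    · exact ⟨1, rfl⟩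
    · exact ⟨2, rfl⟩

namespace Geo

variable {M R : ℕ} {dc : ℕ → ℤ} {spc : ℕ → Prop} {G : ℤ} (g : Geo L M R dc spc G) (c : Cov B l L)

/-- The matching. -/
noncomputable def Pm (x : Q) : Q := x * B.q (l (g.mt c x))

theorem mch (hi : ∀ i, B.inv (l i) = l i) (hq : Function.Injective (qq B l)) : (tri l hi hq).Mch (g.Pm c) where
  inv x := by
    unfold Pm
    rw [g.mt_step, mul_assoc, q_sq hi, mul_one]
  adj x := tri_adj.2 ⟨_, rfl⟩

/-- The 2-factor of the matching is `g.F`. -/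
theorem mch_hf (hl : Function.Injective l) (hi : ∀ i, B.inv (l i) = l i) (hq : Function.Injective (qq B l))
    (hii : ∀ x, B.inv (B.inv x) = x) (x : Q) : ((g.mch c hi hq).hf hii).H x = (g.F c hl hi hii).H x := by
  ext y
  rw [(g.mch c hi hq).mem hii]
  show _ ↔ ∃ i', i' ≠ g.mt c x ∧ y = l i'
  constructor
  · rintro ⟨i, rfl, h⟩
    refine ⟨_, fun h1 => h ?_, rfl⟩
    show x * B.q (l _) = x * B.q (l (g.mt c x))
    rw [← h1]
  · rintro ⟨i', h, rfl⟩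
    have h2 : x * B.q (l i') ≠ g.Pm c x := fun h1 => h (hq (mul_left_cancel h1))
    cases i'
    · exact ⟨0, rfl, h2⟩
    · exact ⟨1, rfl, h2⟩
    · exact ⟨2, rfl, h2⟩

variable {D : Bd} {s0 : ℤ} {E : ℕ} {K0 K1 κ0 κ1 : ℤ}

/-- A region. -/
structure Rg (g : Geo L M R dc spc G) (D : Bd) (s0 : ℤ) (E : ℕ) (K0 K1 κ0 κ1 : ℤ) : Prop where
  fit : Fit g.pat.toPat D s0 E K0 K1
  ins : ∀ κ (m : ℕ), κ0 ≤ κ → κ ≤ κ1 → m ≤ E → K0 ≤ D.sp κ (s0 + m) ∧ D.sp κ (s0 + m) < K1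
  wid : K1 - K0 ≤ R
  len : (E : ℤ) < g.i0 + g.j0

variable (hi : ∀ i, B.inv (l i) = l i) {g}

namespace Rg

variable (H : Rg g D s0 E K0 K1 κ0 κ1)
include H

theorem al2 {κ : ℤ} {m : ℕ} (h0 : κ0 ≤ κ) (h1 : κ ≤ κ1) (hm : m ≤ E) :
    g.pat.toPat.Al2 (D.sp κ (s0 + m)) (s0 + m) (D.hw (D.sp κ (s0 + m))) :=
  H.fit.al2 (H.ins κ m h0 h1 hm).1 (H.ins κ m h0 h1 hm).2 hm

theorem st {κ : ℤ} {m : ℕ} (h0 : κ0 ≤ κ) (h1 : κ ≤ κ1) (hm : m ≤ E) (r : ℕ) :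
    D.st κ (s0 + m) r = g.pat.toPat.si (D.sp κ (s0 + m)) (s0 + m) r :=
  (H.fit.si (H.ins κ m h0 h1 hm).1 (H.ins κ m h0 h1 hm).2 hm r).symm

theorem W {κ : ℤ} {m : ℕ} (h0 : κ0 ≤ κ) (h1 : κ ≤ κ1) (hm : m ≤ E) :
    g.pat.toPat.W (D.sp κ (s0 + m)) (s0 + m) = D.b (s0 + m) :=
  H.fit.W _ m (H.ins κ m h0 h1 hm).1 (H.ins κ m h0 h1 hm).2.le hm

/-- The matching letters along a strand. -/
theorem mt_zero {κ : ℤ} {m : ℕ} (h0 : κ0 ≤ κ) (h1 : κ ≤ κ1) (hm : m ≤ E) {y : Q} (hy : c.Over y (D.st κ (s0 + m) 0)) :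
    g.mt c y = wl (D.b (s0 + m)) := by
  rw [H.st h0 h1 hm] at hy
  rw [g.mt_over c hy, (H.al2 h0 h1 hm).Mt_zero, H.W h0 h1 hm]

theorem mt_end {κ : ℤ} {m : ℕ} (h0 : κ0 ≤ κ) (h1 : κ ≤ κ1) (hm : m ≤ E) {y : Q}
    (hy : c.Over y (D.st κ (s0 + m) (D.ln κ (s0 + m)))) : g.mt c y = wl (D.b (s0 + m)) := by
  rw [H.st h0 h1 hm] at hy
  rw [g.mt_over c hy]
  have := (H.al2 h0 h1 hm).Mt_end
  rw [H.W h0 h1 hm] at this
  exact this

theorem mt_mid {κ : ℤ} {m r : ℕ} (h0 : κ0 ≤ κ) (h1 : κ ≤ κ1) (hm : m ≤ E) {y : Q}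
    (hy : c.Over y (D.st κ (s0 + m) r)) (hr0 : 0 < r) (hr : r < D.ln κ (s0 + m)) : g.mt c y = .t := by
  rw [H.st h0 h1 hm] at hy
  rw [g.mt_over c hy]
  exact (H.al2 h0 h1 hm).Mt_mid hr0 hr

include hi in
/-- TWO CHARTS: equal vertices are vertices of equal sites modulo the lattice. -/
theorem Z_eq {D' : Bd} {s0' : ℤ} {E' : ℕ} {K0' K1' κ0' κ1' : ℤ} (H' : Rg g D' s0' E' K0' K1' κ0' κ1')
    {m m' : ℕ} {s : Sd c D s0 κ0 κ1} {s' : Sd c D' s0' κ0' κ1'} {r r' : ℕ} (hm : m ≤ E) (hm' : m' ≤ E')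
    (hr : r ≤ (D.chart c s0 κ0 κ1).h m s) (hr' : r' ≤ (D'.chart c s0' κ0' κ1').h m' s')
    (h : (D.chart c s0 κ0 κ1).Z m s r = (D'.chart c s0' κ0' κ1').Z m' s' r') :
    ∃ x y : ℤ, D.sp s.1.1 (s0 + m) = D'.sp s'.1.1 (s0' + m') + y * R ∧
      s0 + m = s0' + m' + (x * (g.i0 + g.j0) + y * (g.i1 + g.j1)) ∧ r = r' := by
  have h1 := Z_over D c hi m s r
  have h2 := Z_over D' c hi m' s' r'
  rw [← h, H'.st s'.2.1 s'.2.2.1 hm'] at h2
  rw [H.st s.2.1 s.2.2.1 hm] at h1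
  exact g.si_eqL (H.al2 s.2.1 s.2.2.1 hm) (H'.al2 s'.2.1 s'.2.2.1 hm') hr hr' (h1.eqL h2)

include hi in
theorem inj {m m' : ℕ} {s s' : Sd c D s0 κ0 κ1} {r r' : ℕ} (hm : m ≤ E) (hm' : m' ≤ E)
    (hr : r ≤ (D.chart c s0 κ0 κ1).h m s) (hr' : r' ≤ (D.chart c s0 κ0 κ1).h m' s')
    (h : (D.chart c s0 κ0 κ1).Z m s r = (D.chart c s0 κ0 κ1).Z m' s' r') : m = m' ∧ s = s' ∧ r = r' := by
  obtain ⟨x, y, e1, e2, e3⟩ := H.Z_eq c hi H hm hm' hr hr' h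
  have a1 := H.ins _ m s.2.1 s.2.2.1 hm
  have a2 := H.ins _ m' s'.2.1 s'.2.2.1 hm'
  have hw := H.wid
  have hR := g.R_pos
  have hy : y = 0 := by
    rcases lt_trichotomy y 0 with h1 | h1 | h1
    · exfalso
      have : y * (R : ℤ) ≤ -1 * R := mul_le_mul_of_nonneg_right (by omega) hR.le
      linarith [a1.1, a2.2]
    · exact h1
    · exfalso
      have : 1 * (R : ℤ) ≤ y * R := mul_le_mul_of_nonneg_right (by omega) hR.le
      linarith [a1.2, a2.1]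
  subst hy
  have hl := g.l0_pos
  have hlen := H.len
  have b1 : (m : ℤ) ≤ E := by exact_mod_cast hm
  have b2 : (m' : ℤ) ≤ E := by exact_mod_cast hm'
  have hx : x = 0 := by
    rcases lt_trichotomy x 0 with h1 | h1 | h1
    · exfalso
      have : x * (g.i0 + g.j0) ≤ -1 * (g.i0 + g.j0) := mul_le_mul_of_nonneg_right (by omega) hl.le
      have := Int.natCast_nonneg m
      linarith
    · exact h1
    · exfalso
      have : 1 * (g.i0 + g.j0) ≤ x * (g.i0 + g.j0) := mul_le_mul_of_nonneg_right (by omega) hl.le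
      have := Int.natCast_nonneg m'
      linarith
  subst hx
  have hmm : m = m' := by
    have : (m : ℤ) = m' := by linarith
    exact_mod_cast this
  subst hmm
  have hκ : s.1.1 = s'.1.1 := D.sp_inj (by rw [e1]; ring)
  subst e3
  refine ⟨rfl, Subtype.ext (Prod.ext hκ ?_), rfl⟩
  have h1 : s.1.2 * D.pos (qq B l) s0 s.1.1 m r = s'.1.2 * D.pos (qq B l) s0 s'.1.1 m r := h
  rw [hκ] at h1
  exact mul_right_cancel h1

/-- THE CHART. -/
theorem rn (hq : Function.Injective (qq B l)) : H22.Rn (tri l hi hq) (g.Pm c) (D.chart c s0 κ0 κ1) E where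
  mch := g.mch c hi hq
  hpos m s _ := D.ln_pos _ _
  inj m s r m' s' r' hm hm' hr hr' h := H.inj c hi hm hm' hr hr' h
  line m s r hm hr := by
    have hZ : (D.chart c s0 κ0 κ1).Z m s (r + 1) =
        (D.chart c s0 κ0 κ1).Z m s r * B.q (l (H76.ll (D.b (s0 + m)) r)) := by
      show s.1.2 * D.pos (qq B l) s0 s.1.1 m (r + 1) = s.1.2 * D.pos (qq B l) s0 s.1.1 m r * _
      rw [D.pos_succ, ← mul_assoc]
      rfl
    refine ⟨tri_adj.2 ⟨_, hZ⟩, fun h => ?_⟩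
    rw [hZ] at h
    have h1 : g.mt c ((D.chart c s0 κ0 κ1).Z m s r) = H76.ll (D.b (s0 + m)) r := hq (mul_left_cancel h)
    have hy := Z_over D c hi m s r
    rcases Nat.eq_zero_or_pos r with h2 | h2
    · subst h2
      rw [H.mt_zero c s.2.1 s.2.2.1 hm hy] at h1
      exact wl_ne_ow _ h1
    · rw [H.mt_mid c s.2.1 s.2.2.1 hm hy h2 hr] at h1
      exact ll_ne_t _ _ h1.symm
  gate m s hm := by
    have hZ : (D.chart c s0 κ0 κ1).Z (m + 1) s 0 =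
        (D.chart c s0 κ0 κ1).Z m s ((D.chart c s0 κ0 κ1).h m s) * B.q (l .t) := by
      show s.1.2 * D.pos (qq B l) s0 s.1.1 ((m + 1 : ℕ) : ℤ) 0 =
        s.1.2 * D.pos (qq B l) s0 s.1.1 m (D.ln s.1.1 (s0 + m)) * _
      rw [Nat.cast_add, Nat.cast_one, D.pos_up, ← mul_assoc]
      rfl
    refine ⟨tri_adj.2 ⟨_, hZ⟩, fun h => ?_⟩
    rw [hZ] at h
    have h1 : g.mt c ((D.chart c s0 κ0 κ1).Z m s (D.ln s.1.1 (s0 + m))) = .t := hq (mul_left_cancel h)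
    rw [H.mt_end c s.2.1 s.2.2.1 hm.le (Z_over D c hi m s _)] at h1
    exact wl_ne_t _ h1

/-! ### Partners -/

/-- The wall partner. -/
theorem wall {m : ℕ} (hm : m ≤ E) (s : Sd c D s0 κ0 κ1) {κ' : ℤ}
    (hκ : κ' = if D.b (s0 + m) = true then s.1.1 + 1 else s.1.1 - 1) (h0 : κ0 ≤ κ') (h1 : κ' ≤ κ1) :
    ∃ hy, g.Pm c ((D.chart c s0 κ0 κ1).Z m s 0) =
      (D.chart c s0 κ0 κ1).Z m (thr D c hi κ' m (D.ln κ' (s0 + m))
        ((D.chart c s0 κ0 κ1).Z m s 0 * B.q (l (wl (D.b (s0 + m))))) h0 h1 hy) (D.ln κ' (s0 + m)) := by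
  have hz := Z_over D c hi m s 0
  have hy : c.Over ((D.chart c s0 κ0 κ1).Z m s 0 * B.q (l (wl (D.b (s0 + m))))) (D.st κ' (s0 + m) (D.ln κ' (s0 + m))) := by
    have h2 := hz.step (wl (D.b (s0 + m)))
    rw [D.nb_wall, ← hκ] at h2
    exact h2
  refine ⟨hy, ?_⟩
  rw [thr_Z]
  unfold Pm
  rw [H.mt_zero c s.2.1 s.2.2.1 hm hz]

/-- The sea partner. -/
theorem sea {m r : ℕ} (hm : m < E) (s : Sd c D s0 κ0 κ1) (hr : r % 2 = 1) (hr1 : r < D.ln s.1.1 (s0 + m)) {κ' : ℤ}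
    (hκ : κ' = D.sk s.1.1 (s0 + m)) (h0 : κ0 ≤ κ') (h1 : κ' ≤ κ1) :
    ∃ hy, g.Pm c ((D.chart c s0 κ0 κ1).Z m s r) =
      (D.chart c s0 κ0 κ1).Z (m + 1) (thr D c hi κ' ((m + 1 : ℕ) : ℤ) (D.sj s.1.1 (s0 + m) r)
        ((D.chart c s0 κ0 κ1).Z m s r * B.q (l .t)) h0 h1 hy) (D.sj s.1.1 (s0 + m) r) := by
  have hz := Z_over D c hi m s r
  have hy : c.Over ((D.chart c s0 κ0 κ1).Z m s r * B.q (l .t))
      (D.st κ' (s0 + ((m + 1 : ℕ) : ℤ)) (D.sj s.1.1 (s0 + m) r)) := by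
    have h2 := hz.step .t
    rw [D.nb_sea _ _ hr hr1, ← hκ] at h2
    rw [Nat.cast_add, Nat.cast_one, ← add_assoc]
    exact h2
  refine ⟨hy, ?_⟩
  rw [thr_Z]
  unfold Pm
  rw [H.mt_mid c s.2.1 s.2.2.1 hm.le hz (by omega) hr1]

end Rg

end Geo

end Pool.Agent.Lib.MP_688fd0_co.SQ5.H76
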