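import Mathlib
import Pool.Agent.Lib.MP_688fd0_co.SQ5.H76.Chart
import Pool.Agent.Lib.MP_688fd0_co.SQ5.H58.NumB

/-!
MP_688fd0_co, type C2, case FAR-3 (helper76): the period of the chart of a run.

All letters are involutions. `u ∈ ker eps`, `e` a multiple of `k |C|`: `u ^ e` is in the part of `N` which is central in `ker eps`
and depends only on the class of `u` in `T = (ker eps)^ab` (`pow_eq_of_ct`, `pow_comm`). The words of 8 levels of all strands of
a run (any widths) have the same class. RESULT `per_exists`: there is `U`, which commutes with `ker eps`, such that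
`Z (m + 8 e) s i = U * Z m s i` for every run chart.
-/

set_option autoImplicit false

namespace Pool.Agent.Lib.MP_688fd0_co.SQ5.H76

open Pool.Agent.Lib.MP_688fd0_co.OSF Pool.Agent.Lib.MP_688fd0_co.SQ3 Pool.Agent.Lib.MP_688fd0_co.SQ5.H58
open Pool.Agent.Lib.MP_688fd0_co.SQ5.H20 (pr pr_per)

section grp

variable {G : Type} [Group G] [Finite G] {N C : Subgroup G} {eps : G →* ℤˣ} {k P : ℕ}

theorem pow_mem_N (h : GN N C eps k P) (u : G) : u ^ k ∈ N := by
  have := h.Nn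
  rw [← h.idx]
  exact N.pow_index_mem u

/-- The power depends only on the class. -/
theorem pow_eq_of_ct (h : GN N C eps k P) {u u' : G} (hu : eps u = 1) (hu' : eps u' = 1)
    (hc : ct eps u = ct eps u') {e : ℕ} (he : k * Nat.card C ∣ e) : u ^ e = u' ^ e := by
  have hcm := SQ2.H41.comm_of_cyclic N h.Nc
  have hv := pow_mem_N h u
  have hv' := pow_mem_N h u'
  have hk : ∀ (n : ℕ) {w : G}, eps w = 1 → eps (w ^ n) = 1 ∧ ct eps (w ^ n) = n • ct eps w := by
    intro n w hw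
    induction n with
    | zero => simp [ct_one]
    | succ n ih =>
      rw [pow_succ]
      refine ⟨by rw [map_mul, ih.1, hw, mul_one], ?_⟩
      rw [ct_mul ih.1 hw, ih.2, succ_nsmul]
  have hK : u ^ k * (u' ^ k)⁻¹ ∈ K0 eps := by
    rw [mem_K0]
    refine ⟨by rw [map_mul, map_inv, (hk k hu).1, (hk k hu').1, inv_one, mul_one], ?_⟩
    rw [ct_mul (hk k hu).1 (by rw [map_inv, (hk k hu').1, inv_one]), ct_inv (hk k hu').1, (hk k hu).2, (hk k hu').2, hc,
      add_neg_cancel]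
  have hC : u ^ k * (u' ^ k)⁻¹ ∈ C := K0_inf_le h ⟨hK, N.mul_mem hv (N.inv_mem hv')⟩
  have h1 : (u ^ k * (u' ^ k)⁻¹) ^ Nat.card C = 1 := by
    have h2 : (⟨_, hC⟩ : C) ^ Nat.card C = 1 := pow_card_eq_one'
    exact congrArg Subtype.val h2
  have h3 : Commute (u ^ k) (u' ^ k)⁻¹ := hcm _ hv _ (N.inv_mem hv')
  rw [h3.mul_pow, inv_pow, mul_inv_eq_one] at h1
  obtain ⟨d, rfl⟩ := he
  rw [pow_mul, pow_mul u', pow_mul u, pow_mul u', h1]

/-- The power is central in `ker eps`. -/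
theorem pow_comm (h : GN N C eps k P) (u : G) {x : G} (hx : eps x = 1) {e : ℕ} (he : k * Nat.card C ∣ e) :
    x * u ^ e = u ^ e * x := by
  have hcm := SQ2.H41.comm_of_cyclic N h.Nc
  have hv := pow_mem_N h u
  have hN := h.Nn
  have hC : x * u ^ k * x⁻¹ * (u ^ k)⁻¹ ∈ C := by
    have h2 := h.act _ hv x
    rw [hx] at h2
    have h3 : ((1 : ℤˣ) : ℤ) = 1 := rfl
    rwa [h3, zpow_one] at h2
  have h1 : (x * u ^ k * x⁻¹ * (u ^ k)⁻¹) ^ Nat.card C = 1 := by
    have h2 : (⟨_, hC⟩ : C) ^ Nat.card C = 1 := pow_card_eq_one'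
    exact congrArg Subtype.val h2
  have h3 : Commute (x * u ^ k * x⁻¹) (u ^ k)⁻¹ := hcm _ (hN.conj_mem _ hv x) _ (N.inv_mem hv)
  rw [h3.mul_pow, inv_pow, mul_inv_eq_one, conj_pow] at h1
  obtain ⟨d, rfl⟩ := he
  have h4 : x * (u ^ k) ^ Nat.card C = (u ^ k) ^ Nat.card C * x := mul_inv_eq_iff_eq_mul.1 h1
  rw [pow_mul, pow_mul]
  exact (Commute.pow_right (show Commute x ((u ^ k) ^ Nat.card C) from h4) d).eq

end grp

/-! ### Periodic bundles -/

/-- The bundle has the period `p`. -/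
structure Bd.Per (D : Bd) (p : ℤ) : Prop where
  b : ∀ s, D.b (s + p) = D.b s
  cs : ∀ s, D.cs (s + p) = D.cs s
  C : ∀ K s, D.I.C K (s + p) = D.I.C K s

namespace Bd

theorem run_per {s0 ph K0 c : ℤ} (hc : (c - s0) % 2 = 0) (hw : ℤ → ℕ) (hpos : ∀ K, 1 ≤ hw K) (e : ℤ) :
    (Bd.run s0 ph K0 c hc hw hpos).Per (8 * e) where
  b s := bw_congr (by omega)
  cs s := col_congr (by omega)
  C K s := by
    show c - col ph + col (ph + (s + 8 * e - s0)) + 2 * isum hw K0 K = c - col ph + col (ph + (s - s0)) + 2 * isum hw K0 K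
    rw [col_congr (show (ph + (s + 8 * e - s0)) % 8 = (ph + (s - s0)) % 8 by omega)]

namespace Per

variable {D : Bd} {p : ℤ} (h : D.Per p)
include h

theorem sp (κ s : ℤ) : D.sp κ (s + p) = D.sp κ s := by
  unfold Bd.sp
  rw [h.b, h.cs]

theorem ln (κ s : ℤ) : D.ln κ (s + p) = D.ln κ s := by
  unfold Bd.ln
  rw [h.sp]

theorem stp {Q : Type*} [Group Q] (q : L3 → Q) (κ s : ℤ) : D.stp q κ (s + p) = D.stp q κ s := by
  unfold Bd.stp
  rw [h.b, h.ln]

theorem gz {Q : Type*} [Group Q] (q : L3 → Q) (κ s m : ℤ) : H76.gz (D.stp q κ) (s + p) m = H76.gz (D.stp q κ) s m := by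
  induction m using Int.induction_on with
  | zero => simp
  | succ m ih =>
    rw [gz_succ, gz_succ, ih]
    congr 1
    rw [← h.stp q κ (s + m)]
    congr 1
    ring
  | pred m ih =>
    generalize hx : -(m : ℤ) - 1 = y at ih ⊢
    have e2 : -(m : ℤ) = y + 1 := by omega
    rw [e2, gz_succ, gz_succ, ← h.stp q κ (s + y)] at ih
    have e3 : s + y + p = s + p + y := by ring
    rw [e3] at ih
    exact mul_right_cancel ih

theorem pos {Q : Type*} [Group Q] (q : L3 → Q) (s0 κ m : ℤ) (r : ℕ) :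
    D.pos q s0 κ (m + p) r = H76.gz (D.stp q κ) s0 p * D.pos q s0 κ m r := by
  unfold Bd.pos
  rw [add_comm m p, gz_add, h.gz, mul_assoc]
  congr 3
  rw [← h.b (s0 + m)]
  congr 1
  ring

/-- The sites one period higher. -/
theorem st {κ s i j : ℤ} {p' : ℤ} (hp : p = 2 * p') (hs : D.st κ s 0 = (true, i, j)) :
    D.st κ (s + p) 0 = (true, i + p', j + p') := by
  have e : D.st κ (s + p) 0 = Pat.lv (s + (p' + p')) (D.I.sc (D.sp κ s) s 0 + (p' - p')) := by
    unfold Bd.st Pat.si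
    rw [h.sp]
    unfold Pat.sc
    rw [D.hb, D.hb, h.b, h.C, h.C]
    congr 1
    · omega
    · ring
  rw [e, Pat.lv_tr]
  have hs' : Pat.lv s (D.I.sc (D.sp κ s) s 0) = (true, i, j) := hs
  rw [hs']

end Per

theorem st_zero (D : Bd) (κ s : ℤ) : ∃ i j : ℤ, D.st κ s 0 = (true, i, j) := by
  have h := D.I.sc_par (D.sp κ s) s 0
  exact ⟨_, _, Pat.lv_even (s := s) (c := D.I.sc (D.sp κ s) s 0) (by omega)⟩

end Bd

/-! ### The class of the words -/

section cls

universe u v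

variable {Q : Type u} [Group Q] {eps : Q →* ℤˣ} {x : Fin 3 → Q} (H : Inv3 eps x) {B : Lb.{u, v} Q} {l : L3 → B.L}
  {t a b : Fin 3} (hta : t ≠ a) (htb : t ≠ b) (hab : a ≠ b) (ht : B.q (l .t) = x t) (ha : B.q (l .a) = x a)
  (hb : B.q (l .b) = x b)

/-- Elements over a white site are in `ker eps`. -/
theorem eps_of_over {y : Q} {i j : ℤ} (h : (H.co hta htb hab ht ha hb).cov.Over y (true, i, j)) : eps y = 1 := by
  have h1 := (((H.co hta htb hab ht ha hb).over_iff y (true, i, j)).1 h).1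
  exact of_decide_eq_true h1

theorem ct_of_over {y : Q} {i j : ℤ} (h : (H.co hta htb hab ht ha hb).cov.Over y (true, i, j)) :
    ct eps y = i • ct eps (x a * x t) + j • ct eps (x b * x t) := by
  have h1 := (((H.co hta htb hab ht ha hb).over_iff y (true, i, j)).1 h).2
  rw [← kk_pos (x := x) (t := t) (eps_of_over H hta htb hab ht ha hb h)]
  exact h1

/-- Every site has elements over it. -/
theorem exists_over (i j : ℤ) : ∃ y, (H.co hta htb hab ht ha hb).cov.Over y (true, i, j) := by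
  obtain ⟨y, hy, hy'⟩ := ct_surj (i • ct eps (x a * x t) + j • ct eps (x b * x t))
  refine ⟨y, ((H.co hta htb hab ht ha hb).over_iff y (true, i, j)).2 ⟨decide_eq_true hy, ?_⟩⟩
  show kk eps x t y = _
  rw [kk_pos hy, hy']

include H hta htb hab ht ha hb in
/-- The word of one period of a strand. -/
theorem ct_gz (hi : ∀ i, B.inv (l i) = l i) {D : Bd} {p p' : ℤ} (hD : D.Per p) (hp : p = 2 * p') (s0 κ : ℤ) :
    eps (gz (D.stp (qq B l) κ) s0 p) = 1 ∧
    ct eps (gz (D.stp (qq B l) κ) s0 p) = p' • ct eps (x a * x t) + p' • ct eps (x b * x t) := by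
  obtain ⟨i, j, hs⟩ := D.st_zero κ s0
  obtain ⟨y, hy⟩ := exists_over H hta htb hab ht ha hb i j
  have h1 := ((H.co hta htb hab ht ha hb).cov.over_pos hi D s0 κ (x := y) p 0).2 (by rw [hs]; exact hy)
  have e : D.pos (qq B l) s0 κ p 0 = gz (D.stp (qq B l) κ) s0 p := by
    unfold Bd.pos
    rw [Bd.lw_zero, mul_one]
  rw [hD.st hp hs, e] at h1
  have e1 := eps_of_over H hta htb hab ht ha hb hy
  have e2 := eps_of_over H hta htb hab ht ha hb h1
  have e3 : eps (gz (D.stp (qq B l) κ) s0 p) = 1 := by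
    rw [map_mul, e1, one_mul] at e2
    exact e2
  refine ⟨e3, ?_⟩
  have c1 := ct_of_over H hta htb hab ht ha hb hy
  have c2 := ct_of_over H hta htb hab ht ha hb h1
  rw [ct_mul e1 e3, c1] at c2
  have c3 : (i + p') • ct eps (x a * x t) + (j + p') • ct eps (x b * x t) =
      (i • ct eps (x a * x t) + j • ct eps (x b * x t)) + (p' • ct eps (x a * x t) + p' • ct eps (x b * x t)) := by
    module
  rw [c3] at c2
  exact add_left_cancel c2

end cls

/-! ### The period of the run charts -/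

section per

universe v

variable {Q : Type} [Group Q] [Finite Q] {N C : Subgroup Q} {eps : Q →* ℤˣ} {k P : ℕ} {x : Fin 3 → Q} (H : Inv3 eps x)
  {B : Lb.{0, v} Q} {l : L3 → B.L} {t a b : Fin 3} (hta : t ≠ a) (htb : t ≠ b) (hab : a ≠ b) (ht : B.q (l .t) = x t)
  (ha : B.q (l .a) = x a) (hb : B.q (l .b) = x b)

theorem gz_per {D : Bd} {p : ℤ} (h : D.Per p) (q : L3 → Q) (κ s0 : ℤ) (e : ℕ) :
    gz (D.stp q κ) s0 (p * e) = gz (D.stp q κ) s0 p ^ e := by
  induction e with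
  | zero => simp
  | succ e ih =>
    have e1 : p * ((e + 1 : ℕ) : ℤ) = p + p * e := by push_cast; ring
    rw [e1, gz_add, h.gz, ih, pow_succ']

/-- THE PERIOD of the run charts: `U` commutes with `ker eps` and does not depend on the run and on the strand. -/
theorem per_exists (gn : GN N C eps k P) (hi : ∀ i, B.inv (l i) = l i) {e : ℕ} (he : k * Nat.card C ∣ e) :
    ∃ U : Q, eps U = 1 ∧ (∀ y, eps y = 1 → y * U = U * y) ∧ ∀ (D : Bd), D.Per 8 → ∀ (s0 κ0 κ1 : ℤ),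
      (∀ κ : ℤ, gz (D.stp (qq B l) κ) s0 (8 * e) = U) ∧
      ∀ (m : ℕ) (s : Sd (H.co hta htb hab ht ha hb).cov D s0 κ0 κ1),
        (D.chart _ s0 κ0 κ1).h (m + 8 * e) s = (D.chart _ s0 κ0 κ1).h m s ∧
        ∀ i, (D.chart _ s0 κ0 κ1).Z (m + 8 * e) s i = U * (D.chart _ s0 κ0 κ1).Z m s i := by
  -- a fixed element of the class
  obtain ⟨u, hu, hu'⟩ := ct_surj ((4 : ℤ) • ct eps (x a * x t) + (4 : ℤ) • ct eps (x b * x t))
  refine ⟨u ^ e, by rw [map_pow, hu, one_pow], fun y hy => pow_comm gn u hy he, ?_⟩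
  intro D hD s0 κ0 κ1
  have hU : ∀ κ : ℤ, gz (D.stp (qq B l) κ) s0 (8 * e) = u ^ e := by
    intro κ
    obtain ⟨h1, h2⟩ := ct_gz H hta htb hab ht ha hb hi hD (p' := 4) (by norm_num) s0 κ
    rw [gz_per hD]
    exact pow_eq_of_ct gn h1 hu (h2.trans hu'.symm) he
  have hpe : ∀ n : ℕ, D.Per (8 * n) := by
    intro n
    induction n with
    | zero => exact ⟨fun s => by simp, fun s => by simp, fun K s => by simp⟩
    | succ n ih =>
      have e1 : (8 : ℤ) * ((n + 1 : ℕ) : ℤ) = 8 * n + 8 := by push_cast; ring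
      rw [e1]
      refine ⟨fun s => ?_, fun s => ?_, fun K s => ?_⟩
      · rw [← add_assoc, hD.b, ih.b]
      · rw [← add_assoc, hD.cs, ih.cs]
      · rw [← add_assoc, hD.C, ih.C]
  refine ⟨hU, fun m s => ⟨?_, fun i => ?_⟩⟩
  · show D.ln s.1.1 (s0 + ((m + 8 * e : ℕ) : ℤ)) = D.ln s.1.1 (s0 + m)
    have e1 : s0 + ((m + 8 * e : ℕ) : ℤ) = s0 + m + 8 * e := by push_cast; ring
    rw [e1, (hpe e).ln]
  · show s.1.2 * D.pos (qq B l) s0 s.1.1 ((m + 8 * e : ℕ) : ℤ) i = u ^ e * (s.1.2 * D.pos (qq B l) s0 s.1.1 m i)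
    have e1 : ((m + 8 * e : ℕ) : ℤ) = m + 8 * e := by push_cast; ring
    rw [e1, (hpe e).pos, hU, ← mul_assoc, ← mul_assoc]
    congr 1
    apply pow_comm gn u _ he
    obtain ⟨i', j', hs⟩ := D.st_zero s.1.1 s0
    have h3 := s.2.2.2
    rw [hs] at h3
    exact eps_of_over H hta htb hab ht ha hb h3

end per

/-! ### The letters one period higher -/

section per2

universe u v

variable {Q : Type u} [Group Q] {B : Lb.{u, v} Q} {l : L3 → B.L} {L : AddSubgroup (ℤ × ℤ)} {M R : ℕ} {dc : ℕ → ℤ}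
  {spc : ℕ → Prop} {G : ℤ} {g : Geo L M R dc spc G} {D : Bd} {s0 : ℤ} {E : ℕ} {K0 K1 κ0 κ1 : ℤ}

theorem Geo.mch_congr (c : Cov B l L) (hi : ∀ i, B.inv (l i) = l i) (hq : Function.Injective (qq B l))
    (hii : ∀ x, B.inv (B.inv x) = x) {y z : Q} (h : g.mt c y = g.mt c z) :
    ((g.mch c hi hq).hf hii).H y = ((g.mch c hi hq).hf hii).H z := by
  have hl : Function.Injective l := fun i j h => hq (congrArg B.q h)
  rw [g.mch_hf c hl hi hq hii, g.mch_hf c hl hi hq hii]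
  show {y' | ∃ i', i' ≠ g.mt c y ∧ y' = l i'} = {y' | ∃ i', i' ≠ g.mt c z ∧ y' = l i'}
  rw [h]

theorem Geo.Rg.mt_per (H : g.Rg D s0 E K0 K1 κ0 κ1) (c : Cov B l L) (hi : ∀ i, B.inv (l i) = l i) {p : ℕ}
    (hD : D.Per p) {m : ℕ} (hm : m + p ≤ E) (s : Sd c D s0 κ0 κ1) {i : ℕ} (hr : i ≤ (D.chart c s0 κ0 κ1).h m s) :
    g.mt c ((D.chart c s0 κ0 κ1).Z (m + p) s i) = g.mt c ((D.chart c s0 κ0 κ1).Z m s i) := by
  have h1 := Z_over D c hi (m + p) s i
  have h2 := Z_over D c hi m s i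
  have e1 : s0 + ((m + p : ℕ) : ℤ) = s0 + m + p := by push_cast; ring
  have hr' : i ≤ D.ln s.1.1 (s0 + m) := hr
  have eb : D.b (s0 + ((m + p : ℕ) : ℤ)) = D.b (s0 + m) := by rw [e1, hD.b]
  have el : D.ln s.1.1 (s0 + ((m + p : ℕ) : ℤ)) = D.ln s.1.1 (s0 + m) := by rw [e1, hD.ln]
  rcases Nat.eq_zero_or_pos i with h0 | h0
  · subst h0
    rw [H.mt_zero c s.2.1 s.2.2.1 hm h1, H.mt_zero c s.2.1 s.2.2.1 (by omega) h2, eb]
  · rcases lt_or_eq_of_le hr' with h3 | h3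
    · rw [H.mt_mid c s.2.1 s.2.2.1 hm h1 h0 (by rw [el]; exact h3), H.mt_mid c s.2.1 s.2.2.1 (by omega) h2 h0 h3]
    · have h1' : c.Over ((D.chart c s0 κ0 κ1).Z (m + p) s i) (D.st s.1.1 (s0 + ((m + p : ℕ) : ℤ))
          (D.ln s.1.1 (s0 + ((m + p : ℕ) : ℤ)))) := by rw [el, ← h3]; exact h1
      have h2' : c.Over ((D.chart c s0 κ0 κ1).Z m s i) (D.st s.1.1 (s0 + m) (D.ln s.1.1 (s0 + m))) := by
        rw [← h3]; exact h2
      rw [H.mt_end c s.2.1 s.2.2.1 hm h1', H.mt_end c s.2.1 s.2.2.1 (by omega) h2', eb]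

end per2

end Pool.Agent.Lib.MP_688fd0_co.SQ5.H76
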