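import Mathlib
import Pool.Agent.Lib.MP_688fd0_co.SQ5.H76.PerB

/-!
MP_688fd0_co, type C2, case FAR-3 (helper76): the runs of the main group.

The main group of the layout `g`: the walls `0 .. m0` of the copy 0, all strips between them are aligned, the strip `k` has the
width `2 hw k` (`Mn g m0 hw`). The run `z`: the levels `e (z - 1) + 1 .. e z` (`rs z`, `rE z + 1` levels, phase `rp z` at the
first level). RESULTS: `Mn.rg` (the region `Rg`), `Mn.far` (charts of different runs), `Mn.cover` (every element over a site of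
a strand is a vertex of a run chart).
-/

set_option autoImplicit false

namespace Pool.Agent.Lib.MP_688fd0_co.SQ5.H76

open Pool.Agent.Lib.MP_688fd0_co.OSF

universe u v

variable {L : AddSubgroup (ℤ × ℤ)} {M R : ℕ} {dc : ℕ → ℤ} {spc : ℕ → Prop} {G : ℤ} {g : Geo L M R dc spc G}

namespace Geo

variable (g)

/-- first level of the run `z` -/
def rs (z : ℤ) : ℤ := g.w.e (z - 1) + 1

/-- number of levels minus 1 -/
def rE (z : ℤ) : ℕ := (g.w.e z - g.w.e (z - 1) - 1).toNat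

/-- phase at the first level -/
def rp (z : ℤ) : ℤ := g.rs z - 3 * z

theorem rE_eq (z : ℤ) : (g.rE z : ℤ) = g.w.e z - g.w.e (z - 1) - 1 := by
  have h1 := g.w.he (z - 1)
  have h2 := g.G1
  rw [sub_add_cancel] at h1
  unfold rE
  omega

theorem rs_add (z : ℤ) : g.rs z + g.rE z = g.w.e z := by
  rw [rE_eq]
  unfold rs
  ring

theorem N_run {z s : ℤ} (h0 : g.rs z ≤ s) (h1 : s ≤ g.w.e z) : g.w.N s = z :=
  (g.w.hN s z).2 ⟨by unfold rs at h0; omega, h1⟩

theorem P_run {z s : ℤ} (h0 : g.rs z ≤ s) (h1 : s ≤ g.w.e z) : g.w.P s = g.rp z + (s - g.rs z) := by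
  unfold Word.P rp
  rw [g.N_run h0 h1]
  ring

theorem rE_lt (z : ℤ) : (g.rE z : ℤ) < g.i0 + g.j0 := by
  have h1 := g.w.eEt (z - 1)
  have h2 := g.w.e_mono g.G1
  have h3 := g.w.Et8
  have h4 := h2 (show z < z - 1 + g.w.Et by omega)
  rw [rE_eq]
  omega

/-- The main group. -/
structure Mn (g : Geo L M R dc spc G) (m0 : ℕ) (hw : ℤ → ℕ) : Prop where
  lt : m0 < R
  al : ∀ k < m0, ¬ spc k
  dc : ∀ k : ℕ, k < m0 → dc k = 2 * hw k
  pos : ∀ K, 1 ≤ hw K

namespace Mn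

variable {g} {m0 : ℕ} {hw : ℤ → ℕ} (H : Mn g m0 hw)
include H

theorem ll_zero {k : ℕ} (hk : k ≤ m0) : g.ll k = 0 := by
  induction k with
  | zero => simp [Geo.ll]
  | succ k ih =>
    have := H.lt
    rw [g.ll_succ, ih (by omega)]
    rcases g.kind k (by omega) with h | h
    · rw [h.2.1, add_zero]
    · exact absurd h.1 (H.al k (by omega))

theorem Lv_zero {K : ℤ} (h0 : 0 ≤ K) (h1 : K ≤ m0) : g.Lv K = 0 := by
  have hlt := H.lt
  have hR : K < R := by omega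
  unfold Lv
  rw [Int.ediv_eq_zero_of_lt h0 hR, Int.emod_eq_of_lt h0 hR, H.ll_zero (by omega)]
  simp

theorem P_eq {K : ℤ} (h0 : 0 ≤ K) (h1 : K ≤ m0) (s : ℤ) : g.P K s = g.w.P s := by
  unfold Geo.P
  rw [H.Lv_zero h0 h1, sub_zero]

theorem C_succ {K : ℤ} (h0 : 0 ≤ K) (h1 : K < m0) (s : ℤ) : g.C (K + 1) s = g.C K s + 2 * hw K := by
  have hlt := H.lt
  have e : (K % (R : ℤ)).toNat = K.toNat := by rw [Int.emod_eq_of_lt h0 (by omega)]
  have h := g.gap_al (K := K) (by rw [e]; omega) (by rw [e]; exact H.al _ (by omega)) s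
  rw [h, e, H.dc _ (by omega), Int.toNat_of_nonneg h0]

theorem C_isum (n : ℕ) (hn : n ≤ m0) (s : ℤ) : g.C n s = g.C 0 s + 2 * isum hw 0 n := by
  induction n with
  | zero => rw [Nat.cast_zero, isum_self]; ring
  | succ n ih =>
    rw [Nat.cast_add, Nat.cast_one, H.C_succ (Int.natCast_nonneg n) (by omega), ih (by omega), isum_succ]
    ring

/-- The bundle of the run `z`. -/
noncomputable def bd (z : ℤ) : Bd := Bd.run (g.rs z) (g.rp z) 0 (g.C 0 (g.rs z)) (g.par' 0 _) hw H.pos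

theorem bd_per (z e : ℤ) : (H.bd z).Per (8 * e) := Bd.run_per _ _ _ e

/-- THE REGION of the run `z`. -/
theorem fit (z : ℤ) : Fit g.pat.toPat (H.bd z) (g.rs z) (g.rE z) 0 m0 where
  W K m h0 h1 hm := by
    have h2 := g.rs_add z
    have h3 : (m : ℤ) ≤ g.rE z := by exact_mod_cast hm
    show bw (g.P K (g.rs z + m)) = bw (g.rp z + (g.rs z + m - g.rs z))
    rw [H.P_eq h0 h1, g.P_run (z := z) (by omega) (by omega)]
  C K h0 h1 := by
    show g.C K (g.rs z) = g.C 0 (g.rs z) - col (g.rp z) + col (g.rp z + (g.rs z - g.rs z)) + 2 * isum hw 0 K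
    rw [sub_self, add_zero, sub_add_cancel]
    have h := H.C_isum K.toNat (by omega) (g.rs z)
    rw [Int.toNat_of_nonneg h0] at h
    exact h

/-- The strip of a strand in a run. -/
theorem sp_eq (z κ s : ℤ) : (H.bd z).sp κ s = κ - col (g.rp z + (s - g.rs z)) - if bw (g.rp z + (s - g.rs z)) = true then 1 else 0 :=
  rfl

theorem sp_cases (z κ s : ℤ) : ((H.bd z).sp κ s = κ - 1 ∧ ((g.rp z + (s - g.rs z)) % 8 = 0 ∨
      (g.rp z + (s - g.rs z)) % 8 = 5 ∨ (g.rp z + (s - g.rs z)) % 8 = 6 ∨ (g.rp z + (s - g.rs z)) % 8 = 7)) ∨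
    ((H.bd z).sp κ s = κ - 2 ∧ ((g.rp z + (s - g.rs z)) % 8 = 1 ∨ (g.rp z + (s - g.rs z)) % 8 = 2 ∨
      (g.rp z + (s - g.rs z)) % 8 = 3 ∨ (g.rp z + (s - g.rs z)) % 8 = 4)) := by
  rw [H.sp_eq]
  generalize g.rp z + (s - g.rs z) = x
  have h : x % 8 = 0 ∨ x % 8 = 1 ∨ x % 8 = 2 ∨ x % 8 = 3 ∨ x % 8 = 4 ∨ x % 8 = 5 ∨ x % 8 = 6 ∨ x % 8 = 7 := by omega
  rcases h with h | h | h | h | h | h | h | h <;> simp [col, bw, h] <;> omega

theorem rg (z : ℤ) {κ0 κ1 : ℤ} (h0 : 2 ≤ κ0) (h1 : κ1 ≤ m0) : Rg g (H.bd z) (g.rs z) (g.rE z) 0 m0 κ0 κ1 where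
  fit := H.fit z
  ins κ m h2 h3 _ := by
    rcases H.sp_cases z κ (g.rs z + m) with h | h <;> omega
  wid := by have := H.lt; omega
  len := g.rE_lt z

/-- Levels of different runs. -/
theorem lev_eq {z z' m m' : ℤ} {x : ℤ} (h0 : 0 ≤ m) (h1 : m ≤ g.rE z) (h0' : 0 ≤ m') (h1' : m' ≤ g.rE z')
    (h : g.rs z + m = g.rs z' + m' + x * (g.i0 + g.j0)) : z = z' + x * g.w.Et := by
  have a1 := g.rs_add z
  have a2 := g.rs_add z'
  have b1 := g.N_run (z := z) (s := g.rs z + m) (by omega) (by omega)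
  have b2 := g.N_run (z := z') (s := g.rs z' + m') (by omega) (by omega)
  have key : ∀ n : ℕ, ∀ s, g.w.N (s + n * (g.i0 + g.j0)) = g.w.N s + n * g.w.Et := by
    intro n
    induction n with
    | zero => intro s; simp
    | succ n ih =>
      intro s
      have e : s + ((n + 1 : ℕ) : ℤ) * (g.i0 + g.j0) = s + n * (g.i0 + g.j0) + (g.i0 + g.j0) := by push_cast; ring
      rw [e, g.w.N_l0, ih]
      push_cast
      ring
  have key' : ∀ s, g.w.N (s + x * (g.i0 + g.j0)) = g.w.N s + x * g.w.Et := by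
    intro s
    obtain ⟨n, rfl | rfl⟩ := x.eq_nat_or_neg
    · exact key n s
    · have h3 := key n (s + -(n : ℤ) * (g.i0 + g.j0))
      have e : s + -(n : ℤ) * (g.i0 + g.j0) + n * (g.i0 + g.j0) = s := by ring
      rw [e] at h3
      linarith
  rw [h, key', b2] at b1
  exact b1.symm

variable {Q : Type u} [Group Q] {B : Lb.{u, v} Q} {l : L3 → B.L} (c : Cov B l L) (hi : ∀ i, B.inv (l i) = l i)

include hi in
/-- THE CHARTS OF DIFFERENT RUNS have no common vertex. -/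
theorem far {z z' : ℤ} (hz : z - z' < g.w.Et) (hz' : z' - z < g.w.Et) {κ0 κ1 κ0' κ1' : ℤ} (h0 : 2 ≤ κ0)
    (h1 : κ1 ≤ m0) (h0' : 2 ≤ κ0') (h1' : κ1' ≤ m0) {m m' : ℕ} (hm : m ≤ g.rE z) (hm' : m' ≤ g.rE z')
    {s : Sd c (H.bd z) (g.rs z) κ0 κ1} {s' : Sd c (H.bd z') (g.rs z') κ0' κ1'} {r r' : ℕ}
    (hr : r ≤ ((H.bd z).chart c (g.rs z) κ0 κ1).h m s) (hr' : r' ≤ ((H.bd z').chart c (g.rs z') κ0' κ1').h m' s')
    (h : ((H.bd z).chart c (g.rs z) κ0 κ1).Z m s r = ((H.bd z').chart c (g.rs z') κ0' κ1').Z m' s' r') :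
    z = z' ∧ m = m' ∧ s.1 = s'.1 ∧ r = r' := by
  have X := H.rg z h0 h1
  have X' := H.rg z' h0' h1'
  obtain ⟨x, y, e1, e2, e3⟩ := X.Z_eq c hi X' hm hm' hr hr' h
  have a1 := X.ins _ m s.2.1 s.2.2.1 hm
  have a2 := X'.ins _ m' s'.2.1 s'.2.2.1 hm'
  have hw := X.wid
  have hR := g.R_pos
  have hy : y = 0 := by
    rcases lt_trichotomy y 0 with h1 | h1 | h1
    · exfalso
      have : y * (R : ℤ) ≤ -1 * R := mul_le_mul_of_nonneg_right (by omega) hR.le
      linarith [a1.1, a2.2]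
    · exact h1
    · exfalso
      have : 1 * (R : ℤ) ≤ y * R := mul_le_mul_of_nonneg_right (by omega) hR.le
      linarith [a1.2, a2.1]
  subst hy
  have e2' : g.rs z + m = g.rs z' + m' + x * (g.i0 + g.j0) := by rw [e2]; ring
  have hzz := H.lev_eq (Int.natCast_nonneg m) (by exact_mod_cast hm) (Int.natCast_nonneg m') (by exact_mod_cast hm') e2'
  have hEt := g.w.Et8
  have hx : x = 0 := by
    rcases lt_trichotomy x 0 with h1 | h1 | h1
    · exfalso
      have : x * g.w.Et ≤ -1 * g.w.Et := mul_le_mul_of_nonneg_right (by omega) (by omega)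
      omega
    · exact h1
    · exfalso
      have : 1 * g.w.Et ≤ x * g.w.Et := mul_le_mul_of_nonneg_right (by omega) (by omega)
      omega
  subst hx
  have hz : z = z' := by rw [hzz]; ring
  subst hz
  have hmm : m = m' := by
    have : (m : ℤ) = m' := by linarith
    exact_mod_cast this
  subst hmm
  have hκ : s.1.1 = s'.1.1 := (H.bd z).sp_inj (by rw [e1]; ring)
  subst e3
  refine ⟨rfl, rfl, Prod.ext hκ ?_, rfl⟩
  have h1 : s.1.2 * (H.bd z).pos (qq B l) (g.rs z) s.1.1 m r = s'.1.2 * (H.bd z).pos (qq B l) (g.rs z) s'.1.1 m r := h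
  rw [hκ] at h1
  exact mul_right_cancel h1

/-- The level of a run. -/
theorem exists_run (s : ℤ) : ∃ (z x : ℤ) (m : ℕ), 0 ≤ z ∧ z < g.w.Et ∧ m ≤ g.rE z ∧
    s = g.rs z + m + x * (g.i0 + g.j0) ∧ g.w.N s = z + x * g.w.Et := by
  have hEt := g.w.Et8
  have hE0 : 0 < g.w.Et := by omega
  set z' := g.w.N s with hz'
  have h0 := Int.emod_nonneg z' (ne_of_gt hE0)
  have h1 := Int.emod_lt_of_pos z' hE0
  have h2 := Int.emod_add_mul_ediv z' g.w.Et
  set x := z' / g.w.Et with hx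
  -- the events one period lower
  have key : ∀ n : ℕ, ∀ k, g.w.e (k + n * g.w.Et) = g.w.e k + n * (g.i0 + g.j0) := by
    intro n
    induction n with
    | zero => intro s; simp
    | succ n ih =>
      intro k
      have e : k + ((n + 1 : ℕ) : ℤ) * g.w.Et = k + n * g.w.Et + g.w.Et := by push_cast; ring
      rw [e, g.w.eEt, ih]
      push_cast
      ring
  have key' : ∀ (x k : ℤ), g.w.e (k + x * g.w.Et) = g.w.e k + x * (g.i0 + g.j0) := by
    intro x k
    obtain ⟨n, rfl | rfl⟩ := x.eq_nat_or_neg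
    · exact key n k
    · have h3 := key n (k + -(n : ℤ) * g.w.Et)
      have e : k + -(n : ℤ) * g.w.Et + n * g.w.Et = k := by ring
      rw [e] at h3
      linarith
  have hlt := g.w.lt_N s
  have hle := g.w.N_le s
  rw [← hz'] at hlt hle
  have e1 : z' = z' % g.w.Et + x * g.w.Et := by linarith
  have e2 : z' - 1 = (z' % g.w.Et - 1) + x * g.w.Et := by linarith
  rw [e2, key'] at hlt
  rw [e1, key'] at hle
  refine ⟨z' % g.w.Et, x, (s - x * (g.i0 + g.j0) - g.rs (z' % g.w.Et)).toNat, h0, h1, ?_, ?_, e1⟩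
  · have := g.rE_eq (z' % g.w.Et)
    unfold rs
    omega
  · unfold rs
    have : 0 ≤ s - x * (g.i0 + g.j0) - (g.w.e (z' % g.w.Et - 1) + 1) := by omega
    rw [Int.toNat_of_nonneg this]
    ring

include hi in
/-- THE COVER: an element over a site of the line `(K, s)` of the main group (any copy) is a vertex of the chart of a run. -/
theorem cover {K s : ℤ} (hK0 : 0 ≤ K % (R : ℤ)) (hK1 : K % (R : ℤ) < m0) {r : ℕ} {y : Q}
    (hr : r ≤ 2 * hw (K % R) - 1) (hy : c.Over y (g.pat.toPat.si K s r)) :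
    ∃ (z x : ℤ) (m : ℕ), 0 ≤ z ∧ z < g.w.Et ∧ m ≤ g.rE z ∧
      s - g.Lv K = g.rs z + m + x * (g.i0 + g.j0) ∧
      ∀ κ0 κ1 : ℤ, κ0 ≤ K % R + (H.bd z).cs (g.rs z + m) + (if (H.bd z).b (g.rs z + m) = true then 1 else 0) →
        K % R + (H.bd z).cs (g.rs z + m) + (if (H.bd z).b (g.rs z + m) = true then 1 else 0) ≤ κ1 →
        ∃ S : Sd c (H.bd z) (g.rs z) κ0 κ1,
          S.1.1 = K % R + (H.bd z).cs (g.rs z + m) + (if (H.bd z).b (g.rs z + m) = true then 1 else 0) ∧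
          r ≤ ((H.bd z).chart c (g.rs z) κ0 κ1).h m S ∧ ((H.bd z).chart c (g.rs z) κ0 κ1).Z m S r = y := by
  obtain ⟨z, x, m, h1, h2, h3, h4, -⟩ := H.exists_run (s - g.Lv K)
  refine ⟨z, x, m, h1, h2, h3, h4, ?_⟩
  intro κ0 κ1 hk0 hk1
  set κ := K % R + (H.bd z).cs (g.rs z + m) + (if (H.bd z).b (g.rs z + m) = true then 1 else 0) with hκ
  have hsp : (H.bd z).sp κ (g.rs z + m) = K % R := by
    unfold Bd.sp
    rw [hκ]
    ring
  -- the translate
  have hR := g.R_pos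
  have hLv : g.Lv K = K / R * (g.i1 + g.j1) := by
    unfold Lv
    rw [H.ll_zero (by omega), add_zero]
  have hI := (g.inv0.mul x).add (g.inv1.mul (K / R))
  have h5 := hI.si (K % R) (g.rs z + m) r
  have e1 : K % (R : ℤ) + (x * 0 + K / R * R) = K := by
    have := Int.emod_add_mul_ediv K R
    linarith
  have e2 : g.rs z + m + (x * g.i0 + K / R * g.i1 + (x * g.j0 + K / R * g.j1)) = s := by
    rw [hLv] at h4
    linarith
  rw [e1, e2] at h5
  have hst : (H.bd z).st κ (g.rs z + m) r = g.pat.toPat.si (K % R) (g.rs z + m) r := by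
    have := (H.fit z).si (K := K % R) (m := m) hK0 hK1 h3 r
    unfold Bd.st
    rw [hsp]
    exact this.symm
  have hy' : c.Over y ((H.bd z).st κ (g.rs z + m) r) := by
    rw [hst]
    refine hy.of_eqL ?_
    rw [h5]
    refine ⟨rfl, ?_⟩
    have e3 : (((g.pat.toPat.si (K % R) (g.rs z + m) r).2.1 + (x * g.i0 + K / R * g.i1),
      (g.pat.toPat.si (K % R) (g.rs z + m) r).2.2 + (x * g.j0 + K / R * g.j1)) : ℤ × ℤ) -
      (g.pat.toPat.si (K % R) (g.rs z + m) r).2 = x • (g.i0, g.j0) + (K / R) • (g.i1, g.j1) := by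
      refine Prod.ext ?_ ?_
      · show _ - _ = x • g.i0 + (K / R) • g.i1
        simp
      · show _ - _ = x • g.j0 + (K / R) • g.j1
        simp
    rw [show ((_, _, _) : V).2 = (_, _) from rfl, e3]
    exact L.add_mem (L.zsmul_mem g.in0 x) (L.zsmul_mem g.in1 (K / R))
  refine ⟨thr (H.bd z) c hi κ m r y hk0 hk1 hy', rfl, ?_, thr_Z (H.bd z) c hi hk0 hk1 hy'⟩
  show r ≤ (H.bd z).ln κ (g.rs z + m)
  unfold Bd.ln
  rw [hsp]
  exact hr

/-- The phase in the run. -/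
theorem ph_run {z x s : ℤ} {m : ℕ} (hm : m ≤ g.rE z) (h : s = g.rs z + m + x * (g.i0 + g.j0)) :
    (g.w.P s - (g.rp z + m)) % 8 = 0 := by
  have h1 := g.rs_add z
  have h2 : (m : ℤ) ≤ g.rE z := by exact_mod_cast hm
  have h3 := g.P_run (z := z) (s := g.rs z + m) (by omega) (by omega)
  have key : ∀ n : ℕ, ∀ s, (g.w.P (s + n * (g.i0 + g.j0)) - g.w.P s) % 8 = 0 := by
    intro n
    induction n with
    | zero => intro s; simp
    | succ n ih =>
      intro s
      have e : s + ((n + 1 : ℕ) : ℤ) * (g.i0 + g.j0) = s + n * (g.i0 + g.j0) + (g.i0 + g.j0) := by push_cast; ring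
      rw [e]
      have a1 := g.w.P_l0 (s + n * (g.i0 + g.j0))
      have a2 := ih s
      omega
  have key' : (g.w.P (g.rs z + m + x * (g.i0 + g.j0)) - g.w.P (g.rs z + m)) % 8 = 0 := by
    obtain ⟨n, rfl | rfl⟩ := x.eq_nat_or_neg
    · exact key n _
    · have h4 := key n (g.rs z + m + -(n : ℤ) * (g.i0 + g.j0))
      have e : g.rs z + m + -(n : ℤ) * (g.i0 + g.j0) + n * (g.i0 + g.j0) = g.rs z + m := by ring
      rw [e] at h4
      omega
  rw [h]
  omega

include hi in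
/-- The cover for the phase 5: the strand number `K % R + 1`. -/
theorem cover5 {K s : ℤ} (hK0 : 0 ≤ K % (R : ℤ)) (hK1 : K % (R : ℤ) < m0) (hph : g.P K s % 8 = 5) {r : ℕ} {y : Q}
    (hr : r ≤ 2 * hw (K % R) - 1) (hy : c.Over y (g.pat.toPat.si K s r)) :
    ∃ (z x : ℤ) (m : ℕ), 0 ≤ z ∧ z < g.w.Et ∧ m ≤ g.rE z ∧ s - g.Lv K = g.rs z + m + x * (g.i0 + g.j0) ∧
      (g.rp z + m) % 8 = 5 ∧
      ∀ κ0 κ1 : ℤ, κ0 ≤ K % R + 1 → K % R + 1 ≤ κ1 → ∃ S : Sd c (H.bd z) (g.rs z) κ0 κ1,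
          S.1.1 = K % R + 1 ∧
          r ≤ ((H.bd z).chart c (g.rs z) κ0 κ1).h m S ∧ ((H.bd z).chart c (g.rs z) κ0 κ1).Z m S r = y := by
  obtain ⟨z, x, m, h1, h2, h3, h4, h5⟩ := H.cover c hi hK0 hK1 hr hy
  have h6 := H.ph_run h3 h4
  have h7 : (g.rp z + m) % 8 = 5 := by
    have : g.P K s = g.w.P (s - g.Lv K) := rfl
    omega
  refine ⟨z, x, m, h1, h2, h3, h4, h7, ?_⟩
  have e1 : (H.bd z).cs (g.rs z + m) = 1 := by
    show col (g.rp z + (g.rs z + m - g.rs z)) = 1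
    have e : g.rp z + (g.rs z + m - g.rs z) = g.rp z + m := by ring
    rw [e]
    unfold col
    simp [h7]
  have e2 : (H.bd z).b (g.rs z + m) = false := by
    show bw (g.rp z + (g.rs z + m - g.rs z)) = false
    have e : g.rp z + (g.rs z + m - g.rs z) = g.rp z + m := by ring
    rw [e]
    unfold bw
    simp [h7]
  rw [e1, e2] at h5
  simpa using h5

end Mn

/-! ### Design B' -/

end Geo

end Pool.Agent.Lib.MP_688fd0_co.SQ5.H76
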