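import Mathlib
import Pool.Agent.Lib.MP_688fd0_co.SQ5.H20.Rung
import Pool.Agent.Lib.MP_688fd0_co.SQ5.H53.RegC
import Pool.Agent.Lib.MP_688fd0_co.SQ5.H76.RunB
import Pool.Agent.Lib.MP_688fd0_co.SQ5.H95.Core

/-!
MP_688fd0_co, type C2, FAR-3, design B' (helper76), row DEG4: in the rung graph (helper20's `Lam`) every strand which is not at
the border has at least four neighbours. Two consecutive blocks whose strip has half width 2 give different partners,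
if `t` does not invert `(a b)^2`.
-/

set_option autoImplicit false

namespace Pool.Agent.Lib.MP_688fd0_co.SQ5.H76.Deg

open Pool.Agent.Lib.MP_688fd0_co.OSF Pool.Agent.Lib.MP_688fd0_co.SQ5.H95 Pool.Agent.Lib.MP_688fd0_co.SQ5.H76 Bd
open Pool.Agent.Lib.MP_688fd0_co.SQ5.H53 (RegC.row RegC.nn RegC.sg RegC.lam RegC.mk RegC.Nod)
open Pool.Agent.Lib.MP_688fd0_co.SQ5

universe u v

section words

variable {Q : Type*} [Group Q] {q : L3 → Q}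

theorem not_comm (hq : ∀ i, q i * q i = 1) (hne : q .t * RegC.sg q ^ 2 * q .t ≠ (RegC.sg q ^ 2)⁻¹) (b : Bool) :
    RegC.sg q ^ 2 * LL q b ≠ LL q b * RegC.sg q ^ 2 := by
  intro h
  apply hne
  have hi : ∀ i, (q i)⁻¹ = q i := fun i => inv_eq_of_mul_eq_one_left (hq i)
  have hs : RegC.sg q = q .a * q .b := rfl
  -- both letters invert
  have ha : q .a * RegC.sg q ^ 2 * q .a = (RegC.sg q ^ 2)⁻¹ := by
    rw [hs, pow_two, mul_inv_rev, mul_inv_rev, hi, hi]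
    have : q .a * (q .a * q .b * (q .a * q .b)) * q .a = (q .a * q .a) * q .b * q .a * q .b * q .a := by
      simp only [mul_assoc]
    rw [this, hq, one_mul]
    simp only [mul_assoc]
  have hb : q .b * RegC.sg q ^ 2 * q .b = (RegC.sg q ^ 2)⁻¹ := by
    rw [hs, pow_two, mul_inv_rev, mul_inv_rev, hi, hi]
    have : q .b * (q .a * q .b * (q .a * q .b)) * q .b = q .b * q .a * q .b * q .a * (q .b * q .b) := by
      simp only [mul_assoc]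
    rw [this, hq, mul_one]
    simp only [mul_assoc]
  obtain ⟨w, hw, hw2, hL⟩ : ∃ w : Q, w * RegC.sg q ^ 2 * w = (RegC.sg q ^ 2)⁻¹ ∧ w * w = 1 ∧ LL q b = w * q .t := by
    cases b
    · exact ⟨q .b, hb, hq _, rfl⟩
    · exact ⟨q .a, ha, hq _, rfl⟩
  rw [hL] at h
  have h1 : w * (RegC.sg q ^ 2 * (w * q .t)) * q .t = w * (w * q .t * RegC.sg q ^ 2) * q .t := by rw [h]
  have h2 : w * (RegC.sg q ^ 2 * (w * q .t)) * q .t = w * RegC.sg q ^ 2 * w * (q .t * q .t) := by simp only [mul_assoc]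
  have h3 : w * (w * q .t * RegC.sg q ^ 2) * q .t = w * w * (q .t * RegC.sg q ^ 2 * q .t) := by simp only [mul_assoc]
  rw [h2, h3, hq, mul_one, hw2, one_mul, hw] at h1
  exact h1.symm

theorem lam_ne (hq : ∀ i, q i * q i = 1) (hne : q .t * RegC.sg q ^ 2 * q .t ≠ (RegC.sg q ^ 2)⁻¹) (D : Bd) (s n : ℤ) :
    RegC.lam q D s (n + 2) ≠ RegC.lam q D s n := by
  intro h
  apply not_comm hq hne (D.b s)
  unfold RegC.lam at h
  have h1 : RegC.sg q ^ (n + 2) * LL q (D.b s) * RegC.sg q ^ (-(n + 2)) =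
      RegC.sg q ^ n * (RegC.sg q ^ 2 * LL q (D.b s) * (RegC.sg q ^ 2)⁻¹) * RegC.sg q ^ (-n) := by group
  rw [h1] at h
  have h2 := mul_left_cancel (mul_right_cancel h)
  exact mul_inv_eq_iff_eq_mul.1 h2

end words

variable {Q : Type u} [Group Q] {B : Lb.{u, v} Q} {l : L3 → B.L} {L : AddSubgroup (ℤ × ℤ)} {c : Cov B l L} {D : Bd}
  {s0 κ0 κ1 : ℤ}

theorem rung_iff (m : ℤ) (s s' : Sd c D s0 κ0 κ1) :
    H20.Rung m s s' ↔ H53.RegC.Rung (qq B l) D s0 m s.1 s'.1 := by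
  unfold H20.Rung H53.RegC.Rung H20.df
  rw [H20.ps_eq, H20.ps_eq]

/-- Partners in the block `m`, labels differ by one. -/
def Pt (m : ℤ) (s s' : Sd c D s0 κ0 κ1) : Prop := H20.Rung m s s' ∨ H20.Rung m s' s

theorem pt_of_row (hi : ∀ i, B.inv (l i) = l i) {m : ℤ} {s s' : Sd c D s0 κ0 κ1}
    (h1 : s'.1.1 = s.1.1 + 1 ∨ s'.1.1 = s.1.1 - 1)
    (hr : RegC.row (qq B l) D s0 m s.1 = RegC.row (qq B l) D s0 m s'.1) : Pt m s s' := by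
  unfold Pt
  rw [rung_iff, rung_iff, H53.RegC.rung_iff D s0 (H53.RegC.hqq hi), H53.RegC.rung_iff D s0 (H53.RegC.hqq hi)]
  cases hb : D.b (s0 + m) <;> rcases h1 with h1 | h1
  · exact Or.inr ⟨by rw [h1]; simp, hr.symm⟩
  · exact Or.inl ⟨by rw [h1]; simp [sub_eq_add_neg], hr⟩
  · exact Or.inl ⟨by rw [h1]; simp, hr⟩
  · exact Or.inr ⟨by rw [h1]; simp, hr.symm⟩

/-- The partner with a given label. -/
theorem exists_pt (hi : ∀ i, B.inv (l i) = l i) (m : ℤ) (s : Sd c D s0 κ0 κ1) {κ : ℤ} (h0 : κ0 ≤ κ) (h1 : κ ≤ κ1) :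
    ∃ s' : Sd c D s0 κ0 κ1, s'.1.1 = κ ∧ RegC.row (qq B l) D s0 m s'.1 = RegC.row (qq B l) D s0 m s.1 := by
  have hs : RegC.Nod c D s0 κ0 κ1 s.1 := ⟨s.2.1, s.2.2.1, s.2.2.2⟩
  have h2 := H53.RegC.nod_mk c hi D (m := m) hs h0 h1
  exact ⟨⟨_, h2⟩, rfl, H53.RegC.row_mk _ _ _ _ _ _⟩

/-- Partners in consecutive blocks are different. -/
theorem pt_ne (hi : ∀ i, B.inv (l i) = l i)
    (hne : B.q (l .t) * (B.q (l .a) * B.q (l .b)) ^ 2 * B.q (l .t) ≠ ((B.q (l .a) * B.q (l .b)) ^ 2)⁻¹)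
    {m : ℤ} {s s1 s2 : Sd c D s0 κ0 κ1}
    (hl : (s1.1.1 = s.1.1 + 1 ∧ D.hw (s.1.1 - D.cs (s0 + m + 1)) = 2) ∨
      (s1.1.1 = s.1.1 - 1 ∧ D.hw (s.1.1 - 1 - D.cs (s0 + m + 1)) = 2))
    (h1 : RegC.row (qq B l) D s0 m s1.1 = RegC.row (qq B l) D s0 m s.1)
    (h2 : RegC.row (qq B l) D s0 (m + 1) s2.1 = RegC.row (qq B l) D s0 (m + 1) s.1) : s1 ≠ s2 := by
  rintro rfl
  have hq := H53.RegC.hqq hi
  rw [H53.RegC.row_succ D s0 hq, H53.RegC.row_succ D s0 hq, h1] at h2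
  have h3 := mul_left_cancel h2
  rcases hl with ⟨e, hw⟩ | ⟨e, hw⟩
  · have e1 : s1.1.1 - D.cs (s0 + m + 1) = s.1.1 - D.cs (s0 + m + 1) + 1 := by rw [e]; ring
    rw [e1, H53.RegC.nn_succ, hw] at h3
    exact lam_ne hq hne D (s0 + m) _ h3
  · have e1 : s.1.1 - D.cs (s0 + m + 1) = s1.1.1 - D.cs (s0 + m + 1) + 1 := by rw [e]; ring
    have e2 : s1.1.1 - D.cs (s0 + m + 1) = s.1.1 - 1 - D.cs (s0 + m + 1) := by rw [e]
    rw [e1, H53.RegC.nn_succ, e2, hw] at h3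
    exact lam_ne hq hne D (s0 + m) _ h3.symm

/-- THE DATA of the group: normal strips, blocks with the columns 0 and 2. -/
structure Dg (B : Lb.{u, v} Q) (l : L3 → B.L) (D : Bd) (s0 κ0 κ1 v0 v1 : ℤ) : Prop where
  lo : κ0 ≤ v0
  hi : v1 ≤ κ1
  wid : v0 + 2 ≤ v1
  hw : ∀ K, v0 - 1 ≤ K → K ≤ v1 - 2 → D.hw K = 2
  c0 : ∃ m : ℤ, D.cs (s0 + m + 1) = 0
  c2 : ∃ m : ℤ, D.cs (s0 + m + 1) = 2
  ne : B.q (l .t) * (B.q (l .a) * B.q (l .b)) ^ 2 * B.q (l .t) ≠ ((B.q (l .a) * B.q (l .b)) ^ 2)⁻¹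

namespace Dg

variable {v0 v1 : ℤ} (X : Dg B l D s0 κ0 κ1 v0 v1) (hi : ∀ i, B.inv (l i) = l i)
include X hi

theorem adj {m : ℤ} {s s' : Sd c D s0 κ0 κ1} (hs : v0 ≤ s.1.1 ∧ s.1.1 ≤ v1) (hs' : v0 ≤ s'.1.1 ∧ s'.1.1 ≤ v1)
    (h1 : s'.1.1 = s.1.1 + 1 ∨ s'.1.1 = s.1.1 - 1)
    (hr : RegC.row (qq B l) D s0 m s'.1 = RegC.row (qq B l) D s0 m s.1) : (H20.Lam c D s0 κ0 κ1 v0 v1).Adj s s' :=
  ⟨hs, hs', m, pt_of_row hi h1 hr.symm⟩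

/-- FOUR NEIGHBOURS. -/
theorem four {s : Sd c D s0 κ0 κ1} (h0 : v0 + 1 ≤ s.1.1) (h1 : s.1.1 ≤ v1 - 1) :
    Four (H20.Lam c D s0 κ0 κ1 v0 v1) s := by
  obtain ⟨m2, hm2⟩ := X.c2
  obtain ⟨m0, hm0⟩ := X.c0
  have a0 := X.lo
  have a1 := X.hi
  obtain ⟨u1, b1, r1⟩ := exists_pt hi m2 s (κ := s.1.1 + 1) (by omega) (by omega)
  obtain ⟨u2, b2, r2⟩ := exists_pt hi (m2 + 1) s (κ := s.1.1 + 1) (by omega) (by omega)
  obtain ⟨u3, b3, r3⟩ := exists_pt hi m0 s (κ := s.1.1 - 1) (by omega) (by omega)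
  obtain ⟨u4, b4, r4⟩ := exists_pt hi (m0 + 1) s (κ := s.1.1 - 1) (by omega) (by omega)
  have n12 : u1 ≠ u2 := by
    refine pt_ne hi X.ne (Or.inl ⟨b1, ?_⟩) r1 r2
    rw [hm2]
    exact X.hw _ (by omega) (by omega)
  have n34 : u3 ≠ u4 := by
    refine pt_ne hi X.ne (Or.inr ⟨b3, ?_⟩) r3 r4
    rw [hm0]
    exact X.hw _ (by omega) (by omega)
  have n13 : u1 ≠ u3 := fun h => by rw [h, b3] at b1; omega
  have n14 : u1 ≠ u4 := fun h => by rw [h, b4] at b1; omega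
  have n23 : u2 ≠ u3 := fun h => by rw [h, b3] at b2; omega
  have n24 : u2 ≠ u4 := fun h => by rw [h, b4] at b2; omega
  refine ⟨![u1, u2, u3, u4], ?_, ?_⟩
  · intro i j hij
    fin_cases i <;> fin_cases j <;> simp_all
  · have hs : v0 ≤ s.1.1 ∧ s.1.1 ≤ v1 := ⟨by omega, by omega⟩
    have c1 := X.adj hi hs ⟨by omega, by omega⟩ (Or.inl b1) r1
    have c2 := X.adj hi hs ⟨by omega, by omega⟩ (Or.inl b2) r2
    have c3 := X.adj hi hs ⟨by omega, by omega⟩ (Or.inr b3) r3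
    have c4 := X.adj hi hs ⟨by omega, by omega⟩ (Or.inr b4) r4
    intro i
    fin_cases i
    · exact c1
    · exact c2
    · exact c3
    · exact c4

omit hi in
theorem adj_lab {s s' : Sd c D s0 κ0 κ1} (h : (H20.Lam c D s0 κ0 κ1 v0 v1).Adj s s') :
    (v0 ≤ s.1.1 ∧ s.1.1 ≤ v1) ∧ (v0 ≤ s'.1.1 ∧ s'.1.1 ≤ v1) ∧ (s'.1.1 = s.1.1 + 1 ∨ s'.1.1 = s.1.1 - 1) := by
  obtain ⟨h1, h2, m, h | h⟩ := h
  · refine ⟨h1, h2, ?_⟩
    have := h.1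
    unfold H20.df at this
    split_ifs at this
    · exact Or.inl this
    · exact Or.inr this
  · refine ⟨h1, h2, ?_⟩
    have := h.1
    unfold H20.df at this
    split_ifs at this
    · right; omega
    · left; omega

/-- h4. -/
theorem four_or {s s' : Sd c D s0 κ0 κ1} (h : (H20.Lam c D s0 κ0 κ1 v0 v1).Adj s s') :
    Four (H20.Lam c D s0 κ0 κ1 v0 v1) s ∨ Four (H20.Lam c D s0 κ0 κ1 v0 v1) s' := by
  obtain ⟨h1, h2, h3⟩ := X.adj_lab h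
  have := X.wid
  by_cases h4 : v0 + 1 ≤ s.1.1 ∧ s.1.1 ≤ v1 - 1
  · exact Or.inl (X.four hi h4.1 h4.2)
  · exact Or.inr (X.four hi (by omega) (by omega))

/-- hiso. -/
theorem nonisolated {s : Sd c D s0 κ0 κ1} (h0 : v0 ≤ s.1.1) (h1 : s.1.1 ≤ v1) :
    ∃ s', (H20.Lam c D s0 κ0 κ1 v0 v1).Adj s s' := by
  have a0 := X.lo
  have a1 := X.hi
  have a2 := X.wid
  by_cases h : s.1.1 + 1 ≤ v1
  · obtain ⟨u1, b1, r1⟩ := exists_pt hi 0 s (κ := s.1.1 + 1) (by omega) (by omega)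
    exact ⟨u1, X.adj hi ⟨h0, h1⟩ ⟨by omega, by omega⟩ (Or.inl b1) r1⟩
  · obtain ⟨u1, b1, r1⟩ := exists_pt hi 0 s (κ := s.1.1 - 1) (by omega) (by omega)
    exact ⟨u1, X.adj hi ⟨h0, h1⟩ ⟨by omega, by omega⟩ (Or.inr b1) r1⟩

end Dg

/-! ### The induced graph -/

/-- The active strands. -/
def VV (c : Cov B l L) (D : Bd) (s0 κ0 κ1 v0 v1 : ℤ) : Set (Sd c D s0 κ0 κ1) := {s | v0 ≤ s.1.1 ∧ s.1.1 ≤ v1}

/-- The rung graph on the active strands. -/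
def LV (c : Cov B l L) (D : Bd) (s0 κ0 κ1 v0 v1 : ℤ) : SimpleGraph (VV c D s0 κ0 κ1 v0 v1) :=
  (H20.Lam c D s0 κ0 κ1 v0 v1).induce (VV c D s0 κ0 κ1 v0 v1)

theorem LV_adj {v0 v1 : ℤ} {s s' : VV c D s0 κ0 κ1 v0 v1} : (LV c D s0 κ0 κ1 v0 v1).Adj s s' ↔
    (H20.Lam c D s0 κ0 κ1 v0 v1).Adj s.1 s'.1 := Iff.rfl

theorem four_LV {v0 v1 : ℤ} {s : VV c D s0 κ0 κ1 v0 v1} (h : Four (H20.Lam c D s0 κ0 κ1 v0 v1) s.1) :
    Four (LV c D s0 κ0 κ1 v0 v1) s := by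
  obtain ⟨f, hf, ha⟩ := h
  refine ⟨fun i => ⟨f i, (ha i).2.1⟩, fun i j hij => hf (congrArg Subtype.val hij), fun i => ha i⟩

namespace Dg

variable {v0 v1 : ℤ} (X : Dg B l D s0 κ0 κ1 v0 v1) (hi : ∀ i, B.inv (l i) = l i)
include X hi

/-- h4 of `far_core`. -/
theorem h4 (x y : VV c D s0 κ0 κ1 v0 v1) (h : (LV c D s0 κ0 κ1 v0 v1).Adj x y) :
    Four (LV c D s0 κ0 κ1 v0 v1) x ∨ Four (LV c D s0 κ0 κ1 v0 v1) y :=
  (X.four_or hi (LV_adj.1 h)).imp four_LV four_LV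

/-- hiso of `far_core`. -/
theorem hiso (x : VV c D s0 κ0 κ1 v0 v1) : ∃ y, (LV c D s0 κ0 κ1 v0 v1).Adj x y := by
  obtain ⟨y, hy⟩ := X.nonisolated hi x.2.1 x.2.2
  exact ⟨⟨y, hy.2.1⟩, hy⟩

end Dg

/-- The runs of the main group. -/
theorem dg_mn {M R : ℕ} {dc : ℕ → ℤ} {spc : ℕ → Prop} {G : ℤ} {g : Geo L M R dc spc G} {m0 : ℕ} {hw : ℤ → ℕ}
    (H : Geo.Mn g m0 hw) (z : ℤ) {v0 v1 : ℤ} (h0 : κ0 ≤ v0) (h1 : v1 ≤ κ1) (h2 : v0 + 2 ≤ v1)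
    (hhw : ∀ K, v0 - 1 ≤ K → K ≤ v1 - 2 → hw K = 2)
    (hne : B.q (l .t) * (B.q (l .a) * B.q (l .b)) ^ 2 * B.q (l .t) ≠ ((B.q (l .a) * B.q (l .b)) ^ 2)⁻¹) :
    Dg B l (H.bd z) (g.rs z) κ0 κ1 v0 v1 := by
  have key : ∀ m : ℤ, (H.bd z).cs (g.rs z + m + 1) = col (g.rp z + m + 1) := by
    intro m
    show col (g.rp z + (g.rs z + m + 1 - g.rs z)) = _
    congr 1
    ring
  refine ⟨h0, h1, h2, hhw, ⟨-1 - g.rp z, ?_⟩, ⟨1 - g.rp z, ?_⟩, hne⟩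
  · rw [key]
    have e : g.rp z + (-1 - g.rp z) + 1 = 0 := by ring
    rw [e]
    rfl
  · rw [key]
    have e : g.rp z + (1 - g.rp z) + 1 = 2 := by ring
    rw [e]
    rfl

end Pool.Agent.Lib.MP_688fd0_co.SQ5.H76.Deg
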