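import Mathlib
import Pool.Agent.Lib.MP_688fd0_co.SQ5.H76.Deg4
import Pool.Agent.Lib.MP_688fd0_co.SQ5.H95.FarB
import Pool.Agent.Lib.MP_688fd0_co.SQ5.H59.Degen

/-!
MP_688fd0_co, type C2, FAR-3, design B' (helper76), row DEG4 in the form of `H95.lst_of_rows`: `lamV_h4`, `lamV_hiso`, and the
condition (`t` does not invert `(a b)^2`) from `NCen`.
-/

set_option autoImplicit false

namespace Pool.Agent.Lib.MP_688fd0_co.SQ5.H76.Deg

open Pool.Agent.Lib.MP_688fd0_co.OSF Pool.Agent.Lib.MP_688fd0_co.SQ5.H95 Pool.Agent.Lib.MP_688fd0_co.SQ5.H76 Bd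
open Pool.Agent.Lib.MP_688fd0_co.SQ5 H24

universe u v

section ncen

variable {Q : Type u} [Group Q] {eps : Q →* ℤˣ}

/-- If the three involutions invert `s` then `ker eps` commutes with `s`. -/
theorem comm_of_inv {a t b s : Q} (ha : a * a = 1) (ht : t * t = 1) (hb : b * b = 1) (ea : eps a = -1)
    (et : eps t = -1) (eb : eps b = -1) (hgen : Subgroup.closure {a, t, b} = ⊤) (h1 : a * s * a = s⁻¹)
    (h2 : t * s * t = s⁻¹) (h3 : b * s * b = s⁻¹) (g : Q) (hg : eps g = 1) : g * s = s * g := by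
  have key : ∀ g : Q, (eps g = 1 → g * s = s * g) ∧ (eps g = -1 → g * s = s⁻¹ * g) := by
    intro g
    have hgm : g ∈ Subgroup.closure {a, t, b} := by rw [hgen]; trivial
    have step : ∀ g x : Q, x * x = 1 → eps x = -1 → x * s * x = s⁻¹ →
        ((eps g = 1 → g * s = s * g) ∧ (eps g = -1 → g * s = s⁻¹ * g)) →
        ((eps (g * x) = 1 → g * x * s = s * (g * x)) ∧ (eps (g * x) = -1 → g * x * s = s⁻¹ * (g * x))) := by
      intro g x hx ex hs h
      have e1 : x * s = s⁻¹ * x := by rw [← hs, mul_assoc, mul_assoc, hx, mul_one]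
      have eg : eps (g * x) = - eps g := by rw [map_mul, ex, mul_neg, mul_one]
      have e2 : g * x * s = g * s⁻¹ * x := by rw [mul_assoc, e1, mul_assoc]
      constructor
      · intro he
        rw [eg] at he
        have h4 := h.2 (neg_eq_iff_eq_neg.1 he)
        have h5 : g * s⁻¹ = s * g := by
          rw [mul_inv_eq_iff_eq_mul, mul_assoc, h4, mul_inv_cancel_left]
        rw [e2, h5, mul_assoc]
      · intro he
        rw [eg] at he
        have h4 := h.1 (neg_injective he)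
        have h5 : g * s⁻¹ = s⁻¹ * g := by
          rw [mul_inv_eq_iff_eq_mul, mul_assoc, h4, inv_mul_cancel_left]
        rw [e2, h5, mul_assoc]
    have hx : ∀ x ∈ ({a, t, b} : Set Q), x * x = 1 ∧ eps x = -1 ∧ x * s * x = s⁻¹ := by
      rintro x (rfl | rfl | hx)
      · exact ⟨ha, ea, h1⟩
      · exact ⟨ht, et, h2⟩
      · rw [Set.mem_singleton_iff] at hx
        rw [hx]
        exact ⟨hb, eb, h3⟩
    induction hgm using Subgroup.closure_induction_right with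
    | one =>
      refine ⟨fun _ => by rw [one_mul, mul_one], fun h => ?_⟩
      rw [map_one] at h
      exact absurd h (by decide)
    | mul_right g _ x hxm ih => exact step g x (hx x hxm).1 (hx x hxm).2.1 (hx x hxm).2.2 ih
    | mul_inv_cancel g _ x hxm ih =>
      have e : x⁻¹ = x := inv_eq_of_mul_eq_one_right (hx x hxm).1
      rw [e]
      exact step g x (hx x hxm).1 (hx x hxm).2.1 (hx x hxm).2.2 ih
  exact (key g).1 hg

/-- `(a b)^n` is inverted by `a` and `b`. -/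
theorem inv_ab {a b : Q} (ha : a * a = 1) (hb : b * b = 1) (n : ℕ) :
    a * (a * b) ^ n * a = ((a * b) ^ n)⁻¹ ∧ b * (a * b) ^ n * b = ((a * b) ^ n)⁻¹ := by
  have ia : a⁻¹ = a := inv_eq_of_mul_eq_one_right ha
  have ib : b⁻¹ = b := inv_eq_of_mul_eq_one_right hb
  constructor
  · have h1 : a * (a * b) ^ n * a⁻¹ = (a * (a * b) * a⁻¹) ^ n := (conj_pow).symm
    rw [ia] at h1
    rw [h1, ← inv_pow, mul_inv_rev, ia, ib, ← mul_assoc a a b, ha, one_mul]
  · have h1 : b * (a * b) ^ n * b⁻¹ = (b * (a * b) * b⁻¹) ^ n := (conj_pow).symm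
    rw [ib] at h1
    rw [h1, ← inv_pow, mul_inv_rev, ia, ib, mul_assoc b (a * b) b, mul_assoc a b b, hb, mul_one]

/-- THE CONDITION from `NCen`. -/
theorem ne_of_ncen {a t b : Q} (ha : a * a = 1) (ht : t * t = 1) (hb : b * b = 1) (ea : eps a = -1)
    (et : eps t = -1) (eb : eps b = -1) (hgen : Subgroup.closure {a, t, b} = ⊤)
    (h : H59.NCen eps ((a * b) * (a * b))) : t * (a * b) ^ 2 * t ≠ ((a * b) ^ 2)⁻¹ := by
  intro h2
  obtain ⟨g, hg, hne⟩ := h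
  apply hne
  rw [← pow_two]
  exact comm_of_inv ha ht hb ea et eb hgen (inv_ab ha hb 2).1 h2 (inv_ab ha hb 2).2 g hg

end ncen

section rows

variable {L : AddSubgroup (ℤ × ℤ)} {M R : ℕ} {dc : ℕ → ℤ} {spc : ℕ → Prop} {Gr : ℤ} {g : Geo L M R dc spc Gr} {m0 : ℕ}
  {hw : ℤ → ℕ} (H : Geo.Mn g m0 hw) {Q : Type u} [Group Q] {B : Lb.{u, v} Q} {l : L3 → B.L} (c : Cov B l L)
  (hi : ∀ i, B.inv (l i) = l i) {κ0 κ1 v0 v1 : ℤ} (h0 : κ0 ≤ v0) (h1 : v1 ≤ κ1) (h2 : v0 + 2 ≤ v1)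
  (hhw : ∀ K, v0 - 1 ≤ K → K ≤ v1 - 2 → hw K = 2)
  (hne : B.q (l .t) * (B.q (l .a) * B.q (l .b)) ^ 2 * B.q (l .t) ≠ ((B.q (l .a) * B.q (l .b)) ^ 2)⁻¹)

include hi h0 h1 h2 hhw hne

/-- ROW h4. -/
theorem lamV_h4 (z : Zr g) (x y : H95.VV c H κ0 κ1 v0 v1 z) (h : (LamV H c κ0 κ1 v0 v1 z).Adj x y) :
    Four (LamV H c κ0 κ1 v0 v1 z) x ∨ Four (LamV H c κ0 κ1 v0 v1 z) y :=
  (dg_mn H z h0 h1 h2 hhw hne).h4 hi x y h

/-- ROW hiso. -/
theorem lamV_hiso (z : Zr g) (x : H95.VV c H κ0 κ1 v0 v1 z) : ∃ y, (LamV H c κ0 κ1 v0 v1 z).Adj x y :=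
  (dg_mn H z h0 h1 h2 hhw hne).hiso hi x

end rows

/-- The strips of the group in design B'. -/
theorem hwB_two {r w : ℕ} (K : ℤ) (h0 : (r : ℤ) + 2 - 1 ≤ K) (h1 : K ≤ (r : ℤ) + w + 1 - 2) : hwB r w K = 2 := by
  unfold hwB
  rw [if_neg (by omega)]

end Pool.Agent.Lib.MP_688fd0_co.SQ5.H76.Deg
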