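import Mathlib
import Pool.Agent.Lib.MP_688fd0_co.SQ5.H76.Word

/-!
MP_688fd0_co, type C2, case B3, THE LAYOUT OF THE WALLS (helper76).

A pattern of walls with phases. The layout itself is in Geo.lean.
-/

set_option autoImplicit false

namespace Pool.Agent.Lib.MP_688fd0_co.SQ5.H76

/-- A pattern of walls with phases. -/
structure PPat extends Pat where
  P : ℤ → ℤ → ℤ
  hW : ∀ K s, W K s = bw (P K s)
  hP : ∀ K s, P K (s + 1) = P K s + 1 ∨ ((P K s % 8 = 2 ∨ P K s % 8 = 6) ∧ P K (s + 1) = P K s - 2)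
  /-- the strip between the walls `K` and `K + 1` is special (or the sea) -/
  sp : ℤ → Prop
  al : ∀ K, ¬ sp K → ∀ s, P (K + 1) s = P K s
  off : ∀ K, sp K → ∀ s,
    (P K s - P (K + 1) s) % 8 = 0 ∨ (P K s - P (K + 1) s) % 8 = 3 ∨ (P K s - P (K + 1) s) % 8 = 5
  iso : ∀ K, sp K → ¬ sp (K + 1) ∧ ¬ sp (K + 2)
  G : ℤ
  far : ∀ K s s', P K (s + 1) = P K s - 2 → P K (s' + 1) = P K s' - 2 → s < s' → s + G ≤ s'

/-- The quotient of a successor. -/
theorem div_succ {n q : ℤ} (hn : 0 < n) : ((q + 1) % n = 0 ∧ (q + 1) / n = q / n + 1 ∧ q % n = n - 1) ∨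
    ((q + 1) % n = q % n + 1 ∧ (q + 1) / n = q / n ∧ q % n + 1 < n) := by
  have h0 := Int.emod_nonneg q (ne_of_gt hn)
  have h1 := Int.emod_lt_of_pos q hn
  have e1 := Int.emod_add_mul_ediv q n
  rcases lt_or_eq_of_le (show q % n + 1 ≤ n by omega) with h | h
  · right
    have e : q + 1 = q % n + 1 + n * (q / n) := by linarith
    refine ⟨?_, ?_, h⟩
    · rw [e, Int.add_mul_emod_self_left]
      exact Int.emod_eq_of_lt (by omega) h
    · rw [e, Int.add_mul_ediv_left _ _ (ne_of_gt hn), Int.ediv_eq_zero_of_lt (by omega) h]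
      omega
  · left
    have e : q + 1 = n * (q / n + 1) := by linarith
    refine ⟨?_, ?_, by omega⟩
    · rw [e, Int.mul_emod_right]
    · rw [e, Int.mul_ediv_cancel_left _ (ne_of_gt hn)]

end Pool.Agent.Lib.MP_688fd0_co.SQ5.H76
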