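import Mathlib
import Pool.Agent.Lib.MP_688fd0_co.SQ5.H76.Lay
import Pool.Agent.Lib.MP_688fd0_co.SQ5.H66.Walls

/-!
MP_688fd0_co, type C2, case B3, THE LAYOUT OF THE WALLS (helper76).

A copy of the block has `R` walls. The wall `k + 1` is the wall `k` translated by `dc k` columns and `dl k` levels: either
`dl k = 0` (aligned) or `dl k = 3 mod 8`, `0 < dl k ≤ G` (special strip, `spc k`). After the wall `R - 1` there is the sea and
everything is repeated with the translation `w_1 = (i1, j1)`. All walls are invariant under `w_0 = (i0, j0)`.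
-/

set_option autoImplicit false

namespace Pool.Agent.Lib.MP_688fd0_co.SQ5.H76

/-- The data of the base. -/
structure Geo (L : AddSubgroup (ℤ × ℤ)) (M R : ℕ) (dc : ℕ → ℤ) (spc : ℕ → Prop) (G : ℤ) where
  i0 : ℤ
  j0 : ℤ
  i1 : ℤ
  j1 : ℤ
  X : ℤ
  n : ℤ
  dl : ℕ → ℤ
  w : Word (i0 + j0) (i0 - j0) G X
  in0 : (i0, j0) ∈ L
  in1 : (i1, j1) ∈ L
  ker : ∀ i j, (i, j) ∈ L → ∃ x y : ℤ, i = x * i0 + y * i1 ∧ j = x * j0 + y * j1
  det : j0 * i1 - i0 * j1 = M
  c0_nonneg : 0 ≤ i0 - j0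
  l0_pos : 0 < i0 + j0
  R3 : 3 ≤ R
  kind : ∀ k, k + 1 < R → (¬ spc k ∧ dl k = 0 ∧ 2 ≤ dc k ∧ dc k % 2 = 0) ∨
    (spc k ∧ dl k % 8 = 3 ∧ 0 < dl k ∧ dl k ≤ G ∧ 5 ≤ dc k ∧ dc k % 2 = 1)
  iso : ∀ k, k + 1 < R → spc k → 2 ≤ k ∧ k + 3 < R ∧ ¬ spc (k + 1) ∧ ¬ spc (k + 2)
  hn1 : (n - 1) * (i0 + j0) ≤ w.Et * (i1 + j1 - ∑ j ∈ Finset.range (R - 1), dl j)
  hn2 : w.Et * (i1 + j1 - ∑ j ∈ Finset.range (R - 1), dl j) < (n + 1) * (i0 + j0)
  hph : (i1 + j1 - ∑ j ∈ Finset.range (R - 1), dl j - 3 * n) % 8 = 0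
  sep : ∀ n m, w.e n + (64 + 2 * X) ≤ w.e m + (i1 + j1 - ∑ j ∈ Finset.range (R - 1), dl j) ∨
    w.e m + (i1 + j1 - ∑ j ∈ Finset.range (R - 1), dl j) + (64 + 2 * X) ≤ w.e n
  wide : (i0 + j0) * (∑ j ∈ Finset.range (R - 1), dc j + 3 * R + 10 + 2 * X) ≤ 2 * M
  G1 : 1 ≤ G
  X0 : 0 ≤ X

namespace Geo

variable {L : AddSubgroup (ℤ × ℤ)} {M R : ℕ} {dc : ℕ → ℤ} {spc : ℕ → Prop} {G : ℤ} (g : Geo L M R dc spc G)

/-- Column of the wall `k : ℕ` of the copy 0. -/
def cc (dc : ℕ → ℤ) (k : ℕ) : ℤ := ∑ j ∈ Finset.range k, dc j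

/-- Level of the wall `k : ℕ` of the copy 0. -/
def ll (k : ℕ) : ℤ := ∑ j ∈ Finset.range k, g.dl j

/-- The shift of the sea. -/
def sh : ℤ := g.i1 + g.j1 - g.ll (R - 1)

/-- Level shift of the wall `K`. -/
def Lv (K : ℤ) : ℤ := K / R * (g.i1 + g.j1) + g.ll (K % R).toNat

/-- Column shift of the wall `K`. -/
def Cv (K : ℤ) : ℤ := K / R * (g.i1 - g.j1) + cc dc (K % R).toNat

/-- The changes of the type of the events are far from each other, and the changes at the two shores of the sea are never at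
about the same level (helper66's FLUSH). -/
structure Str (m : ℤ) : Prop where
  str : ∀ u v, g.w.chg u → g.w.chg v → u ≠ v → m ≤ |u - v|
  nco : ∀ u v, g.w.aev (u - 1) → g.w.bev u → g.w.bev (v - 1) → g.w.aev v → m ≤ |v + g.n - u|

/-- Column of the wall `K` at level `s`. -/
def C (K s : ℤ) : ℤ := g.Cv K + g.w.C (s - g.Lv K)

/-- Phase of the wall `K` at level `s`. -/
def P (K s : ℤ) : ℤ := g.w.P (s - g.Lv K)

include g in
theorem R_pos : (0 : ℤ) < R := by have := g.R3; omega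

theorem cc_succ (k : ℕ) : cc dc (k + 1) = cc dc k + dc k := by
  unfold cc; rw [Finset.sum_range_succ]

theorem ll_succ (k : ℕ) : g.ll (k + 1) = g.ll k + g.dl k := by
  unfold ll; rw [Finset.sum_range_succ]

theorem ll_nonneg (k : ℕ) (hk : k < R) : 0 ≤ g.ll k := by
  induction k with
  | zero => simp [ll]
  | succ k ih =>
    have := ih (by omega)
    rw [ll_succ]
    rcases g.kind k hk with h | h
    · linarith
    · linarith

theorem cl_par (k : ℕ) (hk : k < R) : (cc dc k - g.ll k) % 2 = 0 := by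
  induction k with
  | zero => simp [cc, ll]
  | succ k ih =>
    have := ih (by omega)
    rw [ll_succ, cc_succ]
    rcases g.kind k hk with h | h
    · omega
    · omega

include g in
theorem mod_lt (K : ℤ) : (K % R).toNat < R := by
  have h0 := Int.emod_nonneg K (ne_of_gt g.R_pos)
  have h1 := Int.emod_lt_of_pos K g.R_pos
  omega

/-- Consecutive walls. -/
theorem succ_cases (K : ℤ) :
    ((K % R).toNat + 1 < R ∧ (K + 1) % R = K % R + 1 ∧ g.Lv (K + 1) = g.Lv K + g.dl (K % R).toNat ∧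
      g.Cv (K + 1) = g.Cv K + dc (K % R).toNat) ∨
    (K % R = R - 1 ∧ (K + 1) % R = 0 ∧ g.Lv (K + 1) = g.Lv K + g.sh ∧
      g.Cv (K + 1) = g.Cv K + (g.i1 - g.j1 - cc dc (R - 1))) := by
  have h0 := Int.emod_nonneg K (ne_of_gt g.R_pos)
  rcases div_succ (q := K) g.R_pos with ⟨h1, h2, h3⟩ | ⟨h1, h2, h3⟩
  · right
    have e : (K % R).toNat = R - 1 := by omega
    refine ⟨h3, h1, ?_, ?_⟩
    · unfold Lv sh
      rw [h1, h2, e]
      simp only [Int.toNat_zero]
      have : g.ll 0 = 0 := by simp [ll]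
      rw [this]
      ring
    · unfold Cv
      rw [h1, h2, e]
      simp only [Int.toNat_zero]
      have : cc dc 0 = 0 := by simp [cc]
      rw [this]
      ring
  · left
    have e : (K % R + 1).toNat = (K % R).toNat + 1 := by omega
    refine ⟨by omega, h1, ?_, ?_⟩
    · unfold Lv
      rw [h1, h2, e, ll_succ]
      ring
    · unfold Cv
      rw [h1, h2, e, cc_succ]
      ring

theorem Cv_par (K : ℤ) : (g.Cv K - g.Lv K) % 2 = 0 := by
  unfold Cv Lv
  have h := g.cl_par (K % R).toNat (g.mod_lt K)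
  set m := K / R
  have e : m * (g.i1 - g.j1) = m * (g.i1 + g.j1) - 2 * (m * g.j1) := by ring
  rw [e]
  omega

theorem Cv_per (K : ℤ) : g.Cv (K + R) = g.Cv K + (g.i1 - g.j1) := by
  unfold Cv
  have h1 : (K + R) / (R : ℤ) = K / R + 1 := by
    rw [Int.add_ediv_of_dvd_right (dvd_refl _), Int.ediv_self (ne_of_gt g.R_pos)]
  have h2 : (K + R) % (R : ℤ) = K % R := by simp
  rw [h1, h2]
  ring

theorem Lv_per (K : ℤ) : g.Lv (K + R) = g.Lv K + (g.i1 + g.j1) := by
  unfold Lv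
  have h1 : (K + R) / (R : ℤ) = K / R + 1 := by
    rw [Int.add_ediv_of_dvd_right (dvd_refl _), Int.ediv_self (ne_of_gt g.R_pos)]
  have h2 : (K + R) % (R : ℤ) = K % R := by simp
  rw [h1, h2]
  ring

/-! ### The column function of the word -/

end Geo

namespace Word

variable {l0 c0 G X : ℤ} (w : Word l0 c0 G X)

theorem e_mono (hG : 1 ≤ G) : StrictMono w.e := strictMono_int_of_lt_succ fun n => by
  have := w.he n
  linarith

/-- The number of events. -/
theorem N_mono (hG : 1 ≤ G) {s s' : ℤ} (h : s ≤ s') : w.N s ≤ w.N s' := by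
  have h1 := w.lt_N s
  have h2 := w.N_le s'
  have := (w.e_mono hG).lt_iff_lt.1 (lt_of_lt_of_le h1 (h.trans h2))
  omega

/-- There is at most one event in a short interval. -/
theorem N_short (hG : 1 ≤ G) {s s' : ℤ} (h : s ≤ s') (h' : s' ≤ s + G) : w.N s' = w.N s ∨ w.N s' = w.N s + 1 := by
  have h0 := w.N_mono hG h
  by_contra hcon
  have h1 := w.N_le s
  have h2 := w.lt_N s'
  have h3 := (w.e_mono hG).monotone (show w.N s + 1 ≤ w.N s' - 1 by omega)
  have h4 := w.he (w.N s)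
  omega

/-- The accumulated displacement. -/
def A (s : ℤ) : ℤ := w.C s - col (w.P s)

theorem A_succ (hG : 1 ≤ G) (s : ℤ) :
    (w.N (s + 1) = w.N s ∧ w.A (s + 1) = w.A s) ∨
      (w.N (s + 1) = w.N s + 1 ∧ (w.A (s + 1) = w.A s + 1 ∨ w.A (s + 1) = w.A s - 1)) := by
  unfold A P
  rw [w.hC]
  rcases w.N_succ hG s with ⟨h, _⟩ | ⟨h, h'⟩
  · left
    refine ⟨h, ?_⟩
    rw [h]
    have := col_succ (s - 3 * w.N s)
    have e : s + 1 - 3 * w.N s = s - 3 * w.N s + 1 := by ring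
    rw [e, this]
    ring
  · right
    refine ⟨h, ?_⟩
    rw [h]
    have hp := w.ph (w.N s)
    rw [← h'] at hp
    have e : s + 1 - 3 * (w.N s + 1) = s - 3 * w.N s + 1 - 3 := by ring
    rw [e]
    rcases hp with hp | hp
    · left
      have := col_ev_a hp
      linarith
    · right
      have := col_ev_b hp
      linarith

theorem A_short (hG : 1 ≤ G) (s : ℤ) (k : ℕ) :
    w.A s - (w.N (s + k) - w.N s) ≤ w.A (s + k) ∧ w.A (s + k) ≤ w.A s + (w.N (s + k) - w.N s) := by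
  induction k with
  | zero => simp
  | succ k ih =>
    have e : s + ((k + 1 : ℕ) : ℤ) = s + k + 1 := by push_cast; ring
    rw [e]
    rcases w.A_succ hG (s + k) with ⟨h1, h2⟩ | ⟨h1, h2 | h2⟩ <;> rw [h1, h2] <;> constructor <;> linarith [ih.1, ih.2]

/-- The column changes by at most 3 in a short interval. -/
theorem C_short (hG : 1 ≤ G) {s s' : ℤ} (h : s ≤ s') (h' : s' ≤ s + G) : w.C s - 3 ≤ w.C s' ∧ w.C s' ≤ w.C s + 3 := by
  obtain ⟨k, rfl⟩ : ∃ k : ℕ, s' = s + k := ⟨(s' - s).toNat, by omega⟩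
  have h1 := w.A_short hG s k
  have h2 := w.N_short hG h h'
  have h3 := col_nonneg (w.P s)
  have h4 := col_le (w.P s)
  have h5 := col_nonneg (w.P (s + k))
  have h6 := col_le (w.P (s + k))
  unfold A at h1
  rcases h2 with h2 | h2 <;> rw [h2] at h1 <;> constructor <;> linarith [h1.1, h1.2]

include w in
theorem l0_pos (hG : 1 ≤ G) : 0 < l0 := by
  have h1 := w.eEt 0
  have h2 := w.Et8
  have h3 := w.e_mono hG (show (0 : ℤ) < 0 + w.Et by omega)
  omega

/-- The difference of the number of events takes only two values, if the events are separated. -/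
theorem two (hG : 1 ≤ G) (hX : 0 ≤ X) {σ : ℤ}
    (hsep : ∀ n m, w.e n + (64 + 2 * X) ≤ w.e m + σ ∨ w.e m + σ + (64 + 2 * X) ≤ w.e n) (s : ℤ) :
    w.N s - w.N (s - σ) = w.Et * σ / l0 ∨ w.N s - w.N (s - σ) = w.Et * σ / l0 + 1 := by
  have hl := w.l0_pos hG
  have hE := w.Et8
  have a1 := w.lt_N s
  have a2 := w.N_le s
  have a3 := w.lt_N (s - σ)
  have a4 := w.N_le (s - σ)
  set n := w.N s
  set m := w.N (s - σ)
  have b1 : w.e (n - 1) + (64 + 2 * X) ≤ w.e m + σ := by
    rcases hsep (n - 1) m with h | h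
    · exact h
    · exfalso; omega
  have b2 : w.e (m - 1) + σ + (64 + 2 * X) ≤ w.e n := by
    rcases hsep n (m - 1) with h | h
    · exfalso; omega
    · exact h
  have c1 := (w.eb (n - 1)).1
  have c2 := (w.eb m).2
  have c3 := (w.eb (m - 1)).1
  have c4 := (w.eb n).2
  have d1 := mul_le_mul_of_nonneg_left b1 (show (0 : ℤ) ≤ w.Et by omega)
  have d2 := mul_le_mul_of_nonneg_left b2 (show (0 : ℤ) ≤ w.Et by omega)
  have f1 : (n - m - 1) * l0 ≤ w.Et * σ := by nlinarith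
  have f2 : w.Et * σ < (n - m + 1) * l0 := by nlinarith
  have g1 : n - m - 1 ≤ w.Et * σ / l0 := (Int.le_ediv_iff_mul_le hl).2 f1
  have g2 : w.Et * σ / l0 < n - m + 1 := (Int.ediv_lt_iff_lt_mul hl).2 f2
  omega

end Word

namespace Geo

variable {L : AddSubgroup (ℤ × ℤ)} {M R : ℕ} {dc : ℕ → ℤ} {spc : ℕ → Prop} {G : ℤ} (g : Geo L M R dc spc G)

/-- The sea is wide. -/
theorem sea_wide (s : ℤ) : 3 * R + 10 ≤ (g.i1 - g.j1 - cc dc (R - 1)) + g.w.C (s - g.sh) - g.w.C s := by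
  have hl := g.l0_pos
  have hb1 := (g.w.bal (s - g.sh)).1
  have hb2 := (g.w.bal s).2
  have hd := g.det
  have hw := g.wide
  have hR := g.R3
  have hll := g.ll_nonneg (R - 1) (by omega)
  have hc := mul_nonneg g.c0_nonneg hll
  have key : (g.i0 + g.j0) * (3 * R + 10) ≤ (g.i0 + g.j0) *
      ((g.i1 - g.j1 - cc dc (R - 1)) + g.w.C (s - g.sh) - g.w.C s) := by
    have e1 : (g.i0 + g.j0) * (g.i1 - g.j1) - (g.i0 - g.j0) * (g.i1 + g.j1) = 2 * (M : ℤ) := by
      rw [← hd]; ring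
    have e4 : g.sh = g.i1 + g.j1 - g.ll (R - 1) := rfl
    have e6 : ∑ j ∈ Finset.range (R - 1), dc j = cc dc (R - 1) := rfl
    rw [e6] at hw
    have e5 : (g.i0 - g.j0) * (s - g.sh) = (g.i0 - g.j0) * s - (g.i0 - g.j0) * (g.i1 + g.j1) +
        (g.i0 - g.j0) * g.ll (R - 1) := by rw [e4]; ring
    rw [e5] at hb1
    linarith
  exact le_of_mul_le_mul_left key hl

theorem hC' (K s : ℤ) : g.C K (s + 1) = g.C K s + if bw (g.P K s) = true then 1 else -1 := by
  unfold C P Word.P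
  have e : s + 1 - g.Lv K = s - g.Lv K + 1 := by ring
  rw [e, g.w.hC]
  ring

theorem par' (K s : ℤ) : (g.C K s - s) % 2 = 0 := by
  unfold C
  have h1 := g.Cv_par K
  have h2 := g.w.par (s - g.Lv K)
  omega

/-- Translation of a wall inside a copy. -/
theorem C_tr {K : ℤ} (h : (K % R).toNat + 1 < R) (s : ℤ) :
    g.C (K + 1) (s + g.dl (K % R).toNat) = g.C K s + dc (K % R).toNat := by
  unfold C
  rcases g.succ_cases K with ⟨h1, h2, h3, h4⟩ | ⟨h1, _⟩
  · rw [h3, h4]
    have e : s + g.dl (K % R).toNat - (g.Lv K + g.dl (K % R).toNat) = s - g.Lv K := by ring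
    rw [e]
    ring
  · exfalso; omega

theorem P_tr {K : ℤ} (h : (K % R).toNat + 1 < R) (s : ℤ) :
    g.P (K + 1) (s + g.dl (K % R).toNat) = g.P K s := by
  unfold P
  rcases g.succ_cases K with ⟨h1, h2, h3, h4⟩ | ⟨h1, _⟩
  · rw [h3]
    have e : s + g.dl (K % R).toNat - (g.Lv K + g.dl (K % R).toNat) = s - g.Lv K := by ring
    rw [e]
  · exfalso; omega

/-- The distance of consecutive walls inside a copy. -/
theorem gap_in {K : ℤ} (h : (K % R).toNat + 1 < R) (s : ℤ) :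
    g.C K s + 2 ≤ g.C (K + 1) s ∧ g.C (K + 1) s ≤ g.C K s + dc (K % R).toNat + 3 := by
  have h1 := g.C_tr h (s - g.dl (K % R).toNat)
  rw [sub_add_cancel] at h1
  rw [h1]
  rcases g.kind _ h with ⟨_, h2, h3, _⟩ | ⟨_, h2, h3, h4, h5, _⟩
  · rw [h2, sub_zero]
    constructor <;> linarith
  · unfold C
    have h6 := g.w.C_short g.G1 (s := s - g.dl (K % R).toNat - g.Lv K) (s' := s - g.Lv K) (by omega) (by omega)
    constructor <;> linarith [h6.1, h6.2]

/-- An aligned strip has constant width. -/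
theorem gap_al {K : ℤ} (h : (K % R).toNat + 1 < R) (h' : ¬ spc (K % R).toNat) (s : ℤ) :
    g.C (K + 1) s = g.C K s + dc (K % R).toNat := by
  have h1 := g.C_tr h s
  rcases g.kind _ h with ⟨_, h2, _⟩ | ⟨h0, _⟩
  · rw [h2, add_zero] at h1
    exact h1
  · exact absurd h0 h'

theorem gap_sea {K : ℤ} (h : K % R = R - 1) (s : ℤ) : g.C K s + (3 * R + 10) ≤ g.C (K + 1) s := by
  rcases g.succ_cases K with ⟨h1, _⟩ | ⟨_, _, h3, h4⟩
  · exfalso; omega
  · unfold C
    rw [h3, h4]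
    have := g.sea_wide (s - g.Lv K)
    have e : s - (g.Lv K + g.sh) = s - g.Lv K - g.sh := by ring
    rw [e]
    linarith

include g in
theorem in_or_sea (K : ℤ) : (K % R).toNat + 1 < R ∨ K % R = R - 1 := by
  have h0 := Int.emod_nonneg K (ne_of_gt g.R_pos)
  have h1 := Int.emod_lt_of_pos K g.R_pos
  omega

theorem gap' (K s : ℤ) : g.C K s + 2 ≤ g.C (K + 1) s := by
  rcases g.in_or_sea K with h | h
  · exact (g.gap_in h s).1
  · have h1 := g.gap_sea h s
    have h3 := g.R_pos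
    linarith

/-- Phases inside a copy. -/
theorem off_in {K : ℤ} (h : (K % R).toNat + 1 < R) (s : ℤ) :
    (¬ spc (K % R).toNat ∧ g.P (K + 1) s = g.P K s) ∨
    (spc (K % R).toNat ∧ ((g.P K s - g.P (K + 1) s) % 8 = 0 ∨ (g.P K s - g.P (K + 1) s) % 8 = 3)) := by
  have h1 := g.P_tr h (s - g.dl (K % R).toNat)
  rw [sub_add_cancel] at h1
  rcases g.kind _ h with ⟨h0, h2, h3, _⟩ | ⟨h0, h2, h3, h4, h5, _⟩
  · left
    refine ⟨h0, ?_⟩
    rw [h1, h2, sub_zero]
  · right
    refine ⟨h0, ?_⟩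
    rw [h1]
    unfold P Word.P
    have h6 := g.w.N_short g.G1 (s := s - g.dl (K % R).toNat - g.Lv K) (s' := s - g.Lv K) (by omega) (by omega)
    omega

/-- The sea has only the offsets 0, 3, or only the offsets 0, -3. -/
theorem off_sea : (∀ K : ℤ, K % R = R - 1 → ∀ s, (g.P K s - g.P (K + 1) s) % 8 = 0 ∨ (g.P K s - g.P (K + 1) s) % 8 = 3) ∨
    (∀ K : ℤ, K % R = R - 1 → ∀ s, (g.P K s - g.P (K + 1) s) % 8 = 0 ∨ (g.P K s - g.P (K + 1) s) % 8 = 5) := by
  have hl := g.l0_pos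
  have h1 : g.n - 1 ≤ g.w.Et * g.sh / (g.i0 + g.j0) := (Int.le_ediv_iff_mul_le hl).2 g.hn1
  have h2 : g.w.Et * g.sh / (g.i0 + g.j0) < g.n + 1 := (Int.ediv_lt_iff_lt_mul hl).2 g.hn2
  have hph : (g.sh - 3 * g.n) % 8 = 0 := g.hph
  have key : ∀ K : ℤ, K % R = R - 1 → ∀ s, g.P K s - g.P (K + 1) s = g.sh - 3 * (g.w.Et * g.sh / (g.i0 + g.j0)) ∨
      g.P K s - g.P (K + 1) s = g.sh - 3 * (g.w.Et * g.sh / (g.i0 + g.j0) + 1) := by
    intro K hK s
    rcases g.succ_cases K with ⟨h3, _⟩ | ⟨_, _, h3, _⟩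
    · exfalso; omega
    · unfold P Word.P
      rw [h3]
      have h4 := g.w.two g.G1 g.X0 (σ := g.sh) g.sep (s - g.Lv K)
      have e : s - (g.Lv K + g.sh) = s - g.Lv K - g.sh := by ring
      rw [e]
      rcases h4 with h4 | h4
      · left; linarith
      · right; linarith
  rcases (show g.w.Et * g.sh / (g.i0 + g.j0) = g.n - 1 ∨ g.w.Et * g.sh / (g.i0 + g.j0) = g.n by omega) with h3 | h3
  · left
    intro K hK s
    have := key K hK s
    rw [h3] at this
    omega
  · right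
    intro K hK s
    have := key K hK s
    rw [h3] at this
    omega

/-- The events at the two shores are at distance at least 64. -/
theorem sep_sea {K : ℤ} (hK : K % R = R - 1) {s s' : ℤ} (h : g.P K (s + 1) = g.P K s - 2)
    (h' : g.P (K + 1) (s' + 1) = g.P (K + 1) s' - 2) : s + 64 ≤ s' ∨ s' + 64 ≤ s := by
  rcases g.succ_cases K with ⟨h3, _⟩ | ⟨_, _, h3, _⟩
  · exfalso; omega
  · unfold P Word.P at h h'
    rw [h3] at h'
    have a1 := g.w.N_succ g.G1 (s - g.Lv K)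
    have a2 := g.w.N_succ g.G1 (s' - (g.Lv K + g.sh))
    have e1 : s + 1 - g.Lv K = s - g.Lv K + 1 := by ring
    have e2 : s' + 1 - (g.Lv K + g.sh) = s' - (g.Lv K + g.sh) + 1 := by ring
    rw [e1] at h
    rw [e2] at h'
    have b1 : s - g.Lv K = g.w.e (g.w.N (s - g.Lv K)) := by
      rcases a1 with ⟨b1, _⟩ | ⟨b1, c1⟩
      · rw [b1] at h; omega
      · exact c1
    have b2 : s' - (g.Lv K + g.sh) = g.w.e (g.w.N (s' - (g.Lv K + g.sh))) := by
      rcases a2 with ⟨b2, _⟩ | ⟨b2, c2⟩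
      · rw [b2] at h'; omega
      · exact c2
    have h5 := g.sep (g.w.N (s - g.Lv K)) (g.w.N (s' - (g.Lv K + g.sh)))
    rw [← b1, ← b2] at h5
    have e3 : g.sh = g.i1 + g.j1 - ∑ j ∈ Finset.range (R - 1), g.dl j := rfl
    rw [← e3] at h5
    have h6 := g.X0
    rcases h5 with h5 | h5
    · left; linarith
    · right; linarith

/-- The pattern of the base. -/
def pat : PPat where
  C := g.C
  W K s := bw (g.P K s)
  hC := g.hC'
  par := g.par'
  gap := g.gap'
  P := g.P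
  hW _ _ := rfl
  hP K s := by
    unfold P
    have := g.w.P_succ g.G1 (s - g.Lv K)
    have e : s + 1 - g.Lv K = s - g.Lv K + 1 := by ring
    rw [e]
    exact this
  sp K := K % R = R - 1 ∨ spc (K % R).toNat
  al K h s := by
    push Not at h
    rcases g.in_or_sea K with h1 | h1
    · rcases g.off_in h1 s with h2 | h2
      · exact h2.2
      · exact absurd h2.1 h.2
    · exact absurd h1 h.1
  off K _ s := by
    rcases g.in_or_sea K with h1 | h1
    · rcases g.off_in h1 s with h2 | h2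
      · left; rw [h2.2]; simp
      · rcases h2.2 with h3 | h3
        · left; exact h3
        · right; left; exact h3
    · rcases g.off_sea with h2 | h2
      · rcases h2 K h1 s with h3 | h3
        · left; exact h3
        · right; left; exact h3
      · rcases h2 K h1 s with h3 | h3
        · left; exact h3
        · right; right; exact h3
  iso K h := by
    have hR := g.R3
    have hR0 := g.R_pos
    have m0 := Int.emod_nonneg K (ne_of_gt hR0)
    have s1 := div_succ (q := K) hR0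
    have s2 := div_succ (q := K + 1) hR0
    have e : K + 1 + 1 = K + 2 := by ring
    rw [e] at s2
    have key : ∀ k, spc k → k < R → k + 1 < R ∨ k = R - 1 := by intro k _ hk; omega
    have k0 : ¬ spc 0 := fun h => by have := (g.iso 0 (by omega) h).1; omega
    have k1 : ¬ spc 1 := fun h => by
      rcases Nat.lt_or_ge (1 + 1) R with h1 | h1
      · have := (g.iso 1 h1 h).1; omega
      · omega
    by_cases hK : K % R = R - 1
    · -- after the sea
      have e1 : (K + 1) % R = 0 := by rcases s1 with s1 | s1 <;> omega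
      have e2 : (K + 2) % R = 1 := by rcases s2 with s2 | s2 <;> omega
      rw [e1, e2]
      simp only [Int.toNat_zero, Int.toNat_one]
      push Not
      exact ⟨⟨by omega, k0⟩, ⟨by omega, k1⟩⟩
    · have h' : spc (K % R).toNat := by tauto
      have hlt : (K % R).toNat + 1 < R := by rcases g.in_or_sea K with h1 | h1 <;> [exact h1; exact absurd h1 hK]
      obtain ⟨i1, i2, i3, i4⟩ := g.iso _ hlt h'
      have e1 : (K + 1) % R = K % R + 1 := by rcases s1 with s1 | s1 <;> omega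
      have e2 : (K + 2) % R = K % R + 2 := by rcases s2 with s2 | s2 <;> omega
      rw [e1, e2]
      have e3 : (K % R + 1).toNat = (K % R).toNat + 1 := by omega
      have e4 : (K % R + 2).toNat = (K % R).toNat + 2 := by omega
      rw [e3, e4]
      push Not
      exact ⟨⟨by omega, i3⟩, ⟨by omega, i4⟩⟩
  G := G
  far K s s' h h' hs := by
    unfold P Word.P at h h'
    have a1 := g.w.N_succ g.G1 (s - g.Lv K)
    have a2 := g.w.N_succ g.G1 (s' - g.Lv K)
    have e1 : s + 1 - g.Lv K = s - g.Lv K + 1 := by ring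
    have e2 : s' + 1 - g.Lv K = s' - g.Lv K + 1 := by ring
    rw [e1] at h
    rw [e2] at h'
    rcases a1 with ⟨b1, _⟩ | ⟨b1, c1⟩
    · rw [b1] at h; omega
    · rcases a2 with ⟨b2, _⟩ | ⟨b2, c2⟩
      · rw [b2] at h'; omega
      · have hmono := g.w.e_mono g.G1
        have hlt : g.w.e (g.w.N (s - g.Lv K)) < g.w.e (g.w.N (s' - g.Lv K)) := by omega
        have hlt' := hmono.lt_iff_lt.1 hlt
        have hle : g.w.e (g.w.N (s - g.Lv K) + 1) ≤ g.w.e (g.w.N (s' - g.Lv K)) :=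
          hmono.monotone (by omega)
        have := g.w.he (g.w.N (s - g.Lv K))
        omega

/-! ### Invariance -/

theorem C_w0 (K s : ℤ) : g.C K (s + (g.i0 + g.j0)) = g.C K s + (g.i0 - g.j0) := by
  unfold C
  have e : s + (g.i0 + g.j0) - g.Lv K = s - g.Lv K + (g.i0 + g.j0) := by ring
  rw [e, g.w.CEt]
  ring

theorem P_w0 (K s : ℤ) : (g.P K (s + (g.i0 + g.j0)) - g.P K s) % 8 = 0 := by
  unfold P
  have e : s + (g.i0 + g.j0) - g.Lv K = s - g.Lv K + (g.i0 + g.j0) := by ring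
  rw [e]
  exact g.w.P_l0 _

theorem C_w1 (K s : ℤ) : g.C (K + R) (s + (g.i1 + g.j1)) = g.C K s + (g.i1 - g.j1) := by
  unfold C
  rw [g.Cv_per, g.Lv_per]
  have e : s + (g.i1 + g.j1) - (g.Lv K + (g.i1 + g.j1)) = s - g.Lv K := by ring
  rw [e]
  ring

theorem P_w1 (K s : ℤ) : g.P (K + R) (s + (g.i1 + g.j1)) = g.P K s := by
  unfold P
  rw [g.Lv_per]
  have e : s + (g.i1 + g.j1) - (g.Lv K + (g.i1 + g.j1)) = s - g.Lv K := by ring
  rw [e]

end Geo

end Pool.Agent.Lib.MP_688fd0_co.SQ5.H76
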