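import Mathlib
import Pool.Agent.Lib.MP_688fd0_co.SQ5.H76.Geo

/-!
MP_688fd0_co, type C2, case B3 (helper76): the block of `Geo` in the form of helper66's `Blk` / `Lat` / `WallsT`.
-/

set_option autoImplicit false

namespace Pool.Agent.Lib.MP_688fd0_co.SQ5.H76

open Pool.Agent.Lib.MP_688fd0_co.SQ5.H66

namespace Geo

variable {L : AddSubgroup (ℤ × ℤ)} {M R : ℕ} {dc : ℕ → ℤ} {spc : ℕ → Prop} {G : ℤ} (g : Geo L M R dc spc G)

/-- First coordinate of the wall `K` at level `s`. -/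
def J (K s : ℤ) : ℤ := (g.C K s + s) / 2

theorem two_J (K s : ℤ) : 2 * g.J K s = g.C K s + s := by
  unfold J
  have := g.par' K s
  omega

theorem J_succ (K s : ℤ) : g.J K (s + 1) = g.J K s + if bw (g.P K s) = true then 1 else 0 := by
  have h1 := g.two_J K s
  have h2 := g.two_J K (s + 1)
  rw [g.hC'] at h2
  split_ifs at h2 ⊢ <;> omega

theorem J_lt (K s : ℤ) : g.J K s < g.J (K + 1) s := by
  have h1 := g.two_J K s
  have h2 := g.two_J (K + 1) s
  have h3 := g.gap' K s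
  omega

theorem J_w0 (K s : ℤ) : g.J K (s + (g.i0 + g.j0)) = g.J K s + g.i0 := by
  have h1 := g.two_J K s
  have h2 := g.two_J K (s + (g.i0 + g.j0))
  rw [g.C_w0] at h2
  omega

theorem J_w1 (K s : ℤ) : g.J (K + R) (s + (g.i1 + g.j1)) = g.J K s + g.i1 := by
  have h1 := g.two_J K s
  have h2 := g.two_J (K + R) (s + (g.i1 + g.j1))
  rw [g.C_w1] at h2
  omega

include g in
theorem nat_div {k : ℕ} (hk : k < R) : (k : ℤ) / R = 0 ∧ ((k : ℤ) % R).toNat = k := by
  have h : (k : ℤ) < R := by exact_mod_cast hk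
  have h0 : (0 : ℤ) ≤ k := Int.natCast_nonneg k
  constructor
  · exact Int.ediv_eq_zero_of_lt h0 h
  · rw [Int.emod_eq_of_lt h0 h]; simp

/-- The block. -/
def blk (D : ℕ) (hD : ∀ k, k + 1 < R → dc k + 3 ≤ D) : Blk (g.i0 + g.j0) g.i0 R g.X.toNat D where
  I k s := g.J ((min k (R - 1) : ℕ) : ℤ) s
  up k s := by
    rw [g.J_succ]
    split_ifs
    · right; rfl
    · left; ring
  rt k s hk := by
    have e1 : min k (R - 1) = k := by omega
    have e2 : min (k + 1) (R - 1) = k + 1 := by omega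
    rw [e1, e2]
    push_cast
    have h1 := g.two_J (k : ℤ) s
    have h2 := g.two_J ((k : ℤ) + 1) s
    have h3 := g.gap_in (K := (k : ℤ)) (by rw [(g.nat_div (by omega)).2]; exact hk) s
    rw [(g.nat_div (k := k) (by omega)).2] at h3
    have h4 := hD k hk
    constructor
    · omega
    · omega
  per k s := g.J_w0 _ s
  dev s := by
    have e1 : min 0 (R - 1) = 0 := by omega
    rw [e1]
    have h1 := g.two_J ((0 : ℕ) : ℤ) s
    have h2 := g.w.bal s
    have h3 : g.C ((0 : ℕ) : ℤ) s = g.w.C s := by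
      have h0 := g.R3
      unfold C Cv Lv
      rw [(g.nat_div (k := 0) (by omega)).1, (g.nat_div (k := 0) (by omega)).2]
      have e1 : cc dc 0 = 0 := by simp [cc]
      have e2 : g.ll 0 = 0 := by simp [ll]
      rw [e1, e2]
      simp
    rw [h3] at h1
    have hl := g.l0_pos
    have e : 2 * (g.J ((0 : ℕ) : ℤ) s * (g.i0 + g.j0) - s * g.i0) = (g.i0 + g.j0) * g.w.C s - (g.i0 - g.j0) * s := by
      have : 2 * (g.J ((0 : ℕ) : ℤ) s * (g.i0 + g.j0) - s * g.i0) =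
        (2 * g.J ((0 : ℕ) : ℤ) s) * (g.i0 + g.j0) - 2 * s * g.i0 := by ring
      rw [this, h1]
      ring
    obtain ⟨h2a, h2b⟩ := h2
    rw [← e] at h2a h2b
    rw [abs_le, Int.toNat_of_nonneg g.X0]
    have h5 := mul_nonneg g.X0 hl.le
    constructor <;> linarith

theorem blk_J {D : ℕ} (hD : ∀ k, k + 1 < R → dc k + 3 ≤ D) (K s : ℤ) :
    (g.blk D hD).J (g.i1 + g.j1) g.i1 K s = g.J K s := by
  have hR := g.R_pos
  have h0 := Int.emod_nonneg K (ne_of_gt hR)
  have hlt := g.mod_lt K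
  show g.J ((min (K % R).toNat (R - 1) : ℕ) : ℤ) (s - K / R * (g.i1 + g.j1)) + K / R * g.i1 = g.J K s
  have e1 : min (K % R).toNat (R - 1) = (K % R).toNat := by omega
  rw [e1]
  have h1 := g.two_J (((K % R).toNat : ℕ) : ℤ) (s - K / R * (g.i1 + g.j1))
  have h2 := g.two_J K s
  have h3 : g.C (((K % R).toNat : ℕ) : ℤ) (s - K / R * (g.i1 + g.j1)) = g.C K s - K / R * (g.i1 - g.j1) := by
    unfold C Cv Lv
    rw [(g.nat_div hlt).1, (g.nat_div hlt).2]
    have e : s - K / R * (g.i1 + g.j1) - (0 * (g.i1 + g.j1) + g.ll (K % R).toNat) =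
      s - (K / R * (g.i1 + g.j1) + g.ll (K % R).toNat) := by ring
    rw [e]
    ring
  rw [h3] at h1
  have e4 : K / R * (g.i1 - g.j1) + K / R * (g.i1 + g.j1) = 2 * (K / R * g.i1) := by ring
  linarith

section lat

variable {T : Type*} [AddCommGroup T] {al be : T}

/-- The data of the lattice of `T`. -/
theorem lat {D : ℕ} (hw : (i0 g + j0 g) * (D * R + 2 * g.X + 1) ≤ M) (hL : ∀ i j : ℤ, (i, j) ∈ L ↔ InL al be i j)
    (hg : Gn al be) : Lat al be g.i0 g.j0 g.i1 g.j1 M R g.X.toNat D where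
  h0 := (hL _ _).1 g.in0
  h1 := (hL _ _).1 g.in1
  hD := by rw [← g.det]; linarith
  hl0 := g.l0_pos
  hR := by have := g.R3; omega
  hgen i j h := by
    obtain ⟨x, y, h1, h2⟩ := g.ker i j ((hL i j).2 h)
    exact ⟨y, x, by linarith, by linarith⟩
  hM := by
    rw [Int.toNat_of_nonneg g.X0]
    linarith
  hg := hg

/-- The walls on `T`. -/
noncomputable def wt {D : ℕ} (hD : ∀ k, k + 1 < R → dc k + 3 ≤ D) (hw : (i0 g + j0 g) * (D * R + 2 * g.X + 1) ≤ M)
    (hL : ∀ i j : ℤ, (i, j) ∈ L ↔ InL al be i j) (hg : Gn al be) : WallsT al be :=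
  (g.blk D hD).walls (g.lat hw hL hg)

variable {D : ℕ} (hD : ∀ k, k + 1 < R → dc k + 3 ≤ D) (hw : (i0 g + j0 g) * (D * R + 2 * g.X + 1) ≤ M)
  (hL : ∀ i j : ℤ, (i, j) ∈ L ↔ InL al be i j) (hg : Gn al be)

theorem wt_P (K s : ℤ) : (g.wt hD hw hL hg).P K s = g.J K s • al + (s - g.J K s) • be := by
  show pt al be ((g.blk D hD).J (g.i1 + g.j1) g.i1 K s) s = _
  rw [g.blk_J]
  rfl

theorem wt_W (K s : ℤ) : (g.wt hD hw hL hg).W K s = bw (g.P K s) := by
  classical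
  show decide ((g.blk D hD).J (g.i1 + g.j1) g.i1 K (s + 1) = (g.blk D hD).J (g.i1 + g.j1) g.i1 K s + 1) = _
  rw [g.blk_J, g.blk_J, g.J_succ]
  cases h : bw (g.P K s)
  · simp
  · simp

theorem wt_w (K s : ℤ) : (((g.wt hD hw hL hg).w K s : ℕ) : ℤ) = g.J (K + 1) s - g.J K s := by
  show ((((g.blk D hD).J (g.i1 + g.j1) g.i1 (K + 1) s - (g.blk D hD).J (g.i1 + g.j1) g.i1 K s).toNat : ℕ) : ℤ) = _
  rw [g.blk_J, g.blk_J]
  have := g.J_lt K s
  omega

end lat

end Geo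

end Pool.Agent.Lib.MP_688fd0_co.SQ5.H76
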